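import Pool.Agent.ChN.Defs

/-!
# Orthonormal bases of invariant subspaces of tensor powers

First `U` is invariant under `kron c g` for all matrices `g` (also singular ones): for `t ∈ U` and a
linear functional `λ` vanishing on `U` the polynomial `s ↦ λ (kron c (fun i => g i + s • 1) *ᵥ t)`
vanishes whenever all `g i + s • 1` are invertible, i.e. for all but finitely many `s`, hence at
`s = 0` (or: `U` is closed and `g i + s • 1` is invertible for small `s ≠ 0`; let `s → 0`).  Then let `B`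
be the matrix of an orthonormal basis of `U` (standard scalar product; e.g.
`stdOrthonormalBasis` in `EuclideanSpace`, or Gram-Schmidt, or `B = F * (Fᵀ F)^(-1/2)` with `F` the
matrix of `f`), `X` the matrix of `f` in this basis, `B * Bᵀ` is the orthogonal projection onto `U`.
-/

namespace Pool.Agent.ChN

open Matrix Filter Topology

private theorem basis_det_ev {n : ℕ} (g : Matrix (Fin n) (Fin n) ℝ) :
    ∀ᶠ s : ℝ in 𝓝[≠] 0, (g + s • (1 : Matrix (Fin n) (Fin n) ℝ)).det ≠ 0 := by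
  classical
  obtain ⟨S, hS⟩ : ∃ S : Finset ℝ, S = ((-g).charpoly.roots.toFinset) := ⟨_, rfl⟩
  have h1 : ∀ s : ℝ, s ∉ S → (g + s • (1 : Matrix (Fin n) (Fin n) ℝ)).det ≠ 0 := by
    intro s hs h0
    apply hs
    rw [hS, Multiset.mem_toFinset, Polynomial.mem_roots (Matrix.charpoly_monic _).ne_zero,
      Polynomial.IsRoot.def, Matrix.eval_charpoly, ← h0]
    congr 1
    rw [sub_neg_eq_add, add_comm]
    congr 1
    ext i j
    simp [Matrix.scalar_apply, Matrix.diagonal_apply, Matrix.one_apply]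
  have h2 : ∀ᶠ s : ℝ in 𝓝 0, s ∉ (S.erase 0) := by
    have h3 : IsOpen ((↑(S.erase 0) : Set ℝ)ᶜ) := (Finset.finite_toSet _).isClosed.isOpen_compl
    have h4 : (0 : ℝ) ∈ ((↑(S.erase 0) : Set ℝ)ᶜ) := by simp
    filter_upwards [h3.mem_nhds h4] with s hs
    exact hs
  filter_upwards [nhdsWithin_le_nhds h2, self_mem_nhdsWithin] with s hs hs0
  apply h1
  intro h5
  exact hs (Finset.mem_erase.2 ⟨hs0, h5⟩)

private theorem basis_inv {r : ℕ} {a : Fin r → ℕ} {m : ℕ} (c : Fin m → Fin r)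
    (U : Submodule ℝ (TIx a c → ℝ))
    (hU : ∀ g : ∀ i, Matrix (Fin (a i)) (Fin (a i)) ℝ, (∀ i, (g i).det ≠ 0) →
      ∀ t ∈ U, kron c g *ᵥ t ∈ U) (g : ∀ i, Matrix (Fin (a i)) (Fin (a i)) ℝ) :
    ∀ t ∈ U, kron c g *ᵥ t ∈ U := by
  intro t ht
  have hcl : IsClosed (U : Set (TIx a c → ℝ)) := U.closed_of_finiteDimensional
  have hev : ∀ᶠ s : ℝ in 𝓝[≠] 0,
      kron c (fun i => g i + s • (1 : Matrix (Fin (a i)) (Fin (a i)) ℝ)) *ᵥ t ∈ U := by
    have h1 : ∀ᶠ s : ℝ in 𝓝[≠] 0, ∀ i,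
        (g i + s • (1 : Matrix (Fin (a i)) (Fin (a i)) ℝ)).det ≠ 0 :=
      eventually_all.2 fun i => basis_det_ev (g i)
    filter_upwards [h1] with s hs
    exact hU _ hs t ht
  have hcont : Continuous fun s : ℝ =>
      kron c (fun i => g i + s • (1 : Matrix (Fin (a i)) (Fin (a i)) ℝ)) *ᵥ t := by
    refine continuous_pi fun I => ?_
    unfold Matrix.mulVec dotProduct kron
    refine continuous_finsetSum _ fun J _ => ?_
    refine Continuous.mul ?_ continuous_const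
    refine continuous_finsetProd _ fun l _ => ?_
    simp only [Matrix.add_apply, Matrix.smul_apply, smul_eq_mul]
    fun_prop
  have h2 := (hcont.tendsto 0).mono_left (nhdsWithin_le_nhds (s := {0}ᶜ))
  have h3 := hcl.mem_of_tendsto h2 hev
  simpa using h3

private theorem basis_fin {ι : Type*} [Fintype ι] (U : Submodule ℝ (ι → ℝ)) {k : ℕ}
    (f : (Fin k → ℝ) ≃ₗ[ℝ] U) :
    ∃ B : Matrix ι (Fin k) ℝ, Bᵀ * B = 1 ∧ (∀ j, (fun i => B i j) ∈ U) ∧
      ∀ u ∈ U, B *ᵥ (Bᵀ *ᵥ u) = u := by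
  classical
  obtain ⟨e, he⟩ : ∃ e : (ι → ℝ) ≃ₗ[ℝ] EuclideanSpace ℝ ι,
      e = (WithLp.linearEquiv 2 ℝ (ι → ℝ)).symm := ⟨_, rfl⟩
  have hei : ∀ (x : ι → ℝ) (i : ι), e x i = x i := by
    intro x i
    rw [he]
    rfl
  have hfr : Module.finrank ℝ (U.map (e : (ι → ℝ) →ₗ[ℝ] EuclideanSpace ℝ ι)) = k := by
    rw [LinearEquiv.finrank_map_eq, ← f.finrank_eq, Module.finrank_fin_fun]
  obtain ⟨b, _⟩ : ∃ b : OrthonormalBasis (Fin k) ℝ (U.map (e : (ι → ℝ) →ₗ[ℝ] EuclideanSpace ℝ ι)),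
      True := ⟨(stdOrthonormalBasis ℝ _).reindex (finCongr hfr), trivial⟩
  refine ⟨fun i j => (b j : EuclideanSpace ℝ ι) i, ?_, ?_, ?_⟩
  · refine Matrix.ext fun j j' => ?_
    have h1 := orthonormal_iff_ite.1 b.orthonormal j' j
    rw [Submodule.coe_inner, PiLp.inner_apply] at h1
    rw [Matrix.mul_apply, Matrix.one_apply]
    simp only [Matrix.transpose_apply]
    rw [show (if j = j' then (1 : ℝ) else 0) = if j' = j then 1 else 0 by
      simp [eq_comm], ← h1]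
    refine Finset.sum_congr rfl fun i _ => ?_
    simp
  · intro j
    obtain ⟨x, hx, hx2⟩ := (b j).2
    have h1 : (fun i => (b j : EuclideanSpace ℝ ι) i) = x := by
      funext i
      rw [← hx2]
      exact hei x i
    rw [h1]
    exact hx
  · intro u hu
    have hmem : e u ∈ U.map (e : (ι → ℝ) →ₗ[ℝ] EuclideanSpace ℝ ι) := ⟨u, hu, rfl⟩
    have h1 := b.sum_repr' ⟨e u, hmem⟩
    have h2 := congrArg (fun z : (U.map (e : (ι → ℝ) →ₗ[ℝ] EuclideanSpace ℝ ι)) =>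
      (z : EuclideanSpace ℝ ι)) h1
    funext i
    have h3 := congrArg (fun z : EuclideanSpace ℝ ι => z i) h2
    simp only [Submodule.coe_sum, Submodule.coe_smul, hei] at h3
    rw [← h3]
    simp only [Matrix.mulVec, dotProduct, Matrix.transpose_apply]
    rw [WithLp.ofLp_sum, Finset.sum_apply]
    refine Finset.sum_congr rfl fun j _ => ?_
    rw [Submodule.coe_inner, PiLp.inner_apply]
    simp only [PiLp.smul_apply, smul_eq_mul]
    rw [mul_comm]
    congr 1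
    refine Finset.sum_congr rfl fun i' _ => ?_
    simp [hei, mul_comm]

theorem exists_basis {r : ℕ} {a : Fin r → ℕ} {m : ℕ} (c : Fin m → Fin r)
    (U : Submodule ℝ (TIx a c → ℝ))
    (hU : ∀ g : ∀ i, Matrix (Fin (a i)) (Fin (a i)) ℝ, (∀ i, (g i).det ≠ 0) →
      ∀ t ∈ U, kron c g *ᵥ t ∈ U)
    {k : ℕ} (f : (Fin k → ℝ) ≃ₗ[ℝ] U) :
    ∃ (B : Matrix (TIx a c) (Fin k) ℝ) (X : Matrix (Fin k) (Fin k) ℝ), Bᵀ * B = 1 ∧ X.det ≠ 0 ∧
      (∀ v, (f v : TIx a c → ℝ) = B *ᵥ (X *ᵥ v)) ∧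
      ∀ g, kron c g * B = B * (Bᵀ * kron c g * B) := by
  classical
  obtain ⟨B, hB1, hB2, hB3⟩ := basis_fin U f
  obtain ⟨F, hF⟩ : ∃ F : Matrix (TIx a c) (Fin k) ℝ, ∀ v, F *ᵥ v = (f v : TIx a c → ℝ) := by
    refine ⟨LinearMap.toMatrix' (U.subtype ∘ₗ (f : (Fin k → ℝ) →ₗ[ℝ] U)), fun v => ?_⟩
    rw [LinearMap.toMatrix'_mulVec]
    rfl
  have hX : ∀ v, (f v : TIx a c → ℝ) = B *ᵥ ((Bᵀ * F) *ᵥ v) := by
    intro v
    rw [← Matrix.mulVec_mulVec, hF, hB3 _ (f v).2]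
  refine ⟨B, Bᵀ * F, hB1, ?_, hX, ?_⟩
  · intro h0
    obtain ⟨v, hv, hv2⟩ := Matrix.exists_mulVec_eq_zero_iff.2 h0
    apply hv
    have h1 := hX v
    rw [hv2, Matrix.mulVec_zero] at h1
    have h2 : f v = 0 := Subtype.ext h1
    exact f.map_eq_zero_iff.1 h2
  · intro g
    refine Matrix.ext fun I j => ?_
    have h1 : kron c g *ᵥ (fun i => B i j) ∈ U := basis_inv c U hU g _ (hB2 j)
    have h2 : B *ᵥ ((Bᵀ * kron c g) *ᵥ (fun i => B i j)) = kron c g *ᵥ (fun i => B i j) := by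
      rw [← Matrix.mulVec_mulVec (fun i => B i j) Bᵀ (kron c g)]
      exact hB3 _ h1
    exact (congrFun h2 I).symm

end Pool.Agent.ChN
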