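import Pool.Agent.ChN.Defs

/-!
# Grassmann variables

`E = ExteriorAlgebra ℝ (Fin n → ℝ)`, `θ i = ExteriorAlgebra.ι ℝ (Pi.single i 1)`,
`C = Algebra.adjoin ℝ {θ i * θ j}`, a commutative algebra (`Algebra.adjoinCommRingOfComm`),
`ω i j = θ i * θ j`, `top` the restriction to `C` of the linear map `E → ℝ` which is the
determinant on products of `n` vectors and zero on products of `k ≠ n` vectors
(`ExteriorAlgebra.liftAlternating`).

Traces: `curv ω Y` is the square of the matrix `α = ∑ i, θ i Y i` with entries in `E`.  The entries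
of `α` anticommute with the entries of `α ^ (2 k - 1)` (these are sums of products of an element
of `C` and some `θ j`), so `trace (α * α ^ (2 k - 1)) = - trace (α ^ (2 k - 1) * α)`.
-/

namespace Pool.Agent.ChN

open Matrix

/-- the exterior algebra -/
private abbrev GrE (n : ℕ) : Type := ExteriorAlgebra ℝ (Fin n → ℝ)

/-- the odd generators -/
private noncomputable def grTh {n : ℕ} (i : Fin n) : GrE n :=
  ExteriorAlgebra.ι ℝ (Pi.single i (1 : ℝ))

private theorem gr_swap {n : ℕ} (v w : Fin n → ℝ) :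
    (ExteriorAlgebra.ι ℝ v : GrE n) * ExteriorAlgebra.ι ℝ w
      = -(ExteriorAlgebra.ι ℝ w * ExteriorAlgebra.ι ℝ v) :=
  eq_neg_of_add_eq_zero_left (ExteriorAlgebra.ι_add_mul_swap v w)

/-- anticommutes with the generators -/
private def GrOdd {n : ℕ} (x : GrE n) : Prop :=
  ∀ v : Fin n → ℝ, (ExteriorAlgebra.ι ℝ v : GrE n) * x = -(x * ExteriorAlgebra.ι ℝ v)

/-- commutes with the generators -/
private def GrEv {n : ℕ} (x : GrE n) : Prop :=
  ∀ v : Fin n → ℝ, (ExteriorAlgebra.ι ℝ v : GrE n) * x = x * ExteriorAlgebra.ι ℝ v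

private theorem gr_odd_odd {n : ℕ} {x y : GrE n} (hx : GrOdd x) (hy : GrOdd y) :
    GrEv (x * y) := by
  intro v
  rw [← mul_assoc, hx v, neg_mul, mul_assoc, hy v, mul_neg, neg_neg, mul_assoc]

private theorem gr_ev_odd {n : ℕ} {x y : GrE n} (hx : GrEv x) (hy : GrOdd y) :
    GrOdd (x * y) := by
  intro v
  rw [← mul_assoc, hx v, mul_assoc, hy v, mul_neg, mul_assoc]

private theorem gr_odd_ev {n : ℕ} {x y : GrE n} (hx : GrOdd x) (hy : GrEv y) :
    GrOdd (x * y) := by
  intro v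
  rw [← mul_assoc, hx v, neg_mul, mul_assoc, hy v, mul_assoc]

private theorem gr_ev_sum {n : ℕ} {κ : Type*} (s : Finset κ) (f : κ → GrE n)
    (h : ∀ i ∈ s, GrEv (f i)) : GrEv (∑ i ∈ s, f i) := by
  intro v
  rw [Finset.mul_sum, Finset.sum_mul]
  exact Finset.sum_congr rfl fun i hi => h i hi v

private theorem gr_odd_sum {n : ℕ} {κ : Type*} (s : Finset κ) (f : κ → GrE n)
    (h : ∀ i ∈ s, GrOdd (f i)) : GrOdd (∑ i ∈ s, f i) := by
  intro v
  rw [Finset.mul_sum, Finset.sum_mul, ← Finset.sum_neg_distrib]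
  exact Finset.sum_congr rfl fun i hi => h i hi v

/-- the odd matrix -/
private noncomputable def grA {n : ℕ} {ι : Type} [Fintype ι] (Y : Fin n → Matrix ι ι ℝ) :
    Matrix ι ι (GrE n) :=
  fun I J => ExteriorAlgebra.ι ℝ fun i => Y i I J

private theorem grA_eq {n : ℕ} {ι : Type} [Fintype ι] (Y : Fin n → Matrix ι ι ℝ) (I J : ι) :
    grA Y I J = ∑ i, Y i I J • grTh i := by
  have h : (fun i => Y i I J) = ∑ i, Y i I J • (Pi.single i (1 : ℝ) : Fin n → ℝ) := by
    funext k
    simp [Finset.sum_apply, Pi.single_apply]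
  unfold grA grTh
  rw [h, map_sum]
  exact Finset.sum_congr rfl fun i _ => by rw [map_smul]

private theorem gr_pow {n : ℕ} {ι : Type} [Fintype ι] [DecidableEq ι] (Y : Fin n → Matrix ι ι ℝ)
    (k : ℕ) : (∀ I J, GrEv ((grA Y ^ (2 * k)) I J)) ∧
      (∀ I J, GrOdd ((grA Y ^ (2 * k + 1)) I J)) := by
  have hA : ∀ I J, GrOdd (grA Y I J) := fun I J v => gr_swap _ _
  have step : (∀ I J, GrEv ((grA Y ^ (2 * k)) I J)) →
      (∀ I J, GrOdd ((grA Y ^ (2 * k + 1)) I J)) := by
    intro h I J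
    rw [pow_succ, Matrix.mul_apply]
    exact gr_odd_sum _ _ fun K _ => gr_ev_odd (h I K) (hA K J)
  induction k with
  | zero =>
    have h0 : ∀ I J, GrEv ((grA Y ^ (2 * 0)) I J) := by
      intro I J v
      rw [mul_zero, pow_zero, Matrix.one_apply]
      split_ifs <;> simp
    exact ⟨h0, step h0⟩
  | succ k ih =>
    have step' : (∀ I J, GrEv ((grA Y ^ (2 * k)) I J)) →
        (∀ I J, GrOdd ((grA Y ^ (2 * k + 1)) I J)) := by
      intro h I J
      rw [pow_succ, Matrix.mul_apply]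
      exact gr_odd_sum _ _ fun K _ => gr_ev_odd (h I K) (hA K J)
    have h0 : ∀ I J, GrEv ((grA Y ^ (2 * (k + 1))) I J) := by
      intro I J
      have e : 2 * (k + 1) = (2 * k + 1) + 1 := by ring
      rw [e, pow_succ, Matrix.mul_apply]
      exact gr_ev_sum _ _ fun K _ => gr_odd_odd ((ih step').2 I K) (hA K J)
    exact ⟨h0, step h0⟩

private theorem gr_trace {n : ℕ} {ι : Type} [Fintype ι] [DecidableEq ι] (Y : Fin n → Matrix ι ι ℝ)
    (k : ℕ) (hk : 0 < k) : (grA Y ^ (2 * k)).trace = 0 := by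
  obtain ⟨k, rfl⟩ : ∃ l, k = l + 1 := ⟨k - 1, by omega⟩
  have e : 2 * (k + 1) = (2 * k + 1) + 1 := by ring
  have h1 : (grA Y ^ (2 * (k + 1))).trace = ∑ I, ∑ J, grA Y I J * (grA Y ^ (2 * k + 1)) J I := by
    rw [e, pow_succ', Matrix.trace]
    exact Finset.sum_congr rfl fun I _ => by rw [Matrix.diag_apply, Matrix.mul_apply]
  have h2 : (grA Y ^ (2 * (k + 1))).trace = ∑ I, ∑ J, (grA Y ^ (2 * k + 1)) I J * grA Y J I := by
    rw [e, pow_succ, Matrix.trace]
    exact Finset.sum_congr rfl fun I _ => by rw [Matrix.diag_apply, Matrix.mul_apply]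
  have h3 : (grA Y ^ (2 * (k + 1))).trace = -(grA Y ^ (2 * (k + 1))).trace := by
    conv_lhs => rw [h1]
    rw [h2, Finset.sum_comm, ← Finset.sum_neg_distrib]
    refine Finset.sum_congr rfl fun I _ => ?_
    rw [← Finset.sum_neg_distrib]
    exact Finset.sum_congr rfl fun J _ => (gr_pow Y k).2 I J _
  have h4 : (2 : ℝ) • (grA Y ^ (2 * (k + 1))).trace = 0 := by
    rw [two_smul]
    nth_rewrite 1 [h3]
    rw [neg_add_cancel]
  exact (smul_eq_zero.1 h4).resolve_left two_ne_zero

private theorem gr_list {n : ℕ} (M : Type*) [Monoid M] (m : ℕ) (h : n = 2 * m) (g : Fin n → M) :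
    (List.ofFn fun j : Fin m => g ⟨2 * j, by omega⟩ * g ⟨2 * j + 1, by omega⟩).prod
      = (List.ofFn g).prod := by
  subst h
  rw [List.ofFn_mul' g, List.prod_flatten, List.map_ofFn]
  congr 1
  congr 1
  funext j
  simp [List.ofFn_succ]

/-- the top coefficient -/
private noncomputable def grTop (n : ℕ) : GrE n →ₗ[ℝ] ℝ :=
  ExteriorAlgebra.liftAlternating fun i =>
    if h : i = n then h ▸ (Matrix.detRowAlternating : (Fin i → ℝ) [⋀^Fin i]→ₗ[ℝ] ℝ) else 0

private theorem grTop_apply (n : ℕ) (v : Fin n → Fin n → ℝ) :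
    grTop n (ExteriorAlgebra.ιMulti ℝ n v) = Matrix.det (Matrix.of v) := by
  unfold grTop
  rw [ExteriorAlgebra.liftAlternating_apply_ιMulti, dif_pos rfl]
  rfl

theorem exists_grassmann (n : ℕ) : ∃ (C : Type) (_ : CommRing C) (_ : Algebra ℝ C)
    (ω : Fin n → Fin n → C) (top : C →ₗ[ℝ] ℝ),
    (∀ i j, ω j i = -ω i j) ∧
    (∀ (ι : Type) [Fintype ι] [DecidableEq ι] (Y : Fin n → Matrix ι ι ℝ) (k : ℕ), 0 < k →
      ((curv ω Y) ^ k).trace = 0) ∧
    (Even n → ∀ f : Fin n → Fin n, ¬ Function.Injective f →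
      top (∏ j : Fin (n / 2), ω (f (lo2 j)) (f (hi2 j))) = 0) ∧
    (Even n → ∀ f : Equiv.Perm (Fin n),
      top (∏ j : Fin (n / 2), ω (f (lo2 j)) (f (hi2 j))) = ((Equiv.Perm.sign f : ℤ) : ℝ)) := by
  set s : Set (GrE n) := {x | ∃ i j : Fin n, x = grTh i * grTh j} with hs
  have hcomm : ∀ a ∈ s, ∀ b ∈ s, a * b = b * a := by
    rintro _ ⟨i, j, rfl⟩ b ⟨k, l, rfl⟩
    have hi : GrOdd (grTh i : GrE n) := fun v => gr_swap _ _
    have hk : GrOdd (grTh k : GrE n) := fun v => gr_swap _ _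
    have hl : GrOdd (grTh l : GrE n) := fun v => gr_swap _ _
    have hkl := gr_odd_odd hk hl
    have e1 : grTh i * (grTh k * grTh l) = (grTh k * grTh l) * grTh i := hkl _
    have e2 : grTh j * (grTh k * grTh l) = (grTh k * grTh l) * grTh j := hkl _
    rw [mul_assoc, e2, ← mul_assoc, e1, mul_assoc]
  let I1 : CommRing (Algebra.adjoin ℝ s) := Algebra.adjoinCommRingOfComm ℝ hcomm
  let I2 : Algebra ℝ (Algebra.adjoin ℝ s) := (Algebra.adjoin ℝ s).algebra
  let ω : Fin n → Fin n → Algebra.adjoin ℝ s := fun i j =>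
    ⟨grTh i * grTh j, Algebra.subset_adjoin ⟨i, j, rfl⟩⟩
  let val : Algebra.adjoin ℝ s →ₐ[ℝ] GrE n := (Algebra.adjoin ℝ s).val
  have hval : Function.Injective val := Subtype.val_injective
  have hω : ∀ i j, val (ω i j) = grTh i * grTh j := fun i j => rfl
  refine ⟨Algebra.adjoin ℝ s, I1, I2, ω, (grTop n).comp val.toLinearMap, ?_, ?_, ?_⟩
  · intro i j
    apply hval
    rw [map_neg, hω, hω]
    exact gr_swap _ _
  · intro ι _ _ Y k hk
    apply hval
    have hc : (curv ω Y).map val = grA Y * grA Y := by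
      ext I J
      rw [Matrix.map_apply, Matrix.mul_apply]
      unfold curv
      rw [Matrix.sum_apply, map_sum]
      simp_rw [Matrix.sum_apply, map_sum, Matrix.map_apply, map_smul, hω, Matrix.mul_apply,
        grA_eq, Finset.sum_mul_sum, Finset.sum_smul]
      symm
      rw [Finset.sum_comm]
      refine Finset.sum_congr rfl fun i _ => ?_
      rw [Finset.sum_comm]
      refine Finset.sum_congr rfl fun j _ => Finset.sum_congr rfl fun K _ => ?_
      rw [smul_mul_smul_comm]
    have hp : ((curv ω Y) ^ k).map val = grA Y ^ (2 * k) := by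
      rw [pow_mul, pow_two, ← hc]
      exact map_pow val.toRingHom.mapMatrix _ _
    have ht : val ((curv ω Y ^ k).trace) = (((curv ω Y) ^ k).map val).trace := by
      rw [Matrix.trace, Matrix.trace, map_sum]
      rfl
    rw [ht, hp, gr_trace Y k hk, map_zero]
  have key : ∀ (hn : Even n) (f : Fin n → Fin n),
      val (∏ j : Fin (n / 2), ω (f (lo2 j)) (f (hi2 j)))
        = ExteriorAlgebra.ιMulti ℝ n fun i => Pi.single (f i) (1 : ℝ) := by
    intro hn f
    obtain ⟨m, hm⟩ := hn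
    rw [ExteriorAlgebra.ιMulti_apply]
    have h2 : n = 2 * (n / 2) := by omega
    rw [← gr_list (GrE n) (n / 2) h2 (fun i => ExteriorAlgebra.ι ℝ (Pi.single (f i) (1 : ℝ)))]
    rw [← List.prod_ofFn, map_list_prod, List.map_ofFn]
    rfl
  constructor
  · intro hn f hf
    change grTop n (val _) = 0
    rw [key hn f, AlternatingMap.map_eq_zero_of_not_injective, map_zero]
    intro h
    apply hf
    intro a b hab
    apply h
    simp only [hab]
  · intro hn f
    change grTop n (val _) = _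
    rw [key hn f, grTop_apply]
    have := Matrix.det_permute f (1 : Matrix (Fin n) (Fin n) ℝ)
    rw [Matrix.det_one, mul_one] at this
    rw [← this]
    congr 1
    ext i j
    simp [Matrix.of_apply, Matrix.submatrix_apply, Matrix.one_apply, Pi.single_apply, eq_comm]

end Pool.Agent.ChN
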