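import Pool.Agent.ChN.Defs
import Pool.Agent.ChM.GaussInt

/-!
# Wick's formula for the Gaussian mean of `det (Y_1 η, ..., Y_n η)`

`gauss_wick`: Wick's formula.  With `m = n / 2`, `gE` and `gE_eq_integral` of `ChM/GaussInt.lean`
and `gE_X_mul` of `ChM/GaussPoly.lean` (Gaussian integration by parts) one can prove it for example
by polarisation: the coefficient of `t_1 ... t_n` in
`gE ((∑ k, t_k ℓ_k) ^ n) = (2 m - 1)!! (∑ k l, t_k t_l ⟨v k, v l⟩) ^ m`; or by induction on `n`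
from `gE (ℓ_0 * ∏ ℓ_k) = ∑ k, ⟨v 0, v k⟩ gE (∏ over the others)`; or by comparing the coefficients
in `E exp (⟨∑ t_k v k, η⟩) = exp (|∑ t_k v k|^2 / 2)`.

`jj_eq`: `JJ Y = ∑ σ, sign σ E ∏ i, (Y i η) (σ i)`; apply `gauss_wick` to `v i = Y i (σ i)` (row), the
scalar product of row `p` of `Y i` and row `q` of `Y j` is `(Y i * Y j) p q` because `Y j` is
symmetric; substitute `σ * τ = σ'`.

`jj_odd`: substitution `η ↦ -η`.
-/

namespace Pool.Agent.ChN

open MeasureTheory Matrix Pool.Agent.ChP Pool.Agent.ChM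

open MvPolynomial in
private noncomputable def wick_l {d : ℕ} (w : Fin d → ℝ) : MvPolynomial (Fin d) ℂ :=
  ∑ l, C ((w l : ℝ) : ℂ) * X l

open MvPolynomial in
private theorem wick_l_sum {d : ℕ} {κ : Type*} (S : Finset κ) (v : κ → Fin d → ℝ) :
    ∑ k ∈ S, wick_l (v k) = wick_l (∑ k ∈ S, v k) := by
  unfold wick_l
  rw [Finset.sum_comm]
  refine Finset.sum_congr rfl fun l _ => ?_
  rw [← Finset.sum_mul, Finset.sum_apply, Complex.ofReal_sum, map_sum]

open MvPolynomial in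
private theorem wick_eval {d : ℕ} {κ : Type*} [Fintype κ] (v : κ → Fin d → ℝ) (x : Fin d → ℝ) :
    eval (fun i => (x i : ℂ)) (∏ k, wick_l (v k)) = ((∏ k, v k ⬝ᵥ x : ℝ) : ℂ) := by
  rw [map_prod, Complex.ofReal_prod]
  refine Finset.prod_congr rfl fun k _ => ?_
  unfold wick_l dotProduct
  simp only [map_sum, map_mul, eval_C, eval_X, Complex.ofReal_sum, Complex.ofReal_mul]

open MvPolynomial in
private theorem wick_pderiv {d : ℕ} (w : Fin d → ℝ) (l : Fin d) :
    pderiv l (wick_l w) = C ((w l : ℝ) : ℂ) := by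
  classical
  unfold wick_l
  rw [map_sum, Finset.sum_eq_single l]
  · rw [pderiv_C_mul, pderiv_X_self, mul_one]
  · intro k _ hk
    rw [pderiv_C_mul, pderiv_X_of_ne hk, mul_zero]
  · intro h
    exact absurd (Finset.mem_univ _) h

open MvPolynomial in
private theorem wick_step {d : ℕ} (w : Fin d → ℝ) (k : ℕ) :
    gE d (wick_l w ^ (k + 2)) = ((((k : ℝ) + 1) * (w ⬝ᵥ w) : ℝ) : ℂ) * gE d (wick_l w ^ k) := by
  have h1 : wick_l w ^ (k + 2) = ∑ l, ((w l : ℝ) : ℂ) • (X l * wick_l w ^ (k + 1)) := by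
    rw [pow_succ' (wick_l w) (k + 1)]
    have hw : ∀ Q : MvPolynomial (Fin d) ℂ, wick_l w * Q = ∑ l, C ((w l : ℝ) : ℂ) * X l * Q := by
      intro Q
      unfold wick_l
      rw [Finset.sum_mul]
    rw [hw]
    refine Finset.sum_congr rfl fun l _ => ?_
    rw [smul_eq_C_mul, mul_assoc]
  rw [h1, map_sum]
  have h2 : ∀ l : Fin d, gE d (((w l : ℝ) : ℂ) • (X l * wick_l w ^ (k + 1))) =
      ((w l : ℝ) : ℂ) * (((k : ℂ) + 1) * ((w l : ℝ) : ℂ) * gE d (wick_l w ^ k)) := by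
    intro l
    rw [map_smul, smul_eq_mul, gE_X_mul]
    congr 1
    have h3 : pderiv l (wick_l w ^ (k + 1)) = (((k : ℂ) + 1) * ((w l : ℝ) : ℂ)) • wick_l w ^ k := by
      rw [Derivation.leibniz_pow, wick_pderiv, Nat.add_sub_cancel, smul_eq_C_mul, map_mul,
        nsmul_eq_mul, smul_eq_mul]
      push_cast
      simp only [map_add, map_one, map_natCast]
      ring
    rw [h3, map_smul, smul_eq_mul]
  rw [Finset.sum_congr rfl fun l _ => h2 l]
  unfold dotProduct
  push_cast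
  rw [Finset.mul_sum, Finset.sum_mul]
  refine Finset.sum_congr rfl fun l _ => ?_
  ring

open MvPolynomial in
private theorem wick_pow {d : ℕ} (w : Fin d → ℝ) (m : ℕ) :
    gE d (wick_l w ^ (2 * m)) = ((mu (2 * m) * (w ⬝ᵥ w) ^ m : ℝ) : ℂ) := by
  induction m with
  | zero =>
    have h := gE_C (n := d) (1 : ℂ)
    rw [map_one] at h
    simp [mu, h]
  | succ m ih =>
    have e : 2 * (m + 1) = 2 * m + 2 := by ring
    rw [e, wick_step, ih]
    have h2 : mu (2 * m + 2) = ((2 * m : ℕ) + 1 : ℝ) * mu (2 * m) := rfl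
    rw [h2]
    push_cast
    ring

private theorem wick_mu (m : ℕ) : ((2 * m).factorial : ℝ) = mu (2 * m) * (2 ^ m * m.factorial) := by
  induction m with
  | zero => simp [mu]
  | succ m ih =>
    have e : 2 * (m + 1) = 2 * m + 2 := by ring
    have h2 : mu (2 * m + 2) = ((2 * m : ℕ) + 1 : ℝ) * mu (2 * m) := rfl
    rw [e, Nat.factorial_succ, Nat.factorial_succ, h2, Nat.factorial_succ]
    push_cast
    rw [ih]
    ring

private theorem wick_incl {n : ℕ} {R : Type*} [CommRing R] (g : (Fin n → Fin n) → R) :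
    ∑ T : Finset (Fin n), (-1 : R) ^ T.card *
      ∑ f ∈ Fintype.piFinset (fun _ : Fin n => Tᶜ), g f = ∑ τ : Equiv.Perm (Fin n), g τ := by
  classical
  have h1 : ∀ T : Finset (Fin n), (-1 : R) ^ T.card *
      ∑ f ∈ Fintype.piFinset (fun _ : Fin n => Tᶜ), g f =
      ∑ f : Fin n → Fin n, if T ⊆ (Finset.univ.image f)ᶜ then (-1 : R) ^ T.card * g f else 0 := by
    intro T
    rw [Finset.mul_sum, ← Finset.sum_filter]
    refine Finset.sum_congr ?_ fun _ _ => rfl
    ext f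
    simp only [Fintype.mem_piFinset, Finset.mem_compl, Finset.mem_filter, Finset.mem_univ, true_and,
      Finset.subset_iff, Finset.mem_image, not_exists]
    constructor
    · intro h x hx i hi
      exact h i (hi ▸ hx)
    · intro h i hi
      exact h hi i rfl
  rw [Finset.sum_congr rfl fun T _ => h1 T, Finset.sum_comm]
  have h2 : ∀ f : Fin n → Fin n, (∑ T : Finset (Fin n),
      if T ⊆ (Finset.univ.image f)ᶜ then (-1 : R) ^ T.card * g f else 0) =
      if Function.Surjective f then g f else 0 := by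
    intro f
    rw [← Finset.sum_filter, ← Finset.sum_mul]
    have h3 : Finset.univ.filter (fun T : Finset (Fin n) => T ⊆ (Finset.univ.image f)ᶜ) =
        ((Finset.univ.image f)ᶜ).powerset := by
      ext T
      simp
    rw [h3]
    have h4 : (∑ T ∈ ((Finset.univ.image f)ᶜ).powerset, (-1 : R) ^ T.card) =
        if (Finset.univ.image f)ᶜ = ∅ then 1 else 0 := by
      have h5 := congrArg (Int.cast : ℤ → R)
        (Finset.sum_powerset_neg_one_pow_card (x := (Finset.univ.image f)ᶜ))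
      push_cast at h5
      exact h5
    rw [h4]
    have h6 : (Finset.univ.image f)ᶜ = ∅ ↔ Function.Surjective f := by
      rw [Finset.compl_eq_empty_iff, Finset.eq_univ_iff_forall]
      simp only [Finset.mem_image, Finset.mem_univ, true_and]
      rfl
    by_cases h : Function.Surjective f
    · rw [if_pos h, if_pos (h6.2 h), one_mul]
    · rw [if_neg h, if_neg (fun h' => h (h6.1 h')), zero_mul]
  rw [Finset.sum_congr rfl fun f _ => h2 f, ← Finset.sum_filter]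
  symm
  refine Finset.sum_bij (fun τ _ => (τ : Fin n → Fin n)) ?_ ?_ ?_ ?_
  · intro τ _
    exact Finset.mem_filter.2 ⟨Finset.mem_univ _, τ.surjective⟩
  · intro τ _ τ' _ h
    exact DFunLike.coe_injective h
  · intro f hf
    have hs := (Finset.mem_filter.1 hf).2
    exact ⟨Equiv.ofBijective f ⟨Finite.injective_iff_surjective.2 hs, hs⟩, Finset.mem_univ _, rfl⟩
  · intro τ _
    rfl

private theorem wick_pairs {n : ℕ} (hn : Even n) {R : Type*} [CommRing R] (S : Finset (Fin n))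
    (c : Fin n → Fin n → R) :
    ∑ f ∈ Fintype.piFinset (fun _ : Fin n => S), ∏ j : Fin (n / 2), c (f (lo2 j)) (f (hi2 j)) =
      (∑ k ∈ S, ∑ l ∈ S, c k l) ^ (n / 2) := by
  classical
  have hev : n = 2 * (n / 2) := by
    obtain ⟨k, hk⟩ := hn
    omega
  have h1 : (∑ k ∈ S, ∑ l ∈ S, c k l) ^ (n / 2) =
      ∑ h ∈ Fintype.piFinset (fun _ : Fin (n / 2) => S ×ˢ S), ∏ j, c (h j).1 (h j).2 := by
    have h0 := Finset.prod_univ_sum (fun _ : Fin (n / 2) => S ×ˢ S)
      (fun _ p => c p.1 p.2)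
    rw [← h0, Finset.prod_const, Finset.card_univ, Fintype.card_fin, Finset.sum_product']
  rw [h1]
  refine Finset.sum_nbij' (fun f j => (f (lo2 j), f (hi2 j)))
    (fun h i => if (i : ℕ) % 2 = 0 then (h ⟨(i : ℕ) / 2, by omega⟩).1
      else (h ⟨(i : ℕ) / 2, by omega⟩).2) ?_ ?_ ?_ ?_ ?_
  · intro f hf
    rw [Fintype.mem_piFinset] at hf ⊢
    intro j
    exact Finset.mem_product.2 ⟨hf _, hf _⟩
  · intro h hh
    rw [Fintype.mem_piFinset] at hh ⊢
    intro i
    split_ifs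
    · exact (Finset.mem_product.1 (hh _)).1
    · exact (Finset.mem_product.1 (hh _)).2
  · intro f _
    funext i
    split_ifs with h0
    · show f (lo2 _) = f i
      congr 1
      apply Fin.ext
      show 2 * ((i : ℕ) / 2) = i
      omega
    · show f (hi2 _) = f i
      congr 1
      apply Fin.ext
      show 2 * ((i : ℕ) / 2) + 1 = i
      omega
  · intro h _
    funext j
    have e1 : ((lo2 j : Fin n) : ℕ) = 2 * j := rfl
    have e2 : ((hi2 j : Fin n) : ℕ) = 2 * j + 1 := rfl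
    apply Prod.ext
    · show (if ((lo2 j : Fin n) : ℕ) % 2 = 0 then _ else _) = _
      rw [if_pos (by rw [e1]; omega)]
      congr 2
      apply Fin.ext
      show ((lo2 j : Fin n) : ℕ) / 2 = j
      rw [e1]
      omega
    · show (if ((hi2 j : Fin n) : ℕ) % 2 = 0 then _ else _) = _
      rw [if_neg (by rw [e2]; omega)]
      congr 2
      apply Fin.ext
      show ((hi2 j : Fin n) : ℕ) / 2 = j
      rw [e2]
      omega
  · intro f _
    rfl

open MvPolynomial in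
private theorem wick_gE {d n : ℕ} (hn : Even n) (v : Fin n → Fin d → ℝ) :
    (((2 ^ (n / 2) * (n / 2).factorial : ℕ) : ℝ) : ℂ) * gE d (∏ k, wick_l (v k)) =
      ((∑ τ : Equiv.Perm (Fin n), ∏ j : Fin (n / 2), v (τ (lo2 j)) ⬝ᵥ v (τ (hi2 j)) : ℝ) : ℂ) := by
  classical
  have hev : n = 2 * (n / 2) := by
    obtain ⟨k, hk⟩ := hn
    omega
  have h1 : ∀ τ : Equiv.Perm (Fin n), ∏ i, wick_l (v (τ i)) = ∏ k, wick_l (v k) :=
    fun τ => Equiv.prod_comp τ (fun k => wick_l (v k))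
  have h2 : ((n.factorial : ℝ) : ℂ) * gE d (∏ k, wick_l (v k)) =
      ∑ τ : Equiv.Perm (Fin n), gE d (∏ i, wick_l (v (τ i))) := by
    rw [Finset.sum_congr rfl fun τ _ => by rw [h1 τ], Finset.sum_const, Finset.card_univ,
      Fintype.card_perm, Fintype.card_fin, nsmul_eq_mul]
    push_cast
    rfl
  have h3 := wick_incl (R := ℂ) (fun f : Fin n → Fin n => gE d (∏ i, wick_l (v (f i))))
  have h4 := wick_incl (R := ℝ)
    (fun f : Fin n → Fin n => ∏ j : Fin (n / 2), v (f (lo2 j)) ⬝ᵥ v (f (hi2 j)))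
  rw [← h4]
  have h5 : ∀ T : Finset (Fin n), ∑ f ∈ Fintype.piFinset (fun _ : Fin n => Tᶜ),
      gE d (∏ i, wick_l (v (f i))) = ((mu n *
        ∑ f ∈ Fintype.piFinset (fun _ : Fin n => Tᶜ),
          ∏ j : Fin (n / 2), v (f (lo2 j)) ⬝ᵥ v (f (hi2 j)) : ℝ) : ℂ) := by
    intro T
    rw [← map_sum, ← Finset.prod_univ_sum (fun _ : Fin n => Tᶜ) (fun _ k => wick_l (v k)),
      Finset.prod_const, Finset.card_univ, Fintype.card_fin, wick_l_sum,
      wick_pairs hn Tᶜ (fun k l => v k ⬝ᵥ v l)]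
    have h6 : (∑ k ∈ Tᶜ, v k) ⬝ᵥ (∑ k ∈ Tᶜ, v k) = ∑ k ∈ Tᶜ, ∑ l ∈ Tᶜ, v k ⬝ᵥ v l := by
      rw [sum_dotProduct]
      refine Finset.sum_congr rfl fun k _ => ?_
      rw [dotProduct_sum]
    rw [← h6]
    have h7 := wick_pow (∑ k ∈ Tᶜ, v k) (n / 2)
    rw [← hev] at h7
    exact h7
  have h8 : ((n.factorial : ℝ) : ℂ) * gE d (∏ k, wick_l (v k)) =
      ((mu n * ∑ T : Finset (Fin n), (-1 : ℝ) ^ T.card *
        ∑ f ∈ Fintype.piFinset (fun _ : Fin n => Tᶜ),
          ∏ j : Fin (n / 2), v (f (lo2 j)) ⬝ᵥ v (f (hi2 j)) : ℝ) : ℂ) := by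
    rw [h2, ← h3, Finset.sum_congr rfl fun T _ => by rw [h5 T]]
    push_cast
    rw [Finset.mul_sum]
    refine Finset.sum_congr rfl fun T _ => ?_
    ring
  have h9 : (n.factorial : ℝ) = mu n * (2 ^ (n / 2) * (n / 2).factorial) := by
    have := wick_mu (n / 2)
    rw [← hev] at this
    exact this
  have h10 : mu n ≠ 0 := by
    intro h0
    rw [h0, zero_mul] at h9
    have : (n.factorial : ℝ) ≠ 0 := by exact_mod_cast Nat.factorial_ne_zero n
    exact this h9
  have h11 : ((mu n : ℝ) : ℂ) ≠ 0 := by exact_mod_cast h10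
  apply mul_left_cancel₀ h11
  rw [h9] at h8
  rw [← Complex.ofReal_mul, ← h8]
  push_cast
  ring

private theorem wick_integrable {d : ℕ} {κ : Type*} [Fintype κ] (v : κ → Fin d → ℝ) :
    Integrable (fun η : Fin d → ℝ => (∏ k, v k ⬝ᵥ η) * gdens (1 : Matrix (Fin d) (Fin d) ℝ) η) := by
  have h := (integrable_eval_gdens (∏ k, wick_l (v k))).re
  refine h.congr (Filter.Eventually.of_forall fun x => ?_)
  show RCLike.re _ = _
  rw [wick_eval, ← Complex.ofReal_mul]
  exact Complex.ofReal_re _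

theorem gauss_wick {d n : ℕ} (hn : Even n) (v : Fin n → Fin d → ℝ) :
    ((2 ^ (n / 2) * (n / 2).factorial : ℕ) : ℝ) * ∫ η : Fin d → ℝ, (∏ k, v k ⬝ᵥ η) *
      gdens (1 : Matrix (Fin d) (Fin d) ℝ) η =
    ∑ τ : Equiv.Perm (Fin n), ∏ j : Fin (n / 2), v (τ (lo2 j)) ⬝ᵥ v (τ (hi2 j)) := by
  have h := wick_gE hn v
  rw [gE_eq_integral] at h
  have h1 : ∫ x : Fin d → ℝ, MvPolynomial.eval (fun i => (x i : ℂ)) (∏ k, wick_l (v k)) *
      ((gdens (1 : Matrix (Fin d) (Fin d) ℝ) x : ℝ) : ℂ) =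
      ((∫ η : Fin d → ℝ, (∏ k, v k ⬝ᵥ η) * gdens (1 : Matrix (Fin d) (Fin d) ℝ) η : ℝ) : ℂ) := by
    rw [← integral_complex_ofReal]
    congr 1
    funext x
    rw [wick_eval, Complex.ofReal_mul]
  rw [h1, ← Complex.ofReal_mul] at h
  exact Complex.ofReal_injective h

theorem jj_eq {n : ℕ} (hn : Even n) (Y : Fin n → Matrix (Fin n) (Fin n) ℝ)
    (hY : ∀ i, (Y i)ᵀ = Y i) :
    ((2 ^ (n / 2) * (n / 2).factorial : ℕ) : ℝ) * JJ Y =
    ∑ τ : Equiv.Perm (Fin n), ((Equiv.Perm.sign τ : ℤ) : ℝ) *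
      ∑ σ : Equiv.Perm (Fin n), ((Equiv.Perm.sign σ : ℤ) : ℝ) *
        ∏ j : Fin (n / 2), (Y (τ (lo2 j)) * Y (τ (hi2 j))) (σ (lo2 j)) (σ (hi2 j)) := by
  have h1 : JJ Y = ∑ σ : Equiv.Perm (Fin n), ((Equiv.Perm.sign σ : ℤ) : ℝ) *
      ∫ η : Fin n → ℝ, (∏ i, (Y i (σ i)) ⬝ᵥ η) * gdens (1 : Matrix (Fin n) (Fin n) ℝ) η := by
    unfold JJ
    have h2 : ∀ η : Fin n → ℝ, Matrix.det (Matrix.of fun i => Y i *ᵥ η) *
        gdens (1 : Matrix (Fin n) (Fin n) ℝ) η =
        ∑ σ : Equiv.Perm (Fin n), ((Equiv.Perm.sign σ : ℤ) : ℝ) *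
          ((∏ i, (Y i (σ i)) ⬝ᵥ η) * gdens (1 : Matrix (Fin n) (Fin n) ℝ) η) := by
      intro η
      rw [← Matrix.det_transpose, Matrix.det_apply', Finset.sum_mul]
      refine Finset.sum_congr rfl fun σ _ => ?_
      rw [mul_assoc]
      rfl
    rw [integral_congr_ae (Filter.Eventually.of_forall h2), integral_finsetSum]
    · refine Finset.sum_congr rfl fun σ _ => ?_
      rw [integral_const_mul]
    · intro σ _
      exact (wick_integrable (fun i => Y i (σ i))).const_mul _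
  have h3 : ∀ σ : Equiv.Perm (Fin n), ((2 ^ (n / 2) * (n / 2).factorial : ℕ) : ℝ) *
      (((Equiv.Perm.sign σ : ℤ) : ℝ) *
        ∫ η : Fin n → ℝ, (∏ i, (Y i (σ i)) ⬝ᵥ η) * gdens (1 : Matrix (Fin n) (Fin n) ℝ) η) =
      ∑ τ : Equiv.Perm (Fin n), ((Equiv.Perm.sign σ : ℤ) : ℝ) *
        ∏ j : Fin (n / 2), (Y (τ (lo2 j)) * Y (τ (hi2 j))) (σ (τ (lo2 j))) (σ (τ (hi2 j))) := by
    intro σ
    rw [mul_left_comm, gauss_wick hn (fun i => Y i (σ i)), Finset.mul_sum]
    refine Finset.sum_congr rfl fun τ _ => ?_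
    congr 1
    refine Finset.prod_congr rfl fun j _ => ?_
    rw [Matrix.mul_apply, dotProduct]
    refine Finset.sum_congr rfl fun l _ => ?_
    have h4 : Y (τ (hi2 j)) l (σ (τ (hi2 j))) = Y (τ (hi2 j)) (σ (τ (hi2 j))) l := by
      conv_lhs => rw [← hY (τ (hi2 j))]
      rfl
    rw [h4]
  rw [h1, Finset.mul_sum, Finset.sum_congr rfl fun σ _ => h3 σ, Finset.sum_comm]
  refine Finset.sum_congr rfl fun τ _ => ?_
  rw [Finset.mul_sum]
  refine Fintype.sum_equiv (Equiv.mulRight τ) _ _ fun σ => ?_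
  rw [Equiv.coe_mulRight, Equiv.Perm.sign_mul]
  have h5 : ((Equiv.Perm.sign τ : ℤ) : ℝ) * (((Equiv.Perm.sign σ * Equiv.Perm.sign τ : ℤˣ) : ℤ) : ℝ) =
      ((Equiv.Perm.sign σ : ℤ) : ℝ) := by
    rw [Units.val_mul, Int.cast_mul, mul_comm, mul_assoc, ← Int.cast_mul, ← Units.val_mul,
      Int.units_mul_self, Units.val_one, Int.cast_one, mul_one]
  rw [← mul_assoc, h5]
  rfl

theorem jj_odd {n : ℕ} (hn : Odd n) (Y : Fin n → Matrix (Fin n) (Fin n) ℝ) : JJ Y = 0 := by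
  have h1 : JJ Y = -JJ Y := by
    unfold JJ
    conv_lhs => rw [← integral_neg_eq_self]
    rw [← integral_neg]
    congr 1
    funext η
    rw [gdens_neg]
    have h2 : (Matrix.of fun i => Y i *ᵥ (-η)) = -(Matrix.of fun i => Y i *ᵥ η) := by
      ext i j
      simp [Matrix.mulVec_neg]
    rw [h2, Matrix.det_neg, Fintype.card_fin, hn.neg_one_pow]
    ring
  linarith

end Pool.Agent.ChN
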