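import Pool.Agent.ChN.Inv
import Pool.Agent.ChN.Wick
import Pool.Agent.ChN.Grass

/-!
# Vanishing of `JJ` on Lie algebras of symmetric matrices coming from smaller ones

`n` odd: `jj_odd`.  `n` even: apply `exists_coeff` to the polynomial `F` with
`F X = pf (L X) = pf (∑ p, X p • L (E p))`, `E p` the matrix units (invariance: `hinv`, `pf_conj`).
Take `C, ω, top` from `exists_grassmann` and `P l = curv ω (fun i => A i l)`: antisymmetric (the
`A i l` are symmetric and `ω j i = - ω i j`), traces of powers zero.  The extension `L_C` of `L` to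
matrices over `C` satisfies `L_C P = curv ω Y`, because both are `1/2 ∑ i j` of the commutators
times `ω i j` and `hL`.  Replace `P l` by `u^2 P l` for `l ∈ I₀`, `u : ℝ`: by `hsc`, `pf_conj`, `pf_smul`
`u^d pf (curv ω Y) = ∑ J, c J u^(∑ i ∈ J ∩ I₀, a i) ∏ i ∈ J, pf (P i)`.  Apply `top`, compare the
coefficients of `u^d` (`hd`): `top (pf (curv ω Y)) = 0`.  Expanding `pf (curv ω Y)` into a sum over
all functions `f : Fin n → Fin n` (`i = f (lo2 j)`, `i' = f (hi2 j)`) this is the right hand side of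
`jj_eq`.
-/

namespace Pool.Agent.ChN

open Matrix MvPolynomial Pool.Agent.ChP Pool.Agent.ChM

private theorem key_prod_sum {n : ℕ} (hn : Even n) {C : Type*} [CommSemiring C]
    (g : Fin (n / 2) → Fin n → Fin n → C) :
    ∏ j, ∑ i, ∑ i', g j i i' = ∑ f : Fin n → Fin n, ∏ j, g j (f (lo2 j)) (f (hi2 j)) := by
  classical
  have hlt : ∀ i : Fin n, (i : ℕ) / 2 < n / 2 := by
    intro i
    obtain ⟨m, hm⟩ := hn
    have := i.isLt
    omega
  have h1 : ∀ j, ∑ i, ∑ i', g j i i' = ∑ x : Fin n × Fin n, g j x.1 x.2 :=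
    fun j => (Fintype.sum_prod_type' _).symm
  simp_rw [h1]
  rw [Finset.prod_univ_sum, Fintype.piFinset_univ]
  symm
  refine Fintype.sum_bijective (fun f j => (f (lo2 j), f (hi2 j))) ⟨?_, ?_⟩ _ _ (fun f => rfl)
  · intro f f' h
    funext i
    have h2 := congrFun h ⟨(i : ℕ) / 2, hlt i⟩
    simp only [Prod.mk.injEq] at h2
    rcases Nat.mod_two_eq_zero_or_one (i : ℕ) with h3 | h3
    · have h4 : i = lo2 ⟨(i : ℕ) / 2, hlt i⟩ := by
        apply Fin.ext
        simp only [lo2]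
        omega
      rw [h4]
      exact h2.1
    · have h4 : i = hi2 ⟨(i : ℕ) / 2, hlt i⟩ := by
        apply Fin.ext
        simp only [hi2]
        omega
      rw [h4]
      exact h2.2
  · intro G
    refine ⟨fun i => if (i : ℕ) % 2 = 0 then (G ⟨(i : ℕ) / 2, hlt i⟩).1
      else (G ⟨(i : ℕ) / 2, hlt i⟩).2, ?_⟩
    funext j
    have h5 : (⟨(lo2 j : ℕ) / 2, hlt (lo2 j)⟩ : Fin (n / 2)) = j := by
      apply Fin.ext
      simp only [lo2]
      omega
    have h6 : (⟨(hi2 j : ℕ) / 2, hlt (hi2 j)⟩ : Fin (n / 2)) = j := by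
      apply Fin.ext
      simp only [hi2]
      omega
    have h7 : (lo2 j : ℕ) % 2 = 0 := by
      simp only [lo2]
      omega
    have h8 : (hi2 j : ℕ) % 2 ≠ 0 := by
      simp only [hi2]
      omega
    apply Prod.ext
    · simp only [h7, if_true, h5]
    · simp only [h8, if_false, h6]

/-- twice the curvature matrix -/
private theorem key_curv2 {n : ℕ} {C : Type*} [CommRing C] [Algebra ℝ C] (ω : Fin n → Fin n → C)
    (hω : ∀ i j, ω j i = -ω i j) {ι : Type*} [Fintype ι] (Y : Fin n → Matrix ι ι ℝ) (p q : ι) :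
    (2 : ℝ) • curv ω Y p q = ∑ i, ∑ j, (Y i * Y j - Y j * Y i) p q • ω i j := by
  have h1 : curv ω Y p q = ∑ i, ∑ j, (Y i * Y j) p q • ω i j := by
    unfold curv
    simp only [Matrix.sum_apply, Matrix.map_apply]
  have h2 : curv ω Y p q = -∑ i, ∑ j, (Y j * Y i) p q • ω i j := by
    rw [h1, Finset.sum_comm, ← Finset.sum_neg_distrib]
    refine Finset.sum_congr rfl fun i _ => ?_
    rw [← Finset.sum_neg_distrib]
    refine Finset.sum_congr rfl fun j _ => ?_
    rw [hω i j, smul_neg]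
  have h3 : (2 : ℝ) • curv ω Y p q = curv ω Y p q + curv ω Y p q := two_smul _ _
  rw [h3]
  conv_lhs => rw [h1]
  rw [show (∑ i, ∑ j, (Y i * Y j) p q • ω i j) + (∑ i, ∑ j, (Y i * Y j) p q • ω i j) =
    (∑ i, ∑ j, (Y i * Y j) p q • ω i j) + curv ω Y p q by rw [h1], h2, ← sub_eq_add_neg,
    ← Finset.sum_sub_distrib]
  refine Finset.sum_congr rfl fun i _ => ?_
  rw [← Finset.sum_sub_distrib]
  refine Finset.sum_congr rfl fun j _ => ?_
  rw [Matrix.sub_apply, sub_smul]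

private theorem key_curv_anti {n : ℕ} {C : Type*} [CommRing C] [Algebra ℝ C]
    (ω : Fin n → Fin n → C)
    (hω : ∀ i j, ω j i = -ω i j) {ι : Type*} [Fintype ι] (Y : Fin n → Matrix ι ι ℝ)
    (hY : ∀ i, (Y i)ᵀ = Y i) : (curv ω Y)ᵀ = -curv ω Y := by
  ext p q
  rw [Matrix.transpose_apply, Matrix.neg_apply]
  have h1 : ∀ p q, curv ω Y p q = ∑ i, ∑ j, (Y i * Y j) p q • ω i j := by
    intro p q
    unfold curv
    simp only [Matrix.sum_apply, Matrix.map_apply]
  rw [h1, h1, Finset.sum_comm, ← Finset.sum_neg_distrib]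
  refine Finset.sum_congr rfl fun i _ => ?_
  rw [← Finset.sum_neg_distrib]
  refine Finset.sum_congr rfl fun j _ => ?_
  rw [hω i j, smul_neg]
  congr 2
  have h2 : (Y i * Y j)ᵀ = Y j * Y i := by rw [Matrix.transpose_mul, hY, hY]
  have h3 := congrFun (congrFun h2 q) p
  rw [Matrix.transpose_apply] at h3
  rw [h3]

section

variable {n : ℕ} {I : Type} [Fintype I] [DecidableEq I] {a : I → ℕ}

/-- matrix units -/
private def keyE (p : Σ l : I, Fin (a l) × Fin (a l)) : ∀ l : I, Matrix (Fin (a l)) (Fin (a l)) ℝ :=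
  fun l i j => if (⟨l, (i, j)⟩ : Σ l : I, Fin (a l) × Fin (a l)) = p then 1 else 0

private noncomputable def keyL
    (L : (∀ l : I, Matrix (Fin (a l)) (Fin (a l)) ℝ) →ₗ[ℝ] Matrix (Fin n) (Fin n) ℝ)
    {C : Type*} [CommRing C] [Algebra ℝ C] (x : (Σ l : I, Fin (a l) × Fin (a l)) → C) :
    Matrix (Fin n) (Fin n) C :=
  ∑ p, x p • (L (keyE p)).map (algebraMap ℝ C)

private theorem key_units (X : ∀ l : I, Matrix (Fin (a l)) (Fin (a l)) ℝ) :
    X = ∑ p : (Σ l : I, Fin (a l) × Fin (a l)), X p.1 p.2.1 p.2.2 • keyE p := by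
  funext l
  ext i j
  rw [Finset.sum_apply, Matrix.sum_apply, Finset.sum_eq_single
    (⟨l, (i, j)⟩ : Σ l : I, Fin (a l) × Fin (a l))]
  · simp [keyE]
  · intro b _ hb
    simp only [Pi.smul_apply, Matrix.smul_apply, keyE, smul_eq_mul]
    rw [if_neg (fun h => hb h.symm), mul_zero]
  · intro h
    exact absurd (Finset.mem_univ _) h

private theorem key_apply
    (L : (∀ l : I, Matrix (Fin (a l)) (Fin (a l)) ℝ) →ₗ[ℝ] Matrix (Fin n) (Fin n) ℝ)
    (X : ∀ l : I, Matrix (Fin (a l)) (Fin (a l)) ℝ) :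
    L X = ∑ p : (Σ l : I, Fin (a l) × Fin (a l)), X p.1 p.2.1 p.2.2 • L (keyE p) := by
  conv_lhs => rw [key_units X, map_sum]
  refine Finset.sum_congr rfl fun p _ => ?_
  rw [map_smul]

private theorem key_real
    (L : (∀ l : I, Matrix (Fin (a l)) (Fin (a l)) ℝ) →ₗ[ℝ] Matrix (Fin n) (Fin n) ℝ)
    (X : ∀ l : I, Matrix (Fin (a l)) (Fin (a l)) ℝ) :
    keyL L (fun p => X p.1 p.2.1 p.2.2) = L X := by
  rw [key_apply L X]
  unfold keyL
  refine Finset.sum_congr rfl fun p _ => ?_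
  congr 1

private theorem key_map
    (L : (∀ l : I, Matrix (Fin (a l)) (Fin (a l)) ℝ) →ₗ[ℝ] Matrix (Fin n) (Fin n) ℝ)
    {C C' : Type*} [CommRing C] [Algebra ℝ C] [CommRing C'] [Algebra ℝ C'] (φ : C →ₐ[ℝ] C')
    (x : (Σ l : I, Fin (a l) × Fin (a l)) → C) :
    (keyL L x).map φ = keyL L fun p => φ (x p) := by
  ext r s
  unfold keyL
  simp only [Matrix.map_apply, Matrix.sum_apply, Matrix.smul_apply, smul_eq_mul]
  rw [map_sum]
  refine Finset.sum_congr rfl fun p _ => ?_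
  rw [map_mul]
  congr 1
  exact φ.commutes _

private theorem key_smul
    (L : (∀ l : I, Matrix (Fin (a l)) (Fin (a l)) ℝ) →ₗ[ℝ] Matrix (Fin n) (Fin n) ℝ)
    {C : Type*} [CommRing C] [Algebra ℝ C] (X : ∀ l : I, Matrix (Fin (a l)) (Fin (a l)) ℝ)
    (w : C) (r s : Fin n) :
    keyL L (fun p => X p.1 p.2.1 p.2.2 • w) r s = L X r s • w := by
  rw [key_apply L X]
  unfold keyL
  simp only [Matrix.map_apply, Matrix.sum_apply, Matrix.smul_apply, smul_eq_mul]
  rw [Finset.sum_smul]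
  refine Finset.sum_congr rfl fun p _ => ?_
  rw [Algebra.smul_def, Algebra.smul_def, map_mul]
  ring

private theorem key_add
    (L : (∀ l : I, Matrix (Fin (a l)) (Fin (a l)) ℝ) →ₗ[ℝ] Matrix (Fin n) (Fin n) ℝ)
    {C : Type*} [CommRing C] [Algebra ℝ C] {κ : Type*} (S : Finset κ)
    (x : κ → (Σ l : I, Fin (a l) × Fin (a l)) → C) (r s : Fin n) :
    keyL L (fun p => ∑ i ∈ S, x i p) r s = ∑ i ∈ S, keyL L (x i) r s := by
  unfold keyL
  simp only [Matrix.map_apply, Matrix.sum_apply, Matrix.smul_apply, smul_eq_mul, Finset.sum_mul]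
  rw [Finset.sum_comm]

private theorem key_rsmul
    (L : (∀ l : I, Matrix (Fin (a l)) (Fin (a l)) ℝ) →ₗ[ℝ] Matrix (Fin n) (Fin n) ℝ)
    {C : Type*} [CommRing C] [Algebra ℝ C]
    (x : (Σ l : I, Fin (a l) × Fin (a l)) → C) (t : ℝ) (r s : Fin n) :
    keyL L (fun p => t • x p) r s = t • keyL L x r s := by
  unfold keyL
  simp only [Matrix.map_apply, Matrix.sum_apply, Matrix.smul_apply, smul_eq_mul]
  rw [Finset.smul_sum]
  refine Finset.sum_congr rfl fun p _ => ?_
  rw [smul_mul_assoc]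

/-- the extension of `L` maps the curvature to the curvature -/
private theorem key_curv {C : Type*} [CommRing C] [Algebra ℝ C] (ω : Fin n → Fin n → C)
    (hω : ∀ i j, ω j i = -ω i j)
    (Y : Fin n → Matrix (Fin n) (Fin n) ℝ)
    (A : Fin n → ∀ l : I, Matrix (Fin (a l)) (Fin (a l)) ℝ)
    (L : (∀ l : I, Matrix (Fin (a l)) (Fin (a l)) ℝ) →ₗ[ℝ] Matrix (Fin n) (Fin n) ℝ)
    (hL : ∀ i j, Y i * Y j - Y j * Y i = L fun l => A i l * A j l - A j l * A i l) :
    keyL L (fun p => curv ω (fun i => A i p.1) p.2.1 p.2.2) = curv ω Y := by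
  ext r s
  have h1 : (2 : ℝ) • keyL L (fun p => curv ω (fun i => A i p.1) p.2.1 p.2.2) r s =
      (2 : ℝ) • curv ω Y r s := by
    rw [← key_rsmul, key_curv2 ω hω]
    have h2 : (fun p : (Σ l : I, Fin (a l) × Fin (a l)) =>
        (2 : ℝ) • curv ω (fun i => A i p.1) p.2.1 p.2.2) = fun p =>
        ∑ i, ∑ j, (A i p.1 * A j p.1 - A j p.1 * A i p.1) p.2.1 p.2.2 • ω i j := by
      funext p
      exact key_curv2 ω hω _ _ _
    rw [h2, key_add]
    refine Finset.sum_congr rfl fun i _ => ?_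
    rw [key_add]
    refine Finset.sum_congr rfl fun j _ => ?_
    rw [hL i j]
    exact key_smul L (fun l => A i l * A j l - A j l * A i l) (ω i j) r s
  have h3 := congrArg (fun z => (2 : ℝ)⁻¹ • z) h1
  simpa [smul_smul] using h3

private theorem key_scale
    (L : (∀ l : I, Matrix (Fin (a l)) (Fin (a l)) ℝ) →ₗ[ℝ] Matrix (Fin n) (Fin n) ℝ)
    (I₀ : Finset I) (u : ℝ) (D : Matrix (Fin n) (Fin n) ℝ)
    (hD : ∀ X, L (fun l => if l ∈ I₀ then u ^ 2 • X l else X l) = D * L X * Dᵀ)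
    {C : Type*} [CommRing C] [Algebra ℝ C]
    (x : (Σ l : I, Fin (a l) × Fin (a l)) → C) :
    keyL L (fun p => if p.1 ∈ I₀ then u ^ 2 • x p else x p) =
      D.map (algebraMap ℝ C) * keyL L x * (D.map (algebraMap ℝ C))ᵀ := by
  unfold keyL
  rw [Matrix.mul_sum, Matrix.sum_mul]
  refine Finset.sum_congr rfl fun p _ => ?_
  have h1 : L (fun l => if l ∈ I₀ then u ^ 2 • keyE p l else keyE p l) =
      (if p.1 ∈ I₀ then u ^ 2 else 1) • L (keyE p) := by
    rw [← map_smul]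
    congr 1
    funext l
    by_cases hl : l = p.1
    · subst hl
      by_cases h2 : p.1 ∈ I₀
      · simp [h2]
      · simp [h2]
    · have h2 : keyE p l = 0 := by
        ext i j
        simp only [keyE, Matrix.zero_apply]
        rw [if_neg]
        intro h3
        apply hl
        rw [← h3]
      simp [h2]
  rw [hD] at h1
  rw [Matrix.mul_smul, Matrix.smul_mul, ← Matrix.map_mul, ← Matrix.transpose_map, ← Matrix.map_mul,
    h1]
  by_cases h2 : p.1 ∈ I₀
  · simp only [h2, if_true]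
    ext r s
    rw [Matrix.smul_apply, Matrix.smul_apply, Matrix.map_apply, Matrix.map_apply,
      Matrix.smul_apply, smul_eq_mul, smul_eq_mul, smul_eq_mul, map_mul, Algebra.smul_def]
    ring
  · simp only [h2, if_false, one_smul]

end

private theorem key_aeval {σ : Type*} {C : Type*} [CommRing C] [Algebra ℝ C] {n : ℕ} (x : σ → C)
    (M : Matrix (Fin n) (Fin n) (MvPolynomial σ ℝ)) :
    aeval x (pf M) = pf (M.map (aeval x : MvPolynomial σ ℝ →ₐ[ℝ] C)) :=
  (pf_map ((aeval x : MvPolynomial σ ℝ →ₐ[ℝ] C) : MvPolynomial σ ℝ →+* C) M).symm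

/-- comparison of coefficients -/
private theorem key_coeff {κ : Type*} (S : Finset κ) (b : κ → ℝ) (e : κ → ℕ) (d : ℕ) (t : ℝ)
    (h : ∀ u : ℝ, u ^ d * t = ∑ J ∈ S, b J * u ^ e J) (he : ∀ J ∈ S, b J ≠ 0 → e J ≠ d) :
    t = 0 := by
  have h1 : (Polynomial.C t * Polynomial.X ^ d : Polynomial ℝ) =
      ∑ J ∈ S, Polynomial.C (b J) * Polynomial.X ^ e J := by
    apply Polynomial.funext
    intro u
    rw [Polynomial.eval_finsetSum]
    simp only [Polynomial.eval_mul, Polynomial.eval_C, Polynomial.eval_pow, Polynomial.eval_X]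
    rw [← h u]
    ring
  have h2 := congrArg (fun q : Polynomial ℝ => q.coeff d) h1
  simp only [Polynomial.finsetSum_coeff, Polynomial.coeff_C_mul, Polynomial.coeff_X_pow,
    if_true, mul_one] at h2
  rw [h2]
  apply Finset.sum_eq_zero
  intro J hJ
  by_cases h3 : b J = 0
  · rw [h3, zero_mul]
  · rw [if_neg (fun h4 => he J hJ h3 h4.symm), mul_zero]

/-- the top component of the Pfaffian of the curvature -/
private theorem key_top {n : ℕ} (hn : Even n) {C : Type} [CommRing C] [Algebra ℝ C]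
    (ω : Fin n → Fin n → C) (top : C →ₗ[ℝ] ℝ)
    (h1 : ∀ f : Fin n → Fin n, ¬ Function.Injective f →
      top (∏ j : Fin (n / 2), ω (f (lo2 j)) (f (hi2 j))) = 0)
    (h2 : ∀ f : Equiv.Perm (Fin n),
      top (∏ j : Fin (n / 2), ω (f (lo2 j)) (f (hi2 j))) = ((Equiv.Perm.sign f : ℤ) : ℝ))
    (Y : Fin n → Matrix (Fin n) (Fin n) ℝ) :
    top (pf (curv ω Y)) = ∑ τ : Equiv.Perm (Fin n), ((Equiv.Perm.sign τ : ℤ) : ℝ) *
      ∑ σ : Equiv.Perm (Fin n), ((Equiv.Perm.sign σ : ℤ) : ℝ) *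
        ∏ j : Fin (n / 2), (Y (τ (lo2 j)) * Y (τ (hi2 j))) (σ (lo2 j)) (σ (hi2 j)) := by
  classical
  have h3 : ∀ σ : Equiv.Perm (Fin n), top (((Equiv.Perm.sign σ : ℤ) : C) *
      ∏ j : Fin (n / 2), curv ω Y (σ (lo2 j)) (σ (hi2 j))) =
      ∑ τ : Equiv.Perm (Fin n), ((Equiv.Perm.sign τ : ℤ) : ℝ) *
      (((Equiv.Perm.sign σ : ℤ) : ℝ) *
        ∏ j : Fin (n / 2), (Y (τ (lo2 j)) * Y (τ (hi2 j))) (σ (lo2 j)) (σ (hi2 j))) := by
    intro σ
    have h4 : ∀ j : Fin (n / 2), curv ω Y (σ (lo2 j)) (σ (hi2 j)) =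
        ∑ i, ∑ i', (Y i * Y i') (σ (lo2 j)) (σ (hi2 j)) • ω i i' := by
      intro j
      unfold curv
      simp only [Matrix.sum_apply, Matrix.map_apply]
    have h5 : (((Equiv.Perm.sign σ : ℤ) : C)) = algebraMap ℝ C ((Equiv.Perm.sign σ : ℤ) : ℝ) := by
      rw [map_intCast]
    simp_rw [h4]
    rw [key_prod_sum hn, h5, ← Algebra.smul_def, map_smul, map_sum, smul_eq_mul, Finset.mul_sum]
    have h6 : ∀ f : Fin n → Fin n, ((Equiv.Perm.sign σ : ℤ) : ℝ) * top (∏ j : Fin (n / 2),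
        (Y (f (lo2 j)) * Y (f (hi2 j))) (σ (lo2 j)) (σ (hi2 j)) • ω (f (lo2 j)) (f (hi2 j))) =
        top (∏ j : Fin (n / 2), ω (f (lo2 j)) (f (hi2 j))) * (((Equiv.Perm.sign σ : ℤ) : ℝ) *
        ∏ j : Fin (n / 2), (Y (f (lo2 j)) * Y (f (hi2 j))) (σ (lo2 j)) (σ (hi2 j))) := by
      intro f
      rw [Finset.prod_smul, map_smul, smul_eq_mul]
      ring
    simp_rw [h6]
    symm
    have h7 : ∀ τ : Equiv.Perm (Fin n), ((Equiv.Perm.sign τ : ℤ) : ℝ) *
      (((Equiv.Perm.sign σ : ℤ) : ℝ) *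
        ∏ j : Fin (n / 2), (Y (τ (lo2 j)) * Y (τ (hi2 j))) (σ (lo2 j)) (σ (hi2 j))) =
        (fun f : Fin n → Fin n => top (∏ j : Fin (n / 2), ω (f (lo2 j)) (f (hi2 j))) *
        (((Equiv.Perm.sign σ : ℤ) : ℝ) *
        ∏ j : Fin (n / 2), (Y (f (lo2 j)) * Y (f (hi2 j))) (σ (lo2 j)) (σ (hi2 j)))) τ := by
      intro τ
      show _ = top (∏ j : Fin (n / 2), ω (τ (lo2 j)) (τ (hi2 j))) * _
      rw [h2 τ]
    rw [Finset.sum_congr rfl fun τ _ => h7 τ]
    have hinj : Function.Injective (fun τ : Equiv.Perm (Fin n) => (τ : Fin n → Fin n)) :=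
      DFunLike.coe_injective
    rw [← Finset.sum_image (f := fun f : Fin n → Fin n =>
        top (∏ j : Fin (n / 2), ω (f (lo2 j)) (f (hi2 j))) *
        (((Equiv.Perm.sign σ : ℤ) : ℝ) *
        ∏ j : Fin (n / 2), (Y (f (lo2 j)) * Y (f (hi2 j))) (σ (lo2 j)) (σ (hi2 j))))
      (g := fun τ : Equiv.Perm (Fin n) => (τ : Fin n → Fin n)) (hinj.injOn)]
    apply Finset.sum_subset (Finset.subset_univ _)
    intro f _ hf
    rw [h1 f, zero_mul]
    intro hf1
    apply hf
    rw [Finset.mem_image]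
    exact ⟨Equiv.ofBijective f (Finite.injective_iff_bijective.1 hf1), Finset.mem_univ _, rfl⟩
  unfold pf
  rw [map_sum, Finset.sum_congr rfl fun σ _ => h3 σ, Finset.sum_comm]
  refine Finset.sum_congr rfl fun τ _ => ?_
  rw [Finset.mul_sum]

theorem jj_key {n : ℕ} {I : Type} [Fintype I] [DecidableEq I] (a : I → ℕ)
    (Y : Fin n → Matrix (Fin n) (Fin n) ℝ) (hY : ∀ i, (Y i)ᵀ = Y i)
    (A : Fin n → ∀ l : I, Matrix (Fin (a l)) (Fin (a l)) ℝ) (hA : ∀ i l, (A i l)ᵀ = A i l)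
    (L : (∀ l : I, Matrix (Fin (a l)) (Fin (a l)) ℝ) →ₗ[ℝ] Matrix (Fin n) (Fin n) ℝ)
    (hL : ∀ i j, Y i * Y j - Y j * Y i = L fun l => A i l * A j l - A j l * A i l)
    (hinv : ∀ O : ∀ l : I, Matrix (Fin (a l)) (Fin (a l)) ℝ, (∀ l, O l * (O l)ᵀ = 1) →
      (∀ l, (O l).det = 1) → ∃ R : Matrix (Fin n) (Fin n) ℝ, R.det = 1 ∧
        ∀ X, L (fun l => O l * X l * (O l)ᵀ) = R * L X * Rᵀ)
    (I₀ : Finset I) (d : ℕ) (hd : ∀ J ⊆ I₀, (∀ i ∈ J, Even (a i)) → ∑ i ∈ J, a i ≠ d)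
    (hsc : ∀ u : ℝ, ∃ D : Matrix (Fin n) (Fin n) ℝ, D.det = u ^ d ∧
      ∀ X, L (fun l => if l ∈ I₀ then u ^ 2 • X l else X l) = D * L X * Dᵀ) :
    JJ Y = 0 := by
  classical
  by_cases hn : Even n
  swap
  · exact jj_odd (Nat.not_even_iff_odd.1 hn) Y
  obtain ⟨c, hc, hcP⟩ := exists_coeff a (pf (keyL L (C := MvPolynomial _ ℝ) fun p => X p)) (by
    intro O X hO hO1 _
    obtain ⟨R, hR, hRX⟩ := hinv O hO hO1
    have h1 : ∀ X : ∀ i, Matrix (Fin (a i)) (Fin (a i)) ℝ,
        eval (fun p : (Σ l : I, Fin (a l) × Fin (a l)) => X p.1 p.2.1 p.2.2)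
          (pf (keyL L (C := MvPolynomial _ ℝ) fun p => MvPolynomial.X p)) = pf (L X) := by
      intro X
      rw [← MvPolynomial.coe_aeval_eq_eval]
      refine (key_aeval _ _).trans ?_
      rw [key_map]
      congr 1
      rw [← key_real L X]
      congr 1
      funext p
      exact aeval_X _ _
    rw [h1 X, h1 fun l => O l * X l * (O l)ᵀ, hRX, pf_conj hn, hR, one_mul])
  obtain ⟨C, iC, iA, ω, top, hω, htr, ht0, ht1⟩ := exists_grassmann n
  have hanti : ∀ l, (curv ω fun i => A i l)ᵀ = -(curv ω fun i => A i l) :=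
    fun l => key_curv_anti ω hω _ fun i => hA i l
  have hkey : ∀ u : ℝ, u ^ d * top (pf (curv ω Y)) =
      ∑ J : Finset I, (c J * top (∏ i ∈ J, pf (curv ω fun i' => A i' i))) *
        u ^ (∑ i ∈ J ∩ I₀, a i) := by
    intro u
    obtain ⟨D, hDd, hD⟩ := hsc u
    set P : ∀ l : I, Matrix (Fin (a l)) (Fin (a l)) C := fun l =>
      if l ∈ I₀ then (algebraMap ℝ C (u ^ 2)) • curv ω (fun i => A i l)
        else curv ω fun i => A i l with hP
    have hP1 : ∀ i, (P i)ᵀ = -P i := by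
      intro i
      simp only [hP]
      by_cases h1 : i ∈ I₀
      · simp only [h1, if_true, Matrix.transpose_smul, hanti, smul_neg]
      · simp only [h1, if_false, hanti]
    have hP2 : ∀ i k, 0 < k → ((P i) ^ k).trace = 0 := by
      intro i k hk
      simp only [hP]
      by_cases h1 : i ∈ I₀
      · simp only [h1, if_true]
        rw [smul_pow, Matrix.trace_smul, htr _ _ k hk, smul_zero]
      · simp only [h1, if_false]
        exact htr _ _ k hk
    have h1 := hcP C P hP1 hP2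
    have h2 : aeval (fun p : (Σ i, Fin (a i) × Fin (a i)) => P p.1 p.2.1 p.2.2)
        (pf (keyL L (C := MvPolynomial _ ℝ) fun p => X p)) =
        algebraMap ℝ C (u ^ d) * pf (curv ω Y) := by
      rw [key_aeval, key_map]
      have h3 : (fun p : (Σ l : I, Fin (a l) × Fin (a l)) =>
          (aeval (fun p : (Σ l : I, Fin (a l) × Fin (a l)) => P p.1 p.2.1 p.2.2))
            (X p : MvPolynomial _ ℝ)) =
          fun p => if p.1 ∈ I₀ then u ^ 2 • curv ω (fun i => A i p.1) p.2.1 p.2.2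
            else curv ω (fun i => A i p.1) p.2.1 p.2.2 := by
        funext p
        rw [aeval_X]
        simp only [hP]
        by_cases h4 : p.1 ∈ I₀
        · simp only [h4, if_true, Matrix.smul_apply, smul_eq_mul]
          rw [← Algebra.smul_def]
        · simp only [h4, if_false]
      rw [h3, key_scale L I₀ u D hD (fun p => curv ω (fun i => A i p.1) p.2.1 p.2.2),
        key_curv ω hω Y A L hL, pf_conj hn]
      congr 1
      rw [← hDd, RingHom.map_det]
      rfl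
    rw [h2, ← Algebra.smul_def] at h1
    have h5 := congrArg top h1
    rw [map_smul, map_sum, smul_eq_mul] at h5
    rw [h5]
    refine Finset.sum_congr rfl fun J _ => ?_
    rw [map_smul, smul_eq_mul]
    by_cases hcJ : c J = 0
    · rw [hcJ, zero_mul, zero_mul, zero_mul]
    have hev := hc J hcJ
    have h6 : ∏ i ∈ J, pf (P i) = (u ^ (∑ i ∈ J ∩ I₀, a i)) •
        ∏ i ∈ J, pf (curv ω fun i' => A i' i) := by
      have h7 : ∀ i ∈ J, pf (P i) = (if i ∈ I₀ then u ^ a i else 1) •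
          pf (curv ω fun i' => A i' i) := by
        intro i hi
        simp only [hP]
        by_cases h8 : i ∈ I₀
        · simp only [h8, if_true]
          rw [pf_smul, ← map_pow, ← Algebra.smul_def, ← pow_mul,
            Nat.mul_div_cancel' (hev i hi).two_dvd]
        · simp only [h8, if_false, one_smul]
      rw [Finset.prod_congr rfl h7, Finset.prod_smul]
      congr 1
      rw [Finset.prod_ite, Finset.prod_const_one, mul_one, Finset.filter_mem_eq_inter,
        Finset.prod_pow_eq_pow_sum]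
    rw [h6, map_smul, smul_eq_mul]
    ring
  have htop : top (pf (curv ω Y)) = 0 := by
    refine key_coeff Finset.univ _ _ d _ hkey fun J _ hJ => ?_
    have hcJ : c J ≠ 0 := fun h => hJ (by rw [h, zero_mul])
    refine hd (J ∩ I₀) Finset.inter_subset_right fun i hi => ?_
    exact hc J hcJ i (Finset.mem_inter.1 hi).1
  rw [key_top hn ω top (ht0 hn) (ht1 hn) Y, ← jj_eq hn Y hY] at htop
  rcases mul_eq_zero.1 htop with h | h
  · exfalso
    have h1 : (2 ^ (n / 2) * (n / 2).factorial : ℕ) ≠ 0 := by positivity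
    exact h1 (by exact_mod_cast h)
  · exact h

end Pool.Agent.ChN
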