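import Pool.Agent.ChN.Rho
import Pool.Agent.ChN.Key
import Pool.Agent.ChM.Iter

/-!
# The good set of a natural representation

`good_big`: `pos`, `pw`, `conj` from `Rho.lean` and `Cfc.lean`
(`cfc_reindex`, `cfc_fromBlocks`, `cfc_blockDiagonal'`, `cfc_rpow_smul`, `cfc_log_smul`).
`tan`: `lg (big P s Q) = reindex e e (fromBlocks (blockDiagonal' (log (s j) • 1 + drho (lg P) j)) 0 0 (lg Q))`.
Apply `jj_key` with `I = Option (Fin r)`, `a' l = l.elim k' a`, `A i (some l) = lg (P i l)`,
`A i none = lg (Q i)`, `L X = reindex e e (fromBlocks (blockDiagonal' (drho (X (some ·)))) 0 0 (X none))`,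
`R = big (O (some ·)) 1 (O none)` (`rho_det`), `I₀` the set of all `some i`, `d = ∑ j, k j`,
`D = reindex e e (fromBlocks (u • 1) 0 0 1)`.
-/

namespace Pool.Agent.ChN

open Matrix Pool.Agent.ChP Pool.Agent.ChM

variable {r : ℕ} {a : Fin r → ℕ} {q : ℕ} {k : Fin q → ℕ} (D : NatData a k) {k' n : ℕ}
  (e : (Σ j, Fin (k j)) ⊕ Fin k' ≃ Fin n)

/-- the sum of the natural representations, twisted by scalars, and of an arbitrary one -/
noncomputable def big (g : ∀ i, Matrix (Fin (a i)) (Fin (a i)) ℝ) (s : Fin q → ℝ)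
    (Q : Matrix (Fin k') (Fin k') ℝ) : Matrix (Fin n) (Fin n) ℝ :=
  Matrix.reindex e e (Matrix.fromBlocks (Matrix.blockDiagonal' fun j => s j • rho D g j) 0 0 Q)

/-- the positive definite matrices in the image -/
def bigSet : Set (Matrix (Fin n) (Fin n) ℝ) :=
  {M | ∃ P s Q, (∀ i, (P i).PosDef) ∧ (∀ j, 0 < s j) ∧ Q.PosDef ∧ M = big D e P s Q}

/-! ### Block matrices -/

/-- block diagonal matrices -/
private noncomputable def big_blk (M : ∀ j, Matrix (Fin (k j)) (Fin (k j)) ℝ)
    (Q : Matrix (Fin k') (Fin k') ℝ) : Matrix (Fin n) (Fin n) ℝ :=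
  Matrix.reindex e e (Matrix.fromBlocks (Matrix.blockDiagonal' M) 0 0 Q)

private theorem big_eq (g : ∀ i, Matrix (Fin (a i)) (Fin (a i)) ℝ) (s : Fin q → ℝ)
    (Q : Matrix (Fin k') (Fin k') ℝ) : big D e g s Q = big_blk e (fun j => s j • rho D g j) Q := rfl

private theorem big_blk_mul (M N : ∀ j, Matrix (Fin (k j)) (Fin (k j)) ℝ)
    (Q R : Matrix (Fin k') (Fin k') ℝ) :
    big_blk e M Q * big_blk e N R = big_blk e (fun j => M j * N j) (Q * R) := by
  unfold big_blk
  rw [Matrix.reindex_apply, Matrix.reindex_apply, Matrix.reindex_apply,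
    Matrix.submatrix_mul_equiv, Matrix.fromBlocks_multiply, ← Matrix.blockDiagonal'_mul]
  simp only [Matrix.mul_zero, Matrix.zero_mul, add_zero, zero_add]

private theorem big_blk_transpose (M : ∀ j, Matrix (Fin (k j)) (Fin (k j)) ℝ)
    (Q : Matrix (Fin k') (Fin k') ℝ) :
    (big_blk e M Q)ᵀ = big_blk e (fun j => (M j)ᵀ) Qᵀ := by
  unfold big_blk
  rw [Matrix.reindex_apply, Matrix.reindex_apply, Matrix.transpose_submatrix,
    Matrix.fromBlocks_transpose, Matrix.blockDiagonal'_transpose, Matrix.transpose_zero,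
    Matrix.transpose_zero]

private theorem big_blk_sub (M N : ∀ j, Matrix (Fin (k j)) (Fin (k j)) ℝ)
    (Q R : Matrix (Fin k') (Fin k') ℝ) :
    big_blk e M Q - big_blk e N R = big_blk e (fun j => M j - N j) (Q - R) := by
  unfold big_blk
  have h : Matrix.blockDiagonal' (fun j => M j - N j) =
      Matrix.blockDiagonal' M - Matrix.blockDiagonal' N := Matrix.blockDiagonal'_sub M N
  rw [h]
  ext x y
  simp only [Matrix.reindex_apply, Matrix.submatrix_apply, Matrix.sub_apply]
  rcases e.symm x with x' | x' <;> rcases e.symm y with y' | y' <;>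
    simp [Matrix.fromBlocks]

private theorem big_blk_add (M N : ∀ j, Matrix (Fin (k j)) (Fin (k j)) ℝ)
    (Q R : Matrix (Fin k') (Fin k') ℝ) :
    big_blk e M Q + big_blk e N R = big_blk e (fun j => M j + N j) (Q + R) := by
  unfold big_blk
  have h : Matrix.blockDiagonal' (fun j => M j + N j) =
      Matrix.blockDiagonal' M + Matrix.blockDiagonal' N := Matrix.blockDiagonal'_add M N
  rw [h]
  ext x y
  simp only [Matrix.reindex_apply, Matrix.submatrix_apply, Matrix.add_apply]
  rcases e.symm x with x' | x' <;> rcases e.symm y with y' | y' <;>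
    simp [Matrix.fromBlocks]

private theorem big_blk_smul (t : ℝ) (M : ∀ j, Matrix (Fin (k j)) (Fin (k j)) ℝ)
    (Q : Matrix (Fin k') (Fin k') ℝ) :
    t • big_blk e M Q = big_blk e (fun j => t • M j) (t • Q) := by
  unfold big_blk
  have h : Matrix.blockDiagonal' (fun j => t • M j) = t • Matrix.blockDiagonal' M :=
    Matrix.blockDiagonal'_smul t M
  rw [h]
  ext x y
  simp only [Matrix.reindex_apply, Matrix.submatrix_apply, Matrix.smul_apply]
  rcases e.symm x with x' | x' <;> rcases e.symm y with y' | y' <;>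
    simp [Matrix.fromBlocks]

private theorem big_blk_one :
    big_blk e (fun j => (1 : Matrix (Fin (k j)) (Fin (k j)) ℝ)) (1 : Matrix (Fin k') (Fin k') ℝ) =
      (1 : Matrix (Fin n) (Fin n) ℝ) := by
  unfold big_blk
  have h : Matrix.blockDiagonal' (fun j => (1 : Matrix (Fin (k j)) (Fin (k j)) ℝ)) = 1 :=
    Matrix.blockDiagonal'_one
  rw [h, Matrix.fromBlocks_one, Matrix.reindex_apply, Matrix.submatrix_one_equiv]

private theorem big_det_sigma (M : ∀ j, Matrix (Fin (k j)) (Fin (k j)) ℝ) :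
    (Matrix.blockDiagonal' M).det = ∏ j, (M j).det := by
  rw [(Matrix.blockTriangular_blockDiagonal' M).det_fintype]
  refine Finset.prod_congr rfl fun j _ => ?_
  let w : Fin (k j) ≃ {p : (Σ j, Fin (k j)) // p.1 = j} :=
    { toFun := fun i => ⟨⟨j, i⟩, rfl⟩
      invFun := fun p => p.2 ▸ p.1.2
      left_inv := fun i => rfl
      right_inv := by
        rintro ⟨⟨j', i⟩, h⟩
        subst h
        rfl }
  rw [← Matrix.det_submatrix_equiv_self w]
  congr 1
  ext x y
  change Matrix.blockDiagonal' M ⟨j, x⟩ ⟨j, y⟩ = M j x y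
  rw [Matrix.blockDiagonal'_apply_eq]

private theorem big_blk_det (M : ∀ j, Matrix (Fin (k j)) (Fin (k j)) ℝ)
    (Q : Matrix (Fin k') (Fin k') ℝ) :
    (big_blk e M Q).det = (∏ j, (M j).det) * Q.det := by
  unfold big_blk
  rw [Matrix.reindex_apply, Matrix.det_submatrix_equiv_self, Matrix.det_fromBlocks_zero₁₂,
    big_det_sigma]

private theorem big_posDef_sum {α β : Type} [Fintype α] [Fintype β]
    {A : Matrix α α ℝ} {B : Matrix β β ℝ} (hA : A.PosDef) (hB : B.PosDef) :
    (Matrix.fromBlocks A 0 0 B).PosDef := by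
  refine Matrix.PosDef.of_dotProduct_mulVec_pos ?_ ?_
  · exact Matrix.IsHermitian.fromBlocks hA.1 (by rw [Matrix.conjTranspose_zero]) hB.1
  · intro x hx
    have h0 : star x ⬝ᵥ (Matrix.fromBlocks A 0 0 B *ᵥ x) =
        star (fun i => x (Sum.inl i)) ⬝ᵥ (A *ᵥ fun i => x (Sum.inl i)) +
          star (fun i => x (Sum.inr i)) ⬝ᵥ (B *ᵥ fun i => x (Sum.inr i)) := by
      simp [dotProduct, Matrix.mulVec, Fintype.sum_sum_type]
    rw [h0]
    by_cases h1 : (fun i => x (Sum.inl i)) = 0
    · have h2 : (fun i => x (Sum.inr i)) ≠ 0 := by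
        intro h3
        apply hx
        funext i
        rcases i with i | i
        · exact congrFun h1 i
        · exact congrFun h3 i
      exact add_pos_of_nonneg_of_pos (hA.posSemidef.dotProduct_mulVec_nonneg _)
        (hB.dotProduct_mulVec_pos h2)
    · exact add_pos_of_pos_of_nonneg (hA.dotProduct_mulVec_pos h1)
        (hB.posSemidef.dotProduct_mulVec_nonneg _)

private theorem big_posDef_sigma {M : ∀ j, Matrix (Fin (k j)) (Fin (k j)) ℝ}
    (hM : ∀ j, (M j).PosDef) : (Matrix.blockDiagonal' M).PosDef := by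
  refine Matrix.PosDef.of_dotProduct_mulVec_pos ?_ ?_
  · rw [Matrix.IsHermitian, Matrix.blockDiagonal'_conjTranspose]
    congr 1
    funext j
    exact (hM j).1
  · intro x hx
    have h0 : star x ⬝ᵥ (Matrix.blockDiagonal' M *ᵥ x) =
        ∑ j, star (fun i => x ⟨j, i⟩) ⬝ᵥ (M j *ᵥ fun i => x ⟨j, i⟩) := by
      simp only [dotProduct, Matrix.mulVec, Fintype.sum_sigma, Pi.star_apply]
      refine Finset.sum_congr rfl fun j _ => Finset.sum_congr rfl fun i _ => ?_
      congr 1
      rw [Finset.sum_eq_single j]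
      · refine Finset.sum_congr rfl fun l _ => ?_
        rw [Matrix.blockDiagonal'_apply_eq]
      · intro j' _ hj
        refine Finset.sum_eq_zero fun l _ => ?_
        rw [Matrix.blockDiagonal'_apply_ne _ _ _ (Ne.symm hj), zero_mul]
      · intro h
        exact absurd (Finset.mem_univ j) h
    rw [h0]
    obtain ⟨⟨j, i⟩, hji⟩ : ∃ p, x p ≠ 0 := by
      by_contra h
      push Not at h
      exact hx (funext h)
    refine Finset.sum_pos' (fun j _ => (hM j).posSemidef.dotProduct_mulVec_nonneg _)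
      ⟨j, Finset.mem_univ j, (hM j).dotProduct_mulVec_pos ?_⟩
    intro h
    exact hji (congrFun h i)

private theorem big_blk_posDef {M : ∀ j, Matrix (Fin (k j)) (Fin (k j)) ℝ}
    {Q : Matrix (Fin k') (Fin k') ℝ} (hM : ∀ j, (M j).PosDef) (hQ : Q.PosDef) :
    (big_blk e M Q).PosDef := by
  unfold big_blk
  rw [Matrix.reindex_apply]
  exact (big_posDef_sum (big_posDef_sigma hM) hQ).submatrix e.symm.injective

private theorem big_sym {α : Type} [Fintype α] {M : Matrix α α ℝ} (h : M.PosDef) : Mᵀ = M := by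
  have := h.1
  rwa [Matrix.IsHermitian, conjTranspose_eq_transpose_of_trivial] at this

private theorem big_blk_cfc {M : ∀ j, Matrix (Fin (k j)) (Fin (k j)) ℝ}
    {Q : Matrix (Fin k') (Fin k') ℝ} (hM : ∀ j, (M j)ᵀ = M j) (hQ : Qᵀ = Q) (f : ℝ → ℝ) :
    cfc f (big_blk e M Q) = big_blk e (fun j => cfc f (M j)) (cfc f Q) := by
  have h1 : (Matrix.blockDiagonal' M)ᵀ = Matrix.blockDiagonal' M := by
    rw [Matrix.blockDiagonal'_transpose]
    congr 1
    funext j
    exact hM j
  have h2 : (Matrix.fromBlocks (Matrix.blockDiagonal' M) 0 0 Q)ᵀ =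
      Matrix.fromBlocks (Matrix.blockDiagonal' M) 0 0 Q := by
    rw [Matrix.fromBlocks_transpose, h1, hQ, Matrix.transpose_zero, Matrix.transpose_zero]
  unfold big_blk
  rw [cfc_reindex e _ h2, cfc_fromBlocks _ _ h1 hQ, cfc_blockDiagonal' M hM]

private theorem big_rpow_posDef {m : ℕ} {P : Matrix (Fin m) (Fin m) ℝ} (hP : P.PosDef) (t : ℝ) :
    (cfc (fun x : ℝ => x ^ t) P).PosDef := by
  obtain ⟨U, l, _, hU, h⟩ := exists_spec P (big_sym hP)
  have hl := (posDef_iff_spec hU h).1 hP
  exact (posDef_iff_spec hU (cfc_conj_diagonal hU h _)).2 fun i => Real.rpow_pos_of_pos (hl i) t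

theorem big_mul (g g' : ∀ i, Matrix (Fin (a i)) (Fin (a i)) ℝ) (s s' : Fin q → ℝ)
    (Q Q' : Matrix (Fin k') (Fin k') ℝ) :
    big D e g s Q * big D e g' s' Q' = big D e (g * g') (s * s') (Q * Q') := by
  rw [big_eq, big_eq, big_eq, big_blk_mul]
  congr 1
  funext j
  rw [rho_mul, Matrix.smul_mul, Matrix.mul_smul, smul_smul, Pi.mul_apply]

theorem big_transpose (g : ∀ i, Matrix (Fin (a i)) (Fin (a i)) ℝ) (s : Fin q → ℝ)
    (Q : Matrix (Fin k') (Fin k') ℝ) :
    (big D e g s Q)ᵀ = big D e (fun i => (g i)ᵀ) s Qᵀ := by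
  rw [big_eq, big_eq, big_blk_transpose]
  congr 1
  funext j
  rw [Matrix.transpose_smul, rho_transpose]

private theorem big_posDef {P : ∀ i, Matrix (Fin (a i)) (Fin (a i)) ℝ} {s : Fin q → ℝ}
    {Q : Matrix (Fin k') (Fin k') ℝ} (hP : ∀ i, (P i).PosDef) (hs : ∀ j, 0 < s j)
    (hQ : Q.PosDef) : (big D e P s Q).PosDef := by
  rw [big_eq]
  exact big_blk_posDef e (fun j => (rho_posDef D P hP j).smul (hs j)) hQ

private theorem big_pow {P : ∀ i, Matrix (Fin (a i)) (Fin (a i)) ℝ} {s : Fin q → ℝ}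
    {Q : Matrix (Fin k') (Fin k') ℝ} (hP : ∀ i, (P i).PosDef) (hs : ∀ j, 0 < s j)
    (hQ : Q.PosDef) (t : ℝ) : cfc (fun x : ℝ => x ^ t) (big D e P s Q) =
      big D e (fun i => cfc (fun x : ℝ => x ^ t) (P i)) (fun j => s j ^ t)
        (cfc (fun x : ℝ => x ^ t) Q) := by
  rw [big_eq, big_eq, big_blk_cfc]
  · congr 1
    funext j
    rw [cfc_rpow_smul _ (rho_posDef D P hP j) _ (hs j), rho_rpow D P hP]
  · intro j
    exact big_sym ((rho_posDef D P hP j).smul (hs j))
  · exact big_sym hQ

private theorem big_lg {P : ∀ i, Matrix (Fin (a i)) (Fin (a i)) ℝ} {s : Fin q → ℝ}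
    {Q : Matrix (Fin k') (Fin k') ℝ} (hP : ∀ i, (P i).PosDef) (hs : ∀ j, 0 < s j)
    (hQ : Q.PosDef) : lg (big D e P s Q) =
      big_blk e (fun j => Real.log (s j) • (1 : Matrix (Fin (k j)) (Fin (k j)) ℝ) +
        drho D (fun i => lg (P i)) j) (lg Q) := by
  unfold lg
  rw [big_eq, big_blk_cfc]
  · congr 1
    funext j
    rw [cfc_log_smul _ (rho_posDef D P hP j) _ (hs j), rho_log D P hP]
    rfl
  · intro j
    exact big_sym ((rho_posDef D P hP j).smul (hs j))
  · exact big_sym hQ

/-! ### The tangent space -/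

/-- sizes of all the matrices -/
private abbrev big_sz {r : ℕ} (a : Fin r → ℕ) (k' : ℕ) : Option (Fin r) → ℕ := fun l => l.elim k' a

/-- the linear map to block diagonal matrices -/
private noncomputable def big_L :
    (∀ l : Option (Fin r), Matrix (Fin (big_sz a k' l)) (Fin (big_sz a k' l)) ℝ) →ₗ[ℝ]
      Matrix (Fin n) (Fin n) ℝ where
  toFun X := big_blk e (drho D fun i => X (some i)) (X none)
  map_add' X X' := by
    rw [big_blk_add]
    congr 1
    funext j
    exact (drhoL D j).map_add (fun i => X (some i)) (fun i => X' (some i))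
  map_smul' t X := by
    rw [RingHom.id_apply, big_blk_smul]
    congr 1
    funext j
    exact (drhoL D j).map_smul t (fun i => X (some i))

private theorem big_L_apply
    (X : ∀ l : Option (Fin r), Matrix (Fin (big_sz a k' l)) (Fin (big_sz a k' l)) ℝ) :
    big_L D e X = big_blk e (drho D fun i => X (some i)) (X none) := rfl

private theorem big_tan
    (hd : ∀ J : Finset (Fin r), (∀ i ∈ J, Even (a i)) → ∑ i ∈ J, a i ≠ ∑ j, k j)
    (P : Fin n → ∀ i, Matrix (Fin (a i)) (Fin (a i)) ℝ) (s : Fin n → Fin q → ℝ)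
    (Q : Fin n → Matrix (Fin k') (Fin k') ℝ) (hP : ∀ x i, (P x i).PosDef)
    (hs : ∀ x j, 0 < s x j) (hQ : ∀ x, (Q x).PosDef) :
    JJ (fun x => lg (big D e (P x) (s x) (Q x))) = 0 := by
  classical
  let A : Fin n → ∀ l : Option (Fin r), Matrix (Fin (big_sz a k' l)) (Fin (big_sz a k' l)) ℝ :=
    fun x l => match l with
      | none => lg (Q x)
      | some i => lg (P x i)
  refine jj_key (I := Option (Fin r)) (big_sz a k') _ ?_ A ?_ (big_L D e) ?_ ?_
    (Finset.univ.map Function.Embedding.some) (∑ j, k j) ?_ ?_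
  · intro x
    exact lg_transpose (big_posDef D e (hP x) (hs x) (hQ x))
  · intro x l
    rcases l with _ | i
    · exact lg_transpose (hQ x)
    · exact lg_transpose (hP x i)
  · intro x y
    rw [big_L_apply, big_lg D e (hP x) (hs x) (hQ x), big_lg D e (hP y) (hs y) (hQ y),
      big_blk_mul, big_blk_mul, big_blk_sub]
    congr 1
    funext j
    have h := drho_bracket D (fun i => lg (P x i)) (fun i => lg (P y i)) j
    have h2 : drho D (fun i => A x (some i) * A y (some i) - A y (some i) * A x (some i)) j =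
        drho D (fun i => lg (P x i) * lg (P y i) - lg (P y i) * lg (P x i)) j := rfl
    rw [h2, ← h]
    simp only [Matrix.add_mul, Matrix.mul_add, Matrix.smul_mul, Matrix.mul_smul, Matrix.one_mul,
      Matrix.mul_one, smul_add]
    rw [smul_comm (Real.log (s x j)) (Real.log (s y j))]
    abel
  · intro O hO hdet
    refine ⟨big D e (fun i => O (some i)) 1 (O none), ?_, ?_⟩
    · have h0 : (O none).det = 1 := hdet none
      rw [big_eq, big_blk_det]
      refine (congrArg _ h0).trans ?_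
      rw [mul_one]
      refine Finset.prod_eq_one fun j _ => ?_
      rw [Pi.one_apply, one_smul]
      exact rho_det D (fun i => O (some i)) (fun i => hO (some i)) (fun i => hdet (some i)) j
    · intro X
      rw [big_L_apply, big_L_apply, big_transpose, big_eq, big_eq, big_blk_mul, big_blk_mul]
      congr 1
      funext j
      rw [Pi.one_apply, one_smul, one_smul, ← rho_transpose]
      exact (rho_drho D (fun i => O (some i)) (fun i => X (some i)) (fun i => hO (some i)) j).symm
  · intro J hJ hev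
    let J' : Finset (Fin r) := Finset.univ.filter fun i => some i ∈ J
    have h1 : J = J'.map Function.Embedding.some := by
      ext l
      rw [Finset.mem_map]
      constructor
      · intro hl
        obtain ⟨i, _, hi⟩ := Finset.mem_map.1 (hJ hl)
        refine ⟨i, ?_, hi⟩
        rw [Finset.mem_filter]
        refine ⟨Finset.mem_univ i, ?_⟩
        have : some i = l := hi
        rwa [this]
      · rintro ⟨i, hi, rfl⟩
        exact (Finset.mem_filter.1 hi).2
    rw [h1, Finset.sum_map]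
    exact hd J' fun i hi => hev (some i) (Finset.mem_filter.1 hi).2
  · intro u
    refine ⟨big_blk e (fun j => u • (1 : Matrix (Fin (k j)) (Fin (k j)) ℝ)) 1, ?_, ?_⟩
    · rw [big_blk_det, Matrix.det_one, mul_one]
      rw [← Finset.prod_pow_eq_pow_sum]
      refine Finset.prod_congr rfl fun j _ => ?_
      rw [Matrix.det_smul, Matrix.det_one, mul_one, Fintype.card_fin]
    · intro X
      rw [big_L_apply, big_L_apply, big_blk_transpose, big_blk_mul, big_blk_mul]
      have h0 : (none : Option (Fin r)) ∉ Finset.univ.map Function.Embedding.some := by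
        intro h
        obtain ⟨i, _, hi⟩ := Finset.mem_map.1 h
        exact absurd hi (Option.some_ne_none i)
      congr 1
      · funext j
        have h1 : (fun i => if some i ∈ Finset.univ.map Function.Embedding.some then
            u ^ 2 • X (some i) else X (some i)) = u ^ 2 • fun i => X (some i) := by
          funext i
          exact if_pos (Finset.mem_map.2 ⟨i, Finset.mem_univ i, rfl⟩)
        have h2 : drho D (fun i => if some i ∈ Finset.univ.map Function.Embedding.some then
            u ^ 2 • X (some i) else X (some i)) j = u ^ 2 • drho D (fun i => X (some i)) j := by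
          refine (congrArg (fun Z => drho D Z j) h1).trans ?_
          exact (drhoL D j).map_smul (u ^ 2) (fun i => X (some i))
        refine h2.trans ?_
        rw [Matrix.transpose_smul, Matrix.transpose_one, Matrix.smul_mul, Matrix.one_mul,
          Matrix.smul_mul, Matrix.mul_smul, Matrix.mul_one, smul_smul, pow_two]
      · refine (if_neg h0).trans ?_
        have h3 : ∀ Z : Matrix (Fin k') (Fin k') ℝ,
            Z = 1 * Z * (1 : Matrix (Fin k') (Fin k') ℝ)ᵀ := by
          intro Z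
          rw [Matrix.transpose_one, Matrix.one_mul, Matrix.mul_one]
        exact h3 (X none)

theorem good_big (hd : ∀ J : Finset (Fin r), (∀ i ∈ J, Even (a i)) → ∑ i ∈ J, a i ≠ ∑ j, k j) :
    Good (bigSet D e) := by
  refine ⟨?_, ?_, ?_, ?_, ?_⟩
  · rintro M ⟨P, s, Q, hP, hs, hQ, rfl⟩
    exact big_posDef D e hP hs hQ
  · refine ⟨1, 1, 1, fun i => PosDef.one, fun j => one_pos, PosDef.one, ?_⟩
    rw [big_eq, ← big_blk_one e]
    congr 1
    funext j
    rw [rho_one, Pi.one_apply, one_smul]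
  · rintro M ⟨P, s, Q, hP, hs, hQ, rfl⟩ t
    exact ⟨_, _, _, fun i => big_rpow_posDef (hP i) t, fun j => Real.rpow_pos_of_pos (hs j) t,
      big_rpow_posDef hQ t, big_pow D e hP hs hQ t⟩
  · rintro M ⟨P, s, Q, hP, hs, hQ, rfl⟩ N ⟨P', s', Q', hP', hs', hQ', rfl⟩
    have hc : ∀ {m : ℕ} {X Y : Matrix (Fin m) (Fin m) ℝ}, X.PosDef → Y.PosDef →
        (X * Y * X).PosDef := by
      intro m X Y hX hY
      have h1 := (hX.isUnit.posDef_star_right_conjugate_iff (x := Y)).2 hY
      rwa [star_eq_conjTranspose, hX.1] at h1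
    refine ⟨P * P' * P, s * s' * s, Q * Q' * Q, fun i => hc (hP i) (hP' i),
      fun j => mul_pos (mul_pos (hs j) (hs' j)) (hs j), hc hQ hQ', ?_⟩
    rw [big_mul, big_mul]
  · intro P hP
    choose P' s Q h1 h2 h3 h4 using hP
    have h5 : (fun i => lg (P i)) = fun x => lg (big D e (P' x) (s x) (Q x)) := by
      funext i
      rw [← h4 i]
    rw [h5]
    exact big_tan D e hd P' s Q h1 h2 h3

theorem noEul_big (hd : ∀ J : Finset (Fin r), (∀ i ∈ J, Even (a i)) → ∑ i ∈ J, a i ≠ ∑ j, k j)
    {Γ : Type} [Group Γ] (ρ : Γ →* Matrix (Fin n) (Fin n) ℝ)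
    (φ : Γ → ∀ i, Matrix (Fin (a i)) (Fin (a i)) ℝ) (s : Γ → Fin q → ℝ)
    (Q : Γ → Matrix (Fin k') (Fin k') ℝ) (hφ : ∀ γ i, (φ γ i).det ≠ 0) (hs : ∀ γ j, s γ j ≠ 0)
    (hQ : ∀ γ, (Q γ).det ≠ 0) (h : ∀ γ, ρ γ = big D e (φ γ) (s γ) (Q γ)) : NoEul ρ := by
  refine noEul_of_good (good_big D e hd) ρ ?_
  rintro γ M ⟨P, s', Q', hP, hs', hQ', rfl⟩
  have hc : ∀ {m : ℕ} {X Y : Matrix (Fin m) (Fin m) ℝ}, X.det ≠ 0 → Y.PosDef →
      (X * Y * Xᵀ).PosDef := by
    intro m X Y hX hY
    have hu : IsUnit X := (Matrix.isUnit_iff_isUnit_det X).2 (isUnit_iff_ne_zero.2 hX)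
    have h1 := (hu.posDef_star_right_conjugate_iff (x := Y)).2 hY
    rwa [star_eq_conjTranspose, conjTranspose_eq_transpose_of_trivial] at h1
  refine ⟨fun i => φ γ i * P i * (φ γ i)ᵀ, fun j => s γ j * s' j * s γ j,
    Q γ * Q' * (Q γ)ᵀ, fun i => hc (hφ γ i) (hP i), fun j => ?_, hc (hQ γ) hQ', ?_⟩
  · have h1 : s γ j * s' j * s γ j = s γ j ^ 2 * s' j := by ring
    change 0 < s γ j * s' j * s γ j
    rw [h1]
    exact mul_pos (lt_of_le_of_ne (sq_nonneg _) (Ne.symm (pow_ne_zero 2 (hs γ j)))) (hs' j)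
  · rw [h γ, big_transpose, big_mul, big_mul]
    rfl

end Pool.Agent.ChN
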