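import Pool.Agent.ChN.Defs

/-!
# Symmetric polynomials and power sums

The symmetrisation of a monomial is a symmetric polynomial, hence a polynomial in the elementary
symmetric polynomials (`MvPolynomial.esymmAlgEquiv` or `MvPolynomial.esymmAlgHom` surjective onto
the symmetric polynomials), and these are polynomials in the power sums over `ℝ` by Newton's
identities (`MvPolynomial.mul_esymm_eq_sum`).
-/

namespace Pool.Agent.ChN

open MvPolynomial in
private theorem Sym_esymm_mem (m k : ℕ) :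
    esymm (Fin m) ℝ k ∈ (aeval (R := ℝ) (fun k : ℕ => psum (Fin m) ℝ (k + 1))).range := by
  induction k using Nat.strong_induction_on with
  | _ k ih =>
    rcases Nat.eq_zero_or_pos k with hk | hk
    · subst hk
      rw [esymm_zero]
      exact one_mem _
    · have h := mul_esymm_eq_sum (Fin m) ℝ k
      have hk0 : (k : ℝ) ≠ 0 := by exact_mod_cast hk.ne'
      have e : esymm (Fin m) ℝ k =
          (k : ℝ)⁻¹ • ((k : MvPolynomial (Fin m) ℝ) * esymm (Fin m) ℝ k) := by
        rw [show (k : MvPolynomial (Fin m) ℝ) = C (k : ℝ) by simp, ← smul_eq_C_mul, smul_smul,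
          inv_mul_cancel₀ hk0, one_smul]
      rw [e, h]
      refine Subalgebra.smul_mem _ (mul_mem (pow_mem (neg_mem (one_mem _)) _)
        (sum_mem fun a ha => ?_)) _
      rw [Finset.mem_filter, Finset.HasAntidiagonal.mem_antidiagonal] at ha
      refine mul_mem (mul_mem (pow_mem (neg_mem (one_mem _)) _) (ih _ ha.2)) ?_
      refine ⟨X (a.2 - 1), ?_⟩
      rw [AlgHom.toRingHom_eq_coe, RingHom.coe_coe, aeval_X,
        show a.2 - 1 + 1 = a.2 by omega]

open MvPolynomial in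
private theorem Sym_mem (m : ℕ) (p : MvPolynomial (Fin m) ℝ) (hp : p.IsSymmetric) :
    p ∈ (aeval (R := ℝ) (fun k : ℕ => psum (Fin m) ℝ (k + 1))).range := by
  obtain ⟨r, hr⟩ := esymmAlgHom_surjective (σ := Fin m) ℝ (n := m) (by simp) ⟨p, hp⟩
  have h1 := esymmAlgHom_apply (σ := Fin m) r
  rw [hr] at h1
  rw [show p = aeval (fun i : Fin m ↦ esymm (Fin m) ℝ (i + 1)) r from h1]
  have h2 : aeval (fun i : Fin m ↦ esymm (Fin m) ℝ (i + 1)) r ∈
      (aeval (R := ℝ) (fun i : Fin m ↦ esymm (Fin m) ℝ (i + 1))).range := ⟨r, rfl⟩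
  rw [aeval_range] at h2
  refine Algebra.adjoin_le ?_ h2
  rintro _ ⟨i, rfl⟩
  exact Sym_esymm_mem m _

theorem exists_psum {m : ℕ} (ν : Fin m → ℕ) : ∃ g : MvPolynomial ℕ ℝ, ∀ x : Fin m → ℝ,
    ∑ σ : Equiv.Perm (Fin m), ∏ j, x (σ j) ^ ν j =
      MvPolynomial.eval (fun k => ∑ j, x j ^ (k + 1)) g := by
  have hs : (∑ σ : Equiv.Perm (Fin m), ∏ j,
      (MvPolynomial.X (σ j) : MvPolynomial (Fin m) ℝ) ^ ν j).IsSymmetric := by
    intro e
    rw [map_sum]
    refine Fintype.sum_equiv (Equiv.mulLeft e) _ _ fun σ => ?_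
    simp [map_prod, map_pow, MvPolynomial.rename_X]
  obtain ⟨g, hg⟩ := Sym_mem m _ hs
  refine ⟨g, fun x => ?_⟩
  have h := congrArg (MvPolynomial.eval x) hg
  rw [AlgHom.toRingHom_eq_coe, RingHom.coe_coe] at h
  have h2 : MvPolynomial.eval x
      (MvPolynomial.aeval (R := ℝ) (fun k : ℕ => MvPolynomial.psum (Fin m) ℝ (k + 1)) g) =
      MvPolynomial.eval (fun k => ∑ j, x j ^ (k + 1)) g := by
    rw [← MvPolynomial.coe_aeval_eq_eval, ← MvPolynomial.coe_aeval_eq_eval]
    have h3 := MvPolynomial.comp_aeval_apply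
      (fun k : ℕ => MvPolynomial.psum (Fin m) ℝ (k + 1)) (MvPolynomial.aeval (R := ℝ) x) g
    rw [RingHom.coe_coe, RingHom.coe_coe, h3]
    congr 2
    ext k
    simp [MvPolynomial.psum]
  rw [← h2, h]
  simp

end Pool.Agent.ChN
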