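import Pool.Agent.ChN.Pf
import Pool.Agent.ChN.Sym

/-!
# Invariant polynomials on antisymmetric matrices of size `a`

Let `m = a / 2`.  If all `μ j` are even, `osum μ x = N * ∑ σ, ∏ j, (x (σ j) ^ 2) ^ (μ j / 2)`
with `N` the number of admissible sign vectors, and `exists_psum` together with
`trace ((tor x) ^ (2 k)) = 2 (-1)^k ∑ j, x j ^ (2 k)` gives `G` as a polynomial in the traces of
`X ^ (2 k)`, `k ≥ 1`.  If `a` is even and all `μ j` are odd, `osum μ x` is `∏ j, x j` times such a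
sum with `μ j - 1` instead of `μ j` (`∏ sg = 1`), `G` is `pf X` times a polynomial in the traces,
`pf_tor`, `pf_conj`.  In the remaining cases `osum μ = 0` (change one sign, `a` odd, or two signs,
`a` even) and `G = 0`.
-/

namespace Pool.Agent.ChN

open Matrix MvPolynomial

private theorem Block_lo_ne_hi {a : ℕ} (i j : Fin (a / 2)) : (lo2 i : Fin a) ≠ hi2 j := by
  intro h
  have h1 := congrArg Fin.val h
  simp only [lo2, hi2] at h1
  omega

private theorem Block_lo_inj {a : ℕ} {i j : Fin (a / 2)} (h : (lo2 i : Fin a) = lo2 j) :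
    i = j := by
  have h1 := congrArg Fin.val h
  simp only [lo2] at h1
  exact Fin.ext (by omega)

private theorem Block_hi_inj {a : ℕ} {i j : Fin (a / 2)} (h : (hi2 i : Fin a) = hi2 j) :
    i = j := by
  have h1 := congrArg Fin.val h
  simp only [hi2] at h1
  exact Fin.ext (by omega)

private theorem Block_tor_lo {a : ℕ} (x : Fin (a / 2) → ℝ) (j : Fin (a / 2)) (q : Fin a) :
    (tor x : Matrix (Fin a) (Fin a) ℝ) (lo2 j) q = if q = hi2 j then x j else 0 := by
  unfold tor
  rw [Finset.sum_eq_single j]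
  · rw [if_neg (fun h : (lo2 j : Fin a) = hi2 j ∧ q = lo2 j => Block_lo_ne_hi j j h.1), sub_zero]
    simp
  · intro i _ hij
    rw [if_neg (fun h : (lo2 j : Fin a) = lo2 i ∧ q = hi2 i => hij (Block_lo_inj h.1).symm),
      if_neg (fun h : (lo2 j : Fin a) = hi2 i ∧ q = lo2 i => Block_lo_ne_hi _ _ h.1), sub_zero]
  · intro h
    exact absurd (Finset.mem_univ j) h

private theorem Block_tor_hi {a : ℕ} (x : Fin (a / 2) → ℝ) (j : Fin (a / 2)) (q : Fin a) :
    (tor x : Matrix (Fin a) (Fin a) ℝ) (hi2 j) q = if q = lo2 j then - x j else 0 := by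
  unfold tor
  rw [Finset.sum_eq_single j]
  · rw [if_neg (fun h : (hi2 j : Fin a) = lo2 j ∧ q = hi2 j =>
      Block_lo_ne_hi j j h.1.symm), zero_sub]
    by_cases h : q = lo2 j
    · rw [if_pos ⟨rfl, h⟩, if_pos h]
    · rw [if_neg (fun h' : (hi2 j : Fin a) = hi2 j ∧ q = lo2 j => h h'.2), if_neg h, neg_zero]
  · intro i _ hij
    rw [if_neg (fun h : (hi2 j : Fin a) = lo2 i ∧ q = hi2 i => Block_lo_ne_hi _ _ h.1.symm),
      if_neg (fun h : (hi2 j : Fin a) = hi2 i ∧ q = lo2 i => hij (Block_hi_inj h.1).symm),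
      sub_zero]
  · intro h
    exact absurd (Finset.mem_univ j) h

private theorem Block_tor_rest {a : ℕ} (x : Fin (a / 2) → ℝ) (p : Fin a) (h1 : ∀ j, p ≠ lo2 j)
    (h2 : ∀ j, p ≠ hi2 j) (q : Fin a) :
    (tor x : Matrix (Fin a) (Fin a) ℝ) p q = 0 := by
  unfold tor
  refine Finset.sum_eq_zero fun j _ => ?_
  rw [if_neg (fun h : p = lo2 j ∧ q = hi2 j => h1 j h.1),
    if_neg (fun h : p = hi2 j ∧ q = lo2 j => h2 j h.1), sub_zero]

private theorem Block_sq_lo {a : ℕ} (x : Fin (a / 2) → ℝ) (j : Fin (a / 2)) (q : Fin a) :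
    ((tor x : Matrix (Fin a) (Fin a) ℝ) * tor x) (lo2 j) q =
      if q = lo2 j then - (x j) ^ 2 else 0 := by
  rw [Matrix.mul_apply, Finset.sum_eq_single (hi2 j)]
  · rw [Block_tor_lo, if_pos rfl, Block_tor_hi]
    split_ifs with h
    · ring
    · ring
  · intro r _ hr
    rw [Block_tor_lo, if_neg hr, zero_mul]
  · intro h
    exact absurd (Finset.mem_univ _) h

private theorem Block_sq_hi {a : ℕ} (x : Fin (a / 2) → ℝ) (j : Fin (a / 2)) (q : Fin a) :
    ((tor x : Matrix (Fin a) (Fin a) ℝ) * tor x) (hi2 j) q =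
      if q = hi2 j then - (x j) ^ 2 else 0 := by
  rw [Matrix.mul_apply, Finset.sum_eq_single (lo2 j)]
  · rw [Block_tor_hi, if_pos rfl, Block_tor_lo]
    split_ifs with h
    · ring
    · ring
  · intro r _ hr
    rw [Block_tor_hi, if_neg hr, zero_mul]
  · intro h
    exact absurd (Finset.mem_univ _) h

private theorem Block_sq_rest {a : ℕ} (x : Fin (a / 2) → ℝ) (p : Fin a) (h1 : ∀ j, p ≠ lo2 j)
    (h2 : ∀ j, p ≠ hi2 j) (q : Fin a) :
    ((tor x : Matrix (Fin a) (Fin a) ℝ) * tor x) p q = 0 := by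
  rw [Matrix.mul_apply]
  refine Finset.sum_eq_zero fun r _ => ?_
  rw [Block_tor_rest x p h1 h2, zero_mul]

private theorem Block_sum {a : ℕ} (f : Fin a → ℝ)
    (hf : ∀ p, (∀ j, p ≠ lo2 j) → (∀ j, p ≠ hi2 j) → f p = 0) :
    ∑ p, f p = ∑ j, (f (lo2 j) + f (hi2 j)) := by
  have h1 : ∀ p, f p = ∑ j : Fin (a / 2),
      ((if p = lo2 j then f p else 0) + (if p = hi2 j then f p else 0)) := by
    intro p
    by_cases hlo : ∃ j, p = lo2 j
    · obtain ⟨j, rfl⟩ := hlo
      rw [Finset.sum_eq_single j]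
      · rw [if_pos rfl, if_neg (Block_lo_ne_hi j j), add_zero]
      · intro i _ hij
        rw [if_neg (fun h => hij (Block_lo_inj h).symm), if_neg (Block_lo_ne_hi j i), add_zero]
      · intro h
        exact absurd (Finset.mem_univ j) h
    · by_cases hhi : ∃ j, p = hi2 j
      · obtain ⟨j, rfl⟩ := hhi
        rw [Finset.sum_eq_single j]
        · rw [if_pos rfl, if_neg (fun h => Block_lo_ne_hi j j h.symm), zero_add]
        · intro i _ hij
          rw [if_neg (fun h => hij (Block_hi_inj h).symm),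
            if_neg (fun h => Block_lo_ne_hi i j h.symm), add_zero]
        · intro h
          exact absurd (Finset.mem_univ j) h
      · have h1 : ∀ j, p ≠ lo2 j := fun j h => hlo ⟨j, h⟩
        have h2 : ∀ j, p ≠ hi2 j := fun j h => hhi ⟨j, h⟩
        rw [hf p h1 h2]
        simp
  rw [Finset.sum_congr rfl (fun p _ => h1 p), Finset.sum_comm]
  refine Finset.sum_congr rfl fun j _ => ?_
  rw [Finset.sum_add_distrib]
  simp

private theorem Block_trace_tor {a : ℕ} (x : Fin (a / 2) → ℝ) (k : ℕ) (hk : 0 < k) :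
    ((tor x : Matrix (Fin a) (Fin a) ℝ) ^ (2 * k)).trace = ∑ j, 2 * (- (x j) ^ 2) ^ k := by
  have h1 : (tor x : Matrix (Fin a) (Fin a) ℝ) * tor x =
      Matrix.diagonal (fun p => ((tor x : Matrix (Fin a) (Fin a) ℝ) * tor x) p p) := by
    ext p q
    by_cases hpq : p = q
    · subst hpq
      rw [Matrix.diagonal_apply_eq]
    · rw [Matrix.diagonal_apply_ne _ hpq]
      by_cases hlo : ∃ j, p = lo2 j
      · obtain ⟨j, rfl⟩ := hlo
        rw [Block_sq_lo, if_neg (fun h => hpq h.symm)]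
      · by_cases hhi : ∃ j, p = hi2 j
        · obtain ⟨j, rfl⟩ := hhi
          rw [Block_sq_hi, if_neg (fun h => hpq h.symm)]
        · exact Block_sq_rest x p (fun j h => hlo ⟨j, h⟩) (fun j h => hhi ⟨j, h⟩) q
  rw [pow_mul, pow_two, h1, Matrix.diagonal_pow, Matrix.trace_diagonal]
  rw [Block_sum]
  · refine Finset.sum_congr rfl fun j _ => ?_
    rw [Pi.pow_apply, Pi.pow_apply, Block_sq_lo, Block_sq_hi, if_pos rfl, if_pos rfl]
    ring
  · intro p h1 h2
    rw [Pi.pow_apply, Block_sq_rest x p h1 h2, zero_pow hk.ne']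

/-! generic matrix -/

private noncomputable def Block_M (a : ℕ) :
    Matrix (Fin a) (Fin a) (MvPolynomial (Fin a × Fin a) ℝ) :=
  fun p q => X (p, q)

private theorem Block_aeval_M {a : ℕ} {S : Type*} [CommRing S] [Algebra ℝ S]
    (P : Matrix (Fin a) (Fin a) S) :
    (Block_M a).map (aeval (fun p : Fin a × Fin a => P p.1 p.2) :
      MvPolynomial (Fin a × Fin a) ℝ →ₐ[ℝ] S) = P := by
  ext p q
  simp [Block_M]

private theorem Block_tr {a : ℕ} {S : Type*} [CommRing S] [Algebra ℝ S]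
    (P : Matrix (Fin a) (Fin a) S) (n : ℕ) :
    (aeval (fun p : Fin a × Fin a => P p.1 p.2) : MvPolynomial (Fin a × Fin a) ℝ →ₐ[ℝ] S)
      ((Block_M a ^ n).trace) = (P ^ n).trace := by
  have h1 : (Block_M a ^ n).map (aeval (fun p : Fin a × Fin a => P p.1 p.2) :
      MvPolynomial (Fin a × Fin a) ℝ →ₐ[ℝ] S) = P ^ n := by
    have h2 := map_pow (AlgHom.mapMatrix (m := Fin a) (aeval (fun p : Fin a × Fin a => P p.1 p.2) :
      MvPolynomial (Fin a × Fin a) ℝ →ₐ[ℝ] S)) (Block_M a) n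
    rw [AlgHom.mapMatrix_apply, AlgHom.mapMatrix_apply, Block_aeval_M] at h2
    exact h2
  rw [← h1]
  simp [Matrix.trace]

private theorem Block_pf {a : ℕ} {S : Type*} [CommRing S] [Algebra ℝ S]
    (P : Matrix (Fin a) (Fin a) S) :
    (aeval (fun p : Fin a × Fin a => P p.1 p.2) : MvPolynomial (Fin a × Fin a) ℝ →ₐ[ℝ] S)
      (pf (Block_M a)) = pf P := by
  have h1 := pf_map ((aeval (fun p : Fin a × Fin a => P p.1 p.2) :
      MvPolynomial (Fin a × Fin a) ℝ →ₐ[ℝ] S) : MvPolynomial (Fin a × Fin a) ℝ →+* S) (Block_M a)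
  have h2 : (Block_M a).map ((aeval (fun p : Fin a × Fin a => P p.1 p.2) :
      MvPolynomial (Fin a × Fin a) ℝ →ₐ[ℝ] S) : MvPolynomial (Fin a × Fin a) ℝ →+* S) = P :=
    Block_aeval_M P
  rw [h2] at h1
  exact h1.symm

/-- the polynomial in the traces -/
private noncomputable def Block_H (a : ℕ) (g : MvPolynomial ℕ ℝ) :
    MvPolynomial (Fin a × Fin a) ℝ :=
  (aeval (fun k : ℕ => C ((-1) ^ (k + 1) / 2 : ℝ) * (Block_M a ^ (2 * (k + 1))).trace) :
    MvPolynomial ℕ ℝ →ₐ[ℝ] MvPolynomial (Fin a × Fin a) ℝ) g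

private theorem Block_H_eval {a : ℕ} {S : Type*} [CommRing S] [Algebra ℝ S]
    (P : Matrix (Fin a) (Fin a) S) (g : MvPolynomial ℕ ℝ) :
    (aeval (fun p : Fin a × Fin a => P p.1 p.2) : MvPolynomial (Fin a × Fin a) ℝ →ₐ[ℝ] S)
      (Block_H a g) = (aeval (fun k : ℕ => algebraMap ℝ S ((-1) ^ (k + 1) / 2) *
        (P ^ (2 * (k + 1))).trace) : MvPolynomial ℕ ℝ →ₐ[ℝ] S) g := by
  unfold Block_H
  have h1 := comp_aeval (fun k : ℕ => C ((-1) ^ (k + 1) / 2 : ℝ) *
    (Block_M a ^ (2 * (k + 1))).trace) (aeval (fun p : Fin a × Fin a => P p.1 p.2) :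
      MvPolynomial (Fin a × Fin a) ℝ →ₐ[ℝ] S)
  have h2 := DFunLike.congr_fun h1 g
  rw [AlgHom.comp_apply] at h2
  rw [h2]
  have h3 : (fun k : ℕ => (aeval (fun p : Fin a × Fin a => P p.1 p.2) :
      MvPolynomial (Fin a × Fin a) ℝ →ₐ[ℝ] S) (C ((-1) ^ (k + 1) / 2 : ℝ) *
        (Block_M a ^ (2 * (k + 1))).trace)) =
      fun k : ℕ => algebraMap ℝ S ((-1) ^ (k + 1) / 2) * (P ^ (2 * (k + 1))).trace := by
    funext k
    rw [map_mul, Block_tr, aeval_C]
  rw [h3]

private theorem Block_eval_eq {σ : Type*} (f : σ → ℝ) (p : MvPolynomial σ ℝ) :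
    eval f p = (aeval f : MvPolynomial σ ℝ →ₐ[ℝ] ℝ) p := rfl

private theorem Block_conj_pow {a : ℕ} (O Y : Matrix (Fin a) (Fin a) ℝ) (hO : O * Oᵀ = 1)
    (n : ℕ) : (O * Y * Oᵀ) ^ n = O * Y ^ n * Oᵀ := by
  have hO' : Oᵀ * O = 1 := mul_eq_one_comm.1 hO
  induction n with
  | zero => rw [pow_zero, pow_zero, Matrix.mul_one, hO]
  | succ n ih =>
    rw [pow_succ, ih, pow_succ]
    calc O * Y ^ n * Oᵀ * (O * Y * Oᵀ) = O * Y ^ n * (Oᵀ * O) * Y * Oᵀ := by
          simp only [Matrix.mul_assoc]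
      _ = O * (Y ^ n * Y) * Oᵀ := by
          rw [hO']
          simp only [Matrix.mul_assoc, Matrix.one_mul]

private theorem Block_trace_conj {a : ℕ} (O Y : Matrix (Fin a) (Fin a) ℝ) (hO : O * Oᵀ = 1)
    (n : ℕ) : ((O * Y * Oᵀ) ^ n).trace = (Y ^ n).trace := by
  have hO' : Oᵀ * O = 1 := mul_eq_one_comm.1 hO
  rw [Block_conj_pow O Y hO, Matrix.trace_mul_comm, ← Matrix.mul_assoc, hO', Matrix.one_mul]

private theorem Block_H_inv {a : ℕ} (g : MvPolynomial ℕ ℝ) (O Y : Matrix (Fin a) (Fin a) ℝ)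
    (hO : O * Oᵀ = 1) :
    eval (fun p : Fin a × Fin a => (O * Y * Oᵀ) p.1 p.2) (Block_H a g) =
      eval (fun p : Fin a × Fin a => Y p.1 p.2) (Block_H a g) := by
  rw [Block_eval_eq, Block_eval_eq, Block_H_eval, Block_H_eval]
  simp only [Block_trace_conj O Y hO]

private theorem Block_H_tor {a : ℕ} (g : MvPolynomial ℕ ℝ) (x : Fin (a / 2) → ℝ) :
    eval (fun p : Fin a × Fin a => (tor x : Matrix (Fin a) (Fin a) ℝ) p.1 p.2) (Block_H a g) =
      eval (fun k => ∑ j, ((x j) ^ 2) ^ (k + 1)) g := by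
  rw [Block_eval_eq, Block_H_eval, Block_eval_eq]
  have h1 : (fun k : ℕ => algebraMap ℝ ℝ ((-1) ^ (k + 1) / 2) *
      ((tor x : Matrix (Fin a) (Fin a) ℝ) ^ (2 * (k + 1))).trace) =
      fun k => ∑ j, ((x j) ^ 2) ^ (k + 1) := by
    funext k
    rw [Block_trace_tor x (k + 1) (Nat.succ_pos k), Finset.mul_sum]
    refine Finset.sum_congr rfl fun j _ => ?_
    change (-1) ^ (k + 1) / 2 * (2 * (- (x j) ^ 2) ^ (k + 1)) = ((x j) ^ 2) ^ (k + 1)
    rw [neg_pow ((x j) ^ 2) (k + 1)]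
    have h2 : ((-1 : ℝ) ^ (k + 1)) * (-1) ^ (k + 1) = 1 := by
      rw [← mul_pow]
      norm_num
    calc (-1) ^ (k + 1) / 2 * (2 * ((-1) ^ (k + 1) * ((x j) ^ 2) ^ (k + 1)))
        = (((-1 : ℝ) ^ (k + 1)) * (-1) ^ (k + 1)) * ((x j) ^ 2) ^ (k + 1) := by ring
      _ = _ := by rw [h2, one_mul]
  rw [h1]

private theorem Block_H_nil {a : ℕ} (g : MvPolynomial ℕ ℝ) (S : Type) [CommRing S] [Algebra ℝ S]
    (P : Matrix (Fin a) (Fin a) S) (hP : ∀ k, 0 < k → (P ^ k).trace = 0) :
    (aeval (fun p : Fin a × Fin a => P p.1 p.2) : MvPolynomial (Fin a × Fin a) ℝ →ₐ[ℝ] S)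
      (Block_H a g) = algebraMap ℝ S (constantCoeff g) := by
  rw [Block_H_eval]
  have h1 : (fun k : ℕ => algebraMap ℝ S ((-1) ^ (k + 1) / 2) *
      (P ^ (2 * (k + 1))).trace) = fun _ => 0 := by
    funext k
    rw [hP _ (by omega), mul_zero]
  rw [h1, aeval_zero']

/-! orbit sums -/

private theorem Block_sg_sq (b : Bool) : sg b ^ 2 = 1 := by
  unfold sg
  cases b <;> norm_num

private theorem Block_sg_not (b : Bool) : sg (!b) = - sg b := by
  unfold sg
  cases b <;> norm_num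

open Classical in
private theorem Block_osum_eq {a : ℕ} (μ : Fin (a / 2) → ℕ) (x : Fin (a / 2) → ℝ) :
    osum μ x = ∑ σ : Equiv.Perm (Fin (a / 2)), ∑ s : Fin (a / 2) → Bool,
      (if (Even a → ∏ j, sg (s j) = 1) then ∏ j, (sg (s j) * x (σ j)) ^ μ j else 0) := by
  unfold osum WF
  rw [Finset.sum_filter, Fintype.sum_prod_type]

open Classical in
private noncomputable def Block_N (a : ℕ) : ℝ :=
  ∑ s : Fin (a / 2) → Bool, if (Even a → ∏ j, sg (s j) = 1) then 1 else 0

private theorem Block_osum_even {a : ℕ} (μ ν : Fin (a / 2) → ℕ) (hμ : ∀ j, μ j = 2 * ν j)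
    (x : Fin (a / 2) → ℝ) :
    osum μ x = Block_N a * ∑ σ : Equiv.Perm (Fin (a / 2)), ∏ j, ((x (σ j)) ^ 2) ^ ν j := by
  classical
  rw [Block_osum_eq, Finset.mul_sum]
  refine Finset.sum_congr rfl fun σ _ => ?_
  unfold Block_N
  rw [Finset.sum_mul]
  refine Finset.sum_congr rfl fun s _ => ?_
  split_ifs with h
  · rw [one_mul]
    refine Finset.prod_congr rfl fun j _ => ?_
    rw [hμ j, pow_mul, mul_pow, Block_sg_sq, one_mul]
  · rw [zero_mul]

private theorem Block_osum_odd {a : ℕ} (ha : Even a) (μ ν : Fin (a / 2) → ℕ)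
    (hμ : ∀ j, μ j = 2 * ν j + 1) (x : Fin (a / 2) → ℝ) :
    osum μ x = (∏ j, x j) *
      (Block_N a * ∑ σ : Equiv.Perm (Fin (a / 2)), ∏ j, ((x (σ j)) ^ 2) ^ ν j) := by
  classical
  rw [Block_osum_eq, Finset.mul_sum, Finset.mul_sum]
  refine Finset.sum_congr rfl fun σ _ => ?_
  unfold Block_N
  rw [Finset.sum_mul, Finset.mul_sum]
  refine Finset.sum_congr rfl fun s _ => ?_
  split_ifs with h
  · rw [one_mul]
    have h1 : ∏ j, (sg (s j) * x (σ j)) ^ μ j =
        ∏ j, (sg (s j) * (x (σ j) * ((x (σ j)) ^ 2) ^ ν j)) := by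
      refine Finset.prod_congr rfl fun j _ => ?_
      rw [hμ j, pow_succ, pow_mul, mul_pow, Block_sg_sq, one_mul]
      ring
    rw [h1, Finset.prod_mul_distrib, Finset.prod_mul_distrib, h ha, one_mul,
      Equiv.prod_comp σ x]
  · rw [zero_mul, mul_zero]

private theorem Block_osum_flip {a : ℕ} (F : Finset (Fin (a / 2))) (μ : Fin (a / 2) → ℕ)
    (h1 : Even a → ∏ _j ∈ F, (-1 : ℝ) = 1) (h2 : ∏ j ∈ F, (-1 : ℝ) ^ μ j = -1)
    (x : Fin (a / 2) → ℝ) : osum μ x = 0 := by
  classical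
  have hsg : ∀ (s : Fin (a / 2) → Bool) (j : Fin (a / 2)),
      sg (if j ∈ F then !(s j) else s j) = (if j ∈ F then -1 else 1) * sg (s j) := by
    intro s j
    split_ifs with h
    · rw [Block_sg_not]
      ring
    · rw [one_mul]
  have hprod : ∀ s : Fin (a / 2) → Bool, Even a →
      ∏ j, sg (if j ∈ F then !(s j) else s j) = ∏ j, sg (s j) := by
    intro s ha
    simp only [hsg]
    rw [Finset.prod_mul_distrib, Finset.prod_ite_mem, Finset.univ_inter, h1 ha, one_mul]
  let e : (Fin (a / 2) → Bool) ≃ (Fin (a / 2) → Bool) :=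
    { toFun := fun s j => if j ∈ F then !(s j) else s j
      invFun := fun s j => if j ∈ F then !(s j) else s j
      left_inv := fun s => by
        funext j
        by_cases h : j ∈ F
        · simp [h]
        · simp [h]
      right_inv := fun s => by
        funext j
        by_cases h : j ∈ F
        · simp [h]
        · simp [h] }
  have hmain : osum μ x = - osum μ x := by
    conv_lhs => rw [Block_osum_eq]
    rw [Block_osum_eq, ← Finset.sum_neg_distrib]
    refine Finset.sum_congr rfl fun σ _ => ?_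
    rw [← Finset.sum_neg_distrib, ← Equiv.sum_comp e]
    refine Finset.sum_congr rfl fun s _ => ?_
    have h3 : (Even a → ∏ j, sg (e s j) = 1) ↔ (Even a → ∏ j, sg (s j) = 1) := by
      constructor
      · intro h ha
        rw [← hprod s ha]
        exact h ha
      · intro h ha
        exact (hprod s ha).trans (h ha)
    by_cases h : (Even a → ∏ j, sg (s j) = 1)
    · rw [if_pos h, if_pos (h3.2 h)]
      have h4 : ∀ j, (sg (e s j) * x (σ j)) ^ μ j =
          (if j ∈ F then (-1 : ℝ) ^ μ j else 1) * (sg (s j) * x (σ j)) ^ μ j := by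
        intro j
        change (sg (if j ∈ F then !(s j) else s j) * x (σ j)) ^ μ j = _
        rw [hsg]
        split_ifs with h5
        · rw [← mul_pow]
          ring
        · ring
      simp only [h4]
      rw [Finset.prod_mul_distrib, Finset.prod_ite_mem, Finset.univ_inter, h2]
      ring
    · rw [if_neg h, if_neg (fun h' => h (h3.1 h')), neg_zero]
  linarith

theorem exists_block {a : ℕ} (μ : Fin (a / 2) → ℕ) :
    ∃ (G : MvPolynomial (Fin a × Fin a) ℝ) (c₀ c₁ : ℝ), (¬ Even a → c₁ = 0) ∧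
      (∀ O X : Matrix (Fin a) (Fin a) ℝ, O * Oᵀ = 1 → O.det = 1 →
        eval (fun p => (O * X * Oᵀ) p.1 p.2) G = eval (fun p => X p.1 p.2) G) ∧
      (∀ x : Fin (a / 2) → ℝ, eval (fun p => (tor x : Matrix (Fin a) (Fin a) ℝ) p.1 p.2) G =
        osum μ x) ∧
      (∀ (C : Type) [CommRing C] [Algebra ℝ C] (P : Matrix (Fin a) (Fin a) C), Pᵀ = -P →
        (∀ k, 0 < k → (P ^ k).trace = 0) →
        aeval (fun p => P p.1 p.2) G = algebraMap ℝ C c₀ + c₁ • pf P) := by
  classical
  by_cases hev : ∀ j, Even (μ j)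
  · -- all exponents even
    have h0 : ∀ j, ∃ ν, μ j = 2 * ν := fun j => by
      obtain ⟨r, hr⟩ := hev j
      exact ⟨r, by omega⟩
    choose ν hν using h0
    obtain ⟨g, hg⟩ := exists_psum ν
    refine ⟨C (Block_N a) * Block_H a g, Block_N a * constantCoeff g, 0, fun _ => rfl,
      ?_, ?_, ?_⟩
    · intro O Y hO _
      rw [map_mul, map_mul, eval_C, eval_C, Block_H_inv g O Y hO]
    · intro x
      rw [map_mul, eval_C, Block_H_tor, Block_osum_even μ ν hν, hg (fun j => (x j) ^ 2)]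
    · intro S _ _ P _ hP
      rw [map_mul, aeval_C, Block_H_nil g S P hP, zero_smul, add_zero, ← map_mul]
  · by_cases hodd : Even a ∧ ∀ j, ¬ Even (μ j)
    · obtain ⟨ha, hodd⟩ := hodd
      have h0 : ∀ j, ∃ ν, μ j = 2 * ν + 1 := fun j => by
        obtain ⟨r, hr⟩ := Nat.not_even_iff_odd.1 (hodd j)
        exact ⟨r, hr⟩
      choose ν hν using h0
      obtain ⟨g, hg⟩ := exists_psum ν
      obtain ⟨K, hK⟩ : ∃ K : ℝ, K = ((2 ^ (a / 2) * (a / 2).factorial : ℕ) : ℝ) := ⟨_, rfl⟩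
      have hK0 : K ≠ 0 := by
        rw [hK]
        have : 0 < 2 ^ (a / 2) * (a / 2).factorial :=
          Nat.mul_pos (Nat.pow_pos (by norm_num)) (Nat.factorial_pos _)
        exact_mod_cast this.ne'
      obtain ⟨c, hc⟩ : ∃ c : ℝ, c = K⁻¹ * Block_N a := ⟨_, rfl⟩
      refine ⟨C c * (pf (Block_M a) * Block_H a g), 0,
        c * constantCoeff g, fun h => absurd ha h, ?_, ?_, ?_⟩
      · intro O Y hO hdet
        rw [map_mul, map_mul, map_mul, map_mul, eval_C, eval_C, Block_H_inv g O Y hO]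
        have h1 : eval (fun p : Fin a × Fin a => (O * Y * Oᵀ) p.1 p.2) (pf (Block_M a)) =
            eval (fun p : Fin a × Fin a => Y p.1 p.2) (pf (Block_M a)) := by
          rw [Block_eval_eq, Block_eval_eq, Block_pf, Block_pf, pf_conj ha, hdet, one_mul]
        rw [h1]
      · intro x
        have h1 : eval (fun p : Fin a × Fin a => (tor x : Matrix (Fin a) (Fin a) ℝ) p.1 p.2)
            (pf (Block_M a)) = K * ∏ j, x j := by
          rw [Block_eval_eq, Block_pf, pf_tor ha, hK]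
        rw [map_mul, map_mul, eval_C, Block_H_tor, h1, Block_osum_odd ha μ ν hν,
          hg (fun j => (x j) ^ 2), hc]
        field_simp
      · intro S _ _ P _ hP
        rw [map_mul, map_mul, aeval_C, Block_H_nil g S P hP, Block_pf, map_zero, zero_add,
          Algebra.smul_def, map_mul (algebraMap ℝ S) c (constantCoeff g)]
        ring
    · -- the orbit sum is zero
      have hzero : ∀ x : Fin (a / 2) → ℝ, osum μ x = 0 := by
        rw [not_forall] at hev
        obtain ⟨j0, hj0⟩ := hev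
        have ho0 : (-1 : ℝ) ^ μ j0 = -1 := (Nat.not_even_iff_odd.1 hj0).neg_one_pow
        by_cases ha : Even a
        · have h1 : ∃ j1, Even (μ j1) := by
            by_contra h2
            exact hodd ⟨ha, fun j h3 => h2 ⟨j, h3⟩⟩
          obtain ⟨j1, hj1⟩ := h1
          have hne : j0 ≠ j1 := by
            rintro rfl
            exact hj0 hj1
          intro x
          refine Block_osum_flip {j0, j1} μ ?_ ?_ x
          · intro _
            rw [Finset.prod_pair hne]
            norm_num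
          · rw [Finset.prod_pair hne, ho0, hj1.neg_one_pow]
            norm_num
        · intro x
          refine Block_osum_flip {j0} μ (fun h => absurd h ha) ?_ x
          rw [Finset.prod_singleton, ho0]
      refine ⟨0, 0, 0, fun _ => rfl, ?_, ?_, ?_⟩
      · intro O Y _ _
        rw [map_zero, map_zero]
      · intro x
        rw [map_zero, hzero]
      · intro S _ _ P _ _
        rw [map_zero, map_zero, zero_smul, add_zero]

end Pool.Agent.ChN
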