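import Pool.Agent.ChN.Defs

/-!
# Functions of symmetric matrices

On the (finite) spectra of `M` and `N` the function `f` agrees with a polynomial `p`
(`Lagrange.interpolate`), `cfc f M = aeval M p` (`cfc_polynomial` or the spectral theorem
`Matrix.IsHermitian.cfc_eq`), and `p(M) B = B p(N)`.  The block statements follow from
`cfc_intertwine` (e.g. with the inclusions of the blocks) or directly from uniqueness.  For `smul`:
`M = U diag(l) Uᵀ` (or `cfc_comp`, `cfc_const_mul`).
-/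

namespace Pool.Agent.ChN

open Matrix

variable {ι κ : Type} [Fintype ι] [DecidableEq ι] [Fintype κ] [DecidableEq κ]

omit [Fintype ι] [DecidableEq ι] in
private theorem Cfc_sa (M : Matrix ι ι ℝ) (hM : Mᵀ = M) : IsSelfAdjoint M := by
  rw [IsSelfAdjoint, Matrix.star_eq_conjTranspose, Matrix.conjTranspose_eq_transpose_of_trivial]
  exact hM

private theorem Cfc_poly (S : Set ℝ) (hS : S.Finite) (f : ℝ → ℝ) :
    ∃ p : Polynomial ℝ, ∀ x ∈ S, p.eval x = f x := by
  refine ⟨Lagrange.interpolate hS.toFinset id f, fun x hx => ?_⟩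
  exact Lagrange.eval_interpolate_at_node f (Set.injOn_id _) (hS.mem_toFinset.2 hx)

private theorem Cfc_aeval (M : Matrix ι ι ℝ) (hM : Mᵀ = M) (f : ℝ → ℝ) (p : Polynomial ℝ)
    (h : ∀ x ∈ spectrum ℝ M, p.eval x = f x) : cfc f M = Polynomial.aeval M p := by
  have h1 : cfc f M = cfc p.eval M := cfc_congr fun x hx => (h x hx).symm
  rw [h1]
  exact cfc_polynomial p M (Cfc_sa M hM)

private theorem Cfc_poly_intertwine (M : Matrix ι ι ℝ) (N : Matrix κ κ ℝ)
    (B : Matrix ι κ ℝ) (h : M * B = B * N) (p : Polynomial ℝ) :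
    Polynomial.aeval M p * B = B * Polynomial.aeval N p := by
  have hpow : ∀ n : ℕ, M ^ n * B = B * N ^ n := by
    intro n
    induction n with
    | zero => simp
    | succ n ih => rw [pow_succ, Matrix.mul_assoc, h, ← Matrix.mul_assoc, ih, Matrix.mul_assoc,
        ← pow_succ]
  induction p using Polynomial.induction_on' with
  | add p q hp hq => rw [map_add, map_add, Matrix.add_mul, Matrix.mul_add, hp, hq]
  | monomial n a =>
    rw [Polynomial.aeval_monomial, Polynomial.aeval_monomial, Algebra.algebraMap_eq_smul_one,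
      Algebra.algebraMap_eq_smul_one, smul_one_mul, smul_one_mul, Matrix.smul_mul, hpow,
      Matrix.mul_smul]

theorem cfc_intertwine (M : Matrix ι ι ℝ) (N : Matrix κ κ ℝ) (hM : Mᵀ = M) (hN : Nᵀ = N)
    (B : Matrix ι κ ℝ) (h : M * B = B * N) (f : ℝ → ℝ) : cfc f M * B = B * cfc f N := by
  obtain ⟨p, hp⟩ := Cfc_poly (spectrum ℝ M ∪ spectrum ℝ N)
    (M.finite_real_spectrum.union N.finite_real_spectrum) f
  rw [Cfc_aeval M hM f p fun x hx => hp x (Or.inl hx),
    Cfc_aeval N hN f p fun x hx => hp x (Or.inr hx)]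
  exact Cfc_poly_intertwine M N B h p

theorem cfc_transpose (M : Matrix ι ι ℝ) (hM : Mᵀ = M) (f : ℝ → ℝ) : (cfc f M)ᵀ = cfc f M := by
  have h : IsSelfAdjoint (cfc f M) := cfc_predicate f M
  rw [IsSelfAdjoint, Matrix.star_eq_conjTranspose,
    Matrix.conjTranspose_eq_transpose_of_trivial] at h
  exact h

theorem cfc_reindex (e : ι ≃ κ) (M : Matrix ι ι ℝ) (hM : Mᵀ = M) (f : ℝ → ℝ) :
    cfc f (Matrix.reindex e e M) = Matrix.reindex e e (cfc f M) := by
  have hN : (Matrix.reindex e e M)ᵀ = Matrix.reindex e e M := by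
    rw [Matrix.transpose_reindex, hM]
  obtain ⟨p, hp⟩ := Cfc_poly (spectrum ℝ M ∪ spectrum ℝ (Matrix.reindex e e M))
    (M.finite_real_spectrum.union Matrix.finite_real_spectrum) f
  rw [Cfc_aeval M hM f p fun x hx => hp x (Or.inl hx),
    Cfc_aeval _ hN f p fun x hx => hp x (Or.inr hx)]
  exact Polynomial.aeval_algHom_apply (Matrix.reindexAlgEquiv ℝ ℝ e : Matrix ι ι ℝ →ₐ[ℝ] Matrix κ κ ℝ)
    M p

theorem cfc_fromBlocks (M : Matrix ι ι ℝ) (N : Matrix κ κ ℝ) (hM : Mᵀ = M) (hN : Nᵀ = N)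
    (f : ℝ → ℝ) : cfc f (Matrix.fromBlocks M 0 0 N) =
      Matrix.fromBlocks (cfc f M) 0 0 (cfc f N) := by
  have hMN : (Matrix.fromBlocks M 0 0 N)ᵀ = Matrix.fromBlocks M 0 0 N := by
    rw [Matrix.fromBlocks_transpose, hM, hN, Matrix.transpose_zero, Matrix.transpose_zero]
  obtain ⟨p, hp⟩ := Cfc_poly (spectrum ℝ M ∪ spectrum ℝ N ∪ spectrum ℝ (Matrix.fromBlocks M 0 0 N))
    ((M.finite_real_spectrum.union N.finite_real_spectrum).union Matrix.finite_real_spectrum) f
  rw [Cfc_aeval M hM f p fun x hx => hp x (Or.inl (Or.inl hx)),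
    Cfc_aeval N hN f p fun x hx => hp x (Or.inl (Or.inr hx)),
    Cfc_aeval _ hMN f p fun x hx => hp x (Or.inr hx)]
  clear hp
  have hpow : ∀ n : ℕ, (Matrix.fromBlocks M 0 0 N) ^ n = Matrix.fromBlocks (M ^ n) 0 0 (N ^ n) := by
    intro n
    induction n with
    | zero => simp
    | succ n ih => rw [pow_succ, ih, Matrix.fromBlocks_multiply]; simp [pow_succ]
  induction p using Polynomial.induction_on' with
  | add p q hp hq =>
    rw [map_add, map_add, map_add, hp, hq, Matrix.fromBlocks_add]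
    simp
  | monomial n a =>
    rw [Polynomial.aeval_monomial, Polynomial.aeval_monomial, Polynomial.aeval_monomial,
      Algebra.algebraMap_eq_smul_one, Algebra.algebraMap_eq_smul_one,
      Algebra.algebraMap_eq_smul_one, smul_one_mul, smul_one_mul, smul_one_mul, hpow,
      Matrix.fromBlocks_smul]
    simp

theorem cfc_blockDiagonal' {q : ℕ} {k : Fin q → ℕ} (M : ∀ j, Matrix (Fin (k j)) (Fin (k j)) ℝ)
    (hM : ∀ j, (M j)ᵀ = M j) (f : ℝ → ℝ) : cfc f (Matrix.blockDiagonal' M) =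
      Matrix.blockDiagonal' fun j => cfc f (M j) := by
  have hB : (Matrix.blockDiagonal' M)ᵀ = Matrix.blockDiagonal' M := by
    rw [Matrix.blockDiagonal'_transpose]
    exact congrArg _ (funext hM)
  obtain ⟨p, hp⟩ := Cfc_poly ((⋃ j, spectrum ℝ (M j)) ∪ spectrum ℝ (Matrix.blockDiagonal' M))
    ((Set.finite_iUnion fun j => (M j).finite_real_spectrum).union Matrix.finite_real_spectrum) f
  rw [Cfc_aeval _ hB f p fun x hx => hp x (Or.inr hx)]
  have h1 : (fun j => cfc f (M j)) = fun j => Polynomial.aeval (M j) p := by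
    funext j
    exact Cfc_aeval (M j) (hM j) f p fun x hx => hp x (Or.inl (Set.mem_iUnion.2 ⟨j, hx⟩))
  rw [h1]
  clear hp h1
  induction p using Polynomial.induction_on' with
  | add p q hp hq =>
    rw [map_add, hp, hq, ← Matrix.blockDiagonal'_add]
    congr 1
    funext j
    simp
  | monomial n a =>
    rw [Polynomial.aeval_monomial, Algebra.algebraMap_eq_smul_one, smul_one_mul,
      ← Matrix.blockDiagonal'_pow, ← Matrix.blockDiagonal'_smul]
    congr 1
    funext j
    rw [Polynomial.aeval_monomial, Algebra.algebraMap_eq_smul_one, smul_one_mul]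
    rfl

private theorem Cfc_pos (M : Matrix ι ι ℝ) (hM : M.PosDef) (x : ℝ) (hx : x ∈ spectrum ℝ M) :
    0 < x := by
  have h1 : x ∈ Set.range hM.isHermitian.eigenvalues := by
    rw [← hM.isHermitian.spectrum_real_eq_range_eigenvalues]
    exact hx
  obtain ⟨i, rfl⟩ := h1
  exact hM.eigenvalues_pos i

theorem cfc_rpow_smul (M : Matrix ι ι ℝ) (hM : M.PosDef) (s : ℝ) (hs : 0 < s) (t : ℝ) :
    cfc (fun x : ℝ => x ^ t) (s • M) = s ^ t • cfc (fun x : ℝ => x ^ t) M := by
  have hMs : IsSelfAdjoint M := hM.isHermitian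
  have hc : ∀ f : ℝ → ℝ, ContinuousOn f (spectrum ℝ M) := fun f =>
    M.finite_real_spectrum.continuousOn f
  rw [← cfc_comp_smul s (fun x : ℝ => x ^ t) M ((M.finite_real_spectrum.image _).continuousOn _) hMs,
    ← cfc_const_mul (s ^ t) (fun x : ℝ => x ^ t) M (hc _)]
  refine cfc_congr fun x hx => ?_
  show (s • x) ^ t = s ^ t * x ^ t
  rw [smul_eq_mul, Real.mul_rpow hs.le (Cfc_pos M hM x hx).le]

theorem cfc_log_smul (M : Matrix ι ι ℝ) (hM : M.PosDef) (s : ℝ) (hs : 0 < s) :
    cfc Real.log (s • M) = Real.log s • (1 : Matrix ι ι ℝ) + cfc Real.log M := by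
  have hMs : IsSelfAdjoint M := hM.isHermitian
  have hc : ∀ f : ℝ → ℝ, ContinuousOn f (spectrum ℝ M) := fun f =>
    M.finite_real_spectrum.continuousOn f
  rw [← cfc_comp_smul s Real.log M ((M.finite_real_spectrum.image _).continuousOn _) hMs,
    ← Algebra.algebraMap_eq_smul_one, ← cfc_const_add (Real.log s) Real.log M (hc _) hMs]
  refine cfc_congr fun x hx => ?_
  show Real.log (s • x) = Real.log s + Real.log x
  rw [smul_eq_mul, Real.log_mul hs.ne' (Cfc_pos M hM x hx).ne']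

/-- functions of `Bᵀ M B` for an isometry `B` onto an invariant subspace of `M` -/
theorem cfc_compress (M : Matrix ι ι ℝ) (hM : Mᵀ = M) (B : Matrix ι κ ℝ) (hB : Bᵀ * B = 1)
    (h : M * B = B * (Bᵀ * M * B)) (f : ℝ → ℝ) : cfc f (Bᵀ * M * B) = Bᵀ * cfc f M * B := by
  have hN : (Bᵀ * M * B)ᵀ = Bᵀ * M * B := by
    rw [Matrix.transpose_mul, Matrix.transpose_mul, Matrix.transpose_transpose, hM,
      ← Matrix.mul_assoc]
  have h1 := cfc_intertwine M (Bᵀ * M * B) hM hN B h f
  rw [Matrix.mul_assoc Bᵀ (cfc f M) B, h1, ← Matrix.mul_assoc, hB, Matrix.one_mul]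

end Pool.Agent.ChN
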