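import Pool.Agent.ChM.Pieces
import Pool.Agent.ChM.Defs

/-!
# Natural bundles of flat bundles: definitions
-/

namespace Pool.Agent.ChN

open Matrix Pool.Agent.ChP Pool.Agent.ChM

/-! ### Pfaffians -/

/-- the first index of the `j`-th pair -/
def lo2 {a : ℕ} (j : Fin (a / 2)) : Fin a := ⟨2 * j, by omega⟩

/-- the second index of the `j`-th pair -/
def hi2 {a : ℕ} (j : Fin (a / 2)) : Fin a := ⟨2 * j + 1, by omega⟩

/-- `2^m m!` times the Pfaffian of an antisymmetric matrix of size `a = 2 m`. -/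
def pf {a : ℕ} {R : Type*} [CommRing R] (X : Matrix (Fin a) (Fin a) R) : R :=
  ∑ σ : Equiv.Perm (Fin a), ((Equiv.Perm.sign σ : ℤ) : R) *
    ∏ j : Fin (a / 2), X (σ (lo2 j)) (σ (hi2 j))

/-- the standard maximal torus of the antisymmetric matrices -/
def tor {a : ℕ} {R : Type*} [CommRing R] (x : Fin (a / 2) → R) : Matrix (Fin a) (Fin a) R :=
  fun p q => ∑ j, ((if p = lo2 j ∧ q = hi2 j then x j else 0) -
    (if p = hi2 j ∧ q = lo2 j then x j else 0))

/-- sign of a Boolean -/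
def sg (b : Bool) : ℝ := if b then 1 else -1

/-- The Weyl group of `SO(a)`: permutations and sign changes, an even number of sign changes if
`a` is even. -/
noncomputable def WF (a : ℕ) : Finset (Equiv.Perm (Fin (a / 2)) × (Fin (a / 2) → Bool)) := by
  classical
  exact Finset.univ.filter fun w => Even a → ∏ j, sg (w.2 j) = 1

/-- orbit sum of a monomial -/
noncomputable def osum {a : ℕ} (μ : Fin (a / 2) → ℕ) (x : Fin (a / 2) → ℝ) : ℝ :=
  ∑ w ∈ WF a, ∏ j, (sg (w.2 j) * x (w.1 j)) ^ μ j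

/-! ### Curvature -/

/-- The curvature matrix of symmetric matrices `Y i` with respect to `ω i j = θ_i θ_j`. -/
noncomputable def curv {n : ℕ} {C : Type*} [CommRing C] [Algebra ℝ C] (ω : Fin n → Fin n → C)
    {ι : Type*} [Fintype ι] (Y : Fin n → Matrix ι ι ℝ) : Matrix ι ι C :=
  ∑ i, ∑ j, (Y i * Y j).map fun x => x • ω i j

/-! ### Tensor powers -/

/-- index set of the coordinates of `⊗ l, ℝ^(a (c l))` -/
abbrev TIx {r : ℕ} (a : Fin r → ℕ) {m : ℕ} (c : Fin m → Fin r) : Type := ∀ l : Fin m, Fin (a (c l))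

/-- the matrix of `⊗ l, g (c l)` on `⊗ l, ℝ^(a (c l))` -/
def kron {r : ℕ} {a : Fin r → ℕ} {m : ℕ} (c : Fin m → Fin r)
    (g : ∀ i, Matrix (Fin (a i)) (Fin (a i)) ℝ) : Matrix (TIx a c) (TIx a c) ℝ :=
  fun I J => ∏ l, g (c l) (I l) (J l)

/-- the derivative of `kron` at the identity -/
def dkron {r : ℕ} {a : Fin r → ℕ} {m : ℕ} (c : Fin m → Fin r)
    (A : ∀ i, Matrix (Fin (a i)) (Fin (a i)) ℝ) : Matrix (TIx a c) (TIx a c) ℝ :=
  fun I J => ∑ l, A (c l) (I l) (J l) * ∏ l' ∈ Finset.univ.erase l, if I l' = J l' then 1 else 0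

end Pool.Agent.ChN
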