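import Pool.Agent.ChN.Defs

/-!
# Multiplicative functions are trivial on special orthogonal matrices

It suffices to treat one block at a time: `O = ∏ i, (O i in the block i, 1 in the others)`.  For one
block: a special orthogonal matrix is a product of reflections (`LinearIsometryEquiv` statements
`reflections_generate_dim`, `reflections_generate`), the number of reflections is even (determinant), two reflections
are conjugate by an orthogonal matrix, and a reflection has square `1`; so `χ O` is
`χ(r)^(even) = 1`.  Alternatively: every matrix of determinant one is a product of transvections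
and diagonal matrices (`Matrix.Pivot...`), a transvection is a commutator, and diagonal matrices
with the same entries in another order are conjugate.  (`χ` takes values `≠ 0` on invertible
matrices because `χ (g * g⁻¹) = χ 1 = 1`.)
-/

namespace Pool.Agent.ChN

open Matrix

private theorem DetOne_transv {n : ℕ} (χ : Matrix (Fin n) (Fin n) ℝ → ℝ) (h1 : χ 1 = 1)
    (hmul : ∀ g h, χ (g * h) = χ g * χ h) {i j : Fin n} (hij : i ≠ j) (c : ℝ) :
    χ (transvection i j c) = 1 := by
  set d : Fin n → ℝ := Function.update 1 i 2 with hd
  set d' : Fin n → ℝ := Function.update 1 i (1 / 2) with hd'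
  have hdi : d i = 2 := Function.update_self _ _ _
  have hdj : ∀ k, k ≠ i → d k = 1 := fun k hk => Function.update_of_ne hk _ _
  have e1 : diagonal d * transvection i j c = transvection i j (c + c) * diagonal d := by
    ext a b
    rw [diagonal_mul, mul_diagonal]
    unfold transvection
    rw [Matrix.add_apply, Matrix.add_apply, Matrix.one_apply, Matrix.single_apply,
      Matrix.single_apply]
    by_cases hab : a = b
    · rw [if_pos hab, if_neg, if_neg, hab]
      · ring
      · rintro ⟨h, h'⟩
        exact hij (h.trans (hab.trans h'.symm))
      · rintro ⟨h, h'⟩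
        exact hij (h.trans (hab.trans h'.symm))
    · rw [if_neg hab]
      by_cases h : i = a ∧ j = b
      · rw [if_pos h, if_pos h, ← h.1, ← h.2, hdi, hdj j hij.symm]
        ring
      · rw [if_neg h, if_neg h]
        ring
  have e2 : diagonal d * diagonal d' = 1 := by
    rw [diagonal_mul_diagonal, ← diagonal_one]
    congr 1
    funext k
    by_cases hk : k = i
    · rw [hk, hdi, hd', Function.update_self]
      norm_num
    · rw [hdj k hk, hd', Function.update_of_ne hk, Pi.one_apply, mul_one]
  have e3 : transvection i j c * transvection i j (-c) = 1 := by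
    rw [transvection_mul_transvection_same _ _ hij, add_neg_cancel, transvection_zero]
  have hD : χ (diagonal d) ≠ 0 := by
    intro h
    have h2 := hmul (diagonal d) (diagonal d')
    rw [e2, h1, h, zero_mul] at h2
    exact one_ne_zero h2
  have hT : χ (transvection i j c) ≠ 0 := by
    intro h
    have h2 := hmul (transvection i j c) (transvection i j (-c))
    rw [e3, h1, h, zero_mul] at h2
    exact one_ne_zero h2
  have h3 := congrArg χ e1
  rw [← transvection_mul_transvection_same _ _ hij, hmul, hmul, hmul] at h3
  have h4 : χ (transvection i j c) * (χ (transvection i j c) * χ (diagonal d)) =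
      χ (transvection i j c) * (1 * χ (diagonal d)) := by
    linear_combination -h3
  exact mul_right_cancel₀ hD (mul_left_cancel₀ hT h4)

private theorem DetOne_perm {n : ℕ} (χ : Matrix (Fin n) (Fin n) ℝ → ℝ) (h1 : χ 1 = 1)
    (hmul : ∀ g h, χ (g * h) = χ g * χ h) (f : Fin n ≃ Fin n) (d : Fin n → ℝ) :
    χ (diagonal (d ∘ f)) = χ (diagonal d) := by
  have e1 : (f.toPEquiv.toMatrix : Matrix (Fin n) (Fin n) ℝ) * diagonal d *
      (f.symm.toPEquiv.toMatrix : Matrix (Fin n) (Fin n) ℝ) = diagonal (d ∘ f) := by
    rw [PEquiv.toMatrix_toPEquiv_mul, PEquiv.mul_toMatrix_toPEquiv, Equiv.symm_symm,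
      Matrix.submatrix_submatrix, ← submatrix_diagonal_equiv]
    rfl
  have e2 : (f.toPEquiv.toMatrix : Matrix (Fin n) (Fin n) ℝ) *
      (f.symm.toPEquiv.toMatrix : Matrix (Fin n) (Fin n) ℝ) = 1 := by
    rw [PEquiv.mul_toMatrix_toPEquiv, Equiv.symm_symm]
    ext a b
    rw [Matrix.submatrix_apply, PEquiv.toMatrix_apply, Matrix.one_apply]
    simp [eq_comm]
  have h2 := congrArg χ e2
  rw [hmul, h1] at h2
  rw [← e1, hmul, hmul]
  linear_combination χ (diagonal d) * h2

private theorem DetOne_diag {n : ℕ} (χ : Matrix (Fin n) (Fin n) ℝ → ℝ) (h1 : χ 1 = 1)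
    (hmul : ∀ g h, χ (g * h) = χ g * χ h) (i₀ : Fin n) (d : Fin n → ℝ) :
    χ (diagonal d) = χ (diagonal (Function.update 1 i₀ (∏ i, d i))) := by
  classical
  have hmv : ∀ (i : Fin n) (x : ℝ), χ (diagonal (Function.update 1 i x)) =
      χ (diagonal (Function.update 1 i₀ x)) := by
    intro i x
    rw [← DetOne_perm χ h1 hmul (Equiv.swap i₀ i) (Function.update 1 i x)]
    congr 2
    funext k
    rw [Function.comp_apply]
    by_cases hk : k = i₀
    · rw [hk, Equiv.swap_apply_left, Function.update_self, Function.update_self]
    · rw [Function.update_of_ne hk, Function.update_of_ne]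
      · rfl
      · intro h
        apply hk
        have h2 := congrArg (Equiv.swap i₀ i) h
        rwa [Equiv.swap_apply_self, Equiv.swap_apply_right] at h2
  have hmm : ∀ x y : ℝ, χ (diagonal (Function.update 1 i₀ (x * y))) =
      χ (diagonal (Function.update 1 i₀ x)) * χ (diagonal (Function.update 1 i₀ y)) := by
    intro x y
    rw [← hmul, diagonal_mul_diagonal]
    congr 2
    funext k
    by_cases hk : k = i₀
    · rw [hk, Function.update_self, Function.update_self, Function.update_self]
    · rw [Function.update_of_ne hk, Function.update_of_ne hk, Function.update_of_ne hk,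
        Pi.one_apply, mul_one]
  have key : ∀ F : Finset (Fin n), χ (diagonal (fun i => if i ∈ F then d i else 1)) =
      χ (diagonal (Function.update 1 i₀ (∏ i ∈ F, d i))) := by
    intro F
    induction F using Finset.induction_on with
    | empty =>
      rw [Finset.prod_empty]
      congr 2
      funext k
      by_cases hk : k = i₀
      · rw [hk, Function.update_self]
        simp
      · rw [Function.update_of_ne hk]
        simp
    | insert a F ha ih =>
      rw [Finset.prod_insert ha, hmm, ← ih, ← hmv a, ← hmul, diagonal_mul_diagonal]
      congr 2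
      funext k
      by_cases hk : k = a
      · rw [hk, Function.update_self, if_pos (Finset.mem_insert_self _ _), if_neg ha, mul_one]
      · rw [Function.update_of_ne hk, Pi.one_apply, one_mul]
        simp only [Finset.mem_insert, hk, false_or]
  have h3 := key Finset.univ
  simpa using h3

private theorem DetOne_single {n : ℕ} (χ : Matrix (Fin n) (Fin n) ℝ → ℝ) (h1 : χ 1 = 1)
    (hmul : ∀ g h, χ (g * h) = χ g * χ h) (M : Matrix (Fin n) (Fin n) ℝ) (hM : M.det = 1) :
    χ M = 1 := by
  rcases isEmpty_or_nonempty (Fin n) with hn | ⟨⟨i₀⟩⟩
  · rw [Subsingleton.elim M 1, h1]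
  have hone : χ (diagonal (Function.update 1 i₀ 1)) = 1 := by
    have e : (Function.update 1 i₀ 1 : Fin n → ℝ) = 1 := by
      funext k
      by_cases hk : k = i₀
      · rw [hk, Function.update_self, Pi.one_apply]
      · rw [Function.update_of_ne hk]
    rw [e]
    change χ (diagonal fun _ => 1) = 1
    rw [diagonal_one, h1]
  have key : χ M = χ (diagonal (Function.update 1 i₀ M.det)) := by
    apply diagonal_transvection_induction
      (fun A => χ A = χ (diagonal (Function.update 1 i₀ A.det)))
    · intro D _
      rw [det_diagonal]
      exact DetOne_diag χ h1 hmul i₀ D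
    · intro t
      rw [TransvectionStruct.det, hone]
      exact DetOne_transv χ h1 hmul t.hij t.c
    · intro A B hA hB
      rw [hmul, hA, hB, det_mul, ← hmul, diagonal_mul_diagonal]
      congr 2
      funext k
      by_cases hk : k = i₀
      · rw [hk, Function.update_self, Function.update_self, Function.update_self]
      · rw [Function.update_of_ne hk, Function.update_of_ne hk, Function.update_of_ne hk,
          Pi.one_apply, mul_one]
  rw [key, hM, hone]

theorem mult_eq_one {r : ℕ} {a : Fin r → ℕ} (χ : (∀ i, Matrix (Fin (a i)) (Fin (a i)) ℝ) → ℝ)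
    (h1 : χ 1 = 1) (hmul : ∀ g h, χ (g * h) = χ g * χ h)
    (O : ∀ i, Matrix (Fin (a i)) (Fin (a i)) ℝ) (hO : ∀ i, O i * (O i)ᵀ = 1)
    (hd : ∀ i, (O i).det = 1) : χ O = 1 := by
  classical
  have hblock : ∀ i (M : Matrix (Fin (a i)) (Fin (a i)) ℝ), M.det = 1 →
      χ (Function.update 1 i M) = 1 := by
    intro i M hM
    apply DetOne_single (fun A => χ (Function.update 1 i A)) _ _ M hM
    · change χ (Function.update 1 i 1) = 1
      have e : (Function.update 1 i 1 : ∀ i, Matrix (Fin (a i)) (Fin (a i)) ℝ) = 1 :=
        Function.update_eq_self i 1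
      rw [e, h1]
    · intro g h
      change χ (Function.update 1 i (g * h)) = χ (Function.update 1 i g) * χ (Function.update 1 i h)
      rw [← hmul]
      congr 1
      funext k
      rw [Pi.mul_apply]
      by_cases hk : k = i
      · subst hk
        rw [Function.update_self, Function.update_self, Function.update_self]
      · rw [Function.update_of_ne hk, Function.update_of_ne hk, Function.update_of_ne hk,
          Pi.one_apply, mul_one]
  have key : ∀ F : Finset (Fin r), χ (fun i => if i ∈ F then O i else 1) = 1 := by
    intro F
    induction F using Finset.induction_on with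
    | empty =>
      have e : (fun i => if i ∈ (∅ : Finset (Fin r)) then O i else 1) =
          (1 : ∀ i, Matrix (Fin (a i)) (Fin (a i)) ℝ) := by
        funext i
        rw [if_neg (Finset.notMem_empty i), Pi.one_apply]
      rw [e, h1]
    | insert i F hi ih =>
      have e : (fun k => if k ∈ insert i F then O k else 1) =
          (Function.update 1 i (O i) : ∀ i, Matrix (Fin (a i)) (Fin (a i)) ℝ) *
            (fun k => if k ∈ F then O k else 1) := by
        funext k
        rw [Pi.mul_apply]
        by_cases hk : k = i
        · subst hk
          rw [Function.update_self, if_pos (Finset.mem_insert_self _ _), if_neg hi, mul_one]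
        · rw [Function.update_of_ne hk, Pi.one_apply, one_mul]
          simp only [Finset.mem_insert, hk, false_or]
      rw [e, hmul, hblock i (O i) (hd i), ih, one_mul]
  have h3 := key Finset.univ
  simpa using h3

end Pool.Agent.ChN
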