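import Pool.Agent.ChM.Core
import Pool.Agent.ChN.Defs

/-!
# Conjugation and splitting

`noEul_conj`: `push (ρ γ) (gdens 1) = push g⁻¹ (push (ρ' γ) (push g (gdens 1)))`, `CC` of densities
pushed forward by `g⁻¹` is `± CC` (the sign of `det g`; see `ChP/CCBasic.lean`), and
`NoEul.sum_CC` (`ChM/Core.lean`) with `X = Γ`, `κ = id`, `μ x = push (ρ' x) (push g (gdens 1))`.
Note that `chi ρ = chi ρ'`.

`exists_split`: `ℝ^n = image q ⊕ ker p`, both invariant under all `ρ γ`; choose a basis of `ker p` (of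
dimension `k' = n - card ι`).
-/

namespace Pool.Agent.ChN

open MeasureTheory Matrix Pool.Agent.ChP Pool.Agent.ChM

theorem noEul_conj {n : ℕ} {Γ : Type} [Group Γ] (ρ ρ' : Γ →* Matrix (Fin n) (Fin n) ℝ)
    (g : Matrix (Fin n) (Fin n) ℝ) (hg : g.det ≠ 0) (h : ∀ γ, g * ρ γ = ρ' γ * g)
    (hno : NoEul ρ') : NoEul ρ := by
  have hgi : g⁻¹ * g = 1 := Matrix.nonsing_inv_mul g (isUnit_iff_ne_zero.2 hg)
  have hρ : ∀ γ, ρ γ = g⁻¹ * ρ' γ * g := by
    intro γ
    rw [Matrix.mul_assoc, ← h γ, ← Matrix.mul_assoc, hgi, Matrix.one_mul]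
  have hgd : (g⁻¹).det ≠ 0 := by
    rw [Matrix.det_nonsing_inv, Ring.inverse_eq_inv']
    exact inv_ne_zero hg
  have hdet : ∀ γ, (ρ γ).det = (ρ' γ).det := by
    intro γ
    have h1 := congrArg Matrix.det (h γ)
    rw [Matrix.det_mul, Matrix.det_mul, mul_comm] at h1
    exact mul_right_cancel₀ hg h1
  have hchi : chi ρ = chi ρ' := by
    funext γ
    simp only [chi, hdet γ]
  intro ι _ t m hW
  have hW' : WCycle (chi ρ') t m := by
    rw [← hchi]
    exact hW
  have h0 := NoEul.sum_CC hno (fun x : Γ => x) (fun γ x => rfl) t m hW'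
    (fun x => push (ρ' x) (push g (gdens (1 : Matrix (Fin n) (Fin n) ℝ))))
    (fun x => integrable_push (rep_det_ne_zero ρ' x)
      (integrable_push hg (integrable_gdens Matrix.PosDef.one)))
    (fun x => by
      rw [integral_push (rep_det_ne_zero ρ' x), integral_push hg,
        integral_gdens Matrix.PosDef.one])
    (fun γ x => by
      rw [smul_eq_mul, map_mul]
      exact (push_push _ _ _).symm)
  have h1 : ∀ k, CC (fun i => push (ρ (t k i)) (gdens (1 : Matrix (Fin n) (Fin n) ℝ))) =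
      Real.sign (g⁻¹).det * CC (fun i => push (ρ' (t k i))
        (push g (gdens (1 : Matrix (Fin n) (Fin n) ℝ)))) := by
    intro k
    rw [← CC_push g⁻¹ hgd]
    congr 1
    funext i
    rw [push_push, push_push, hρ, Matrix.mul_assoc]
  unfold eul
  simp only [h1]
  have h2 : ∀ k, m k * (Real.sign (g⁻¹).det * CC (fun i => push (ρ' (t k i))
        (push g (gdens (1 : Matrix (Fin n) (Fin n) ℝ))))) =
      Real.sign (g⁻¹).det * (m k * CC (fun i => push (ρ' (t k i))
        (push g (gdens (1 : Matrix (Fin n) (Fin n) ℝ))))) := fun k => by ring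
  simp only [h2]
  rw [← Finset.mul_sum, h0, mul_zero]

private theorem Split_ext {α β : Type} [Fintype α] [DecidableEq α] {M N : Matrix β α ℝ}
    (h : ∀ v : α → ℝ, M *ᵥ v = N *ᵥ v) : M = N := by
  ext i j
  have h1 := congrFun (h (Pi.single j 1)) i
  simpa using h1

private theorem Split_compl {n : ℕ} {ι : Type} [Fintype ι] [DecidableEq ι]
    (p : Matrix ι (Fin n) ℝ) (q : Matrix (Fin n) ι ℝ) (hpq : p * q = 1) :
    ∃ (k' : ℕ) (p' : Matrix (Fin k') (Fin n) ℝ) (q' : Matrix (Fin n) (Fin k') ℝ),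
      p * q' = 0 ∧ p' * q = 0 ∧ p' * q' = 1 ∧ q * p + q' * p' = 1 := by
  let K : Submodule ℝ (Fin n → ℝ) := LinearMap.ker (Matrix.mulVecLin p)
  have hpqv : ∀ w : ι → ℝ, p *ᵥ (q *ᵥ w) = w := by
    intro w
    rw [Matrix.mulVec_mulVec, hpq, Matrix.one_mulVec]
  have hK : ∀ v : Fin n → ℝ, v - q *ᵥ (p *ᵥ v) ∈ K := by
    intro v
    rw [LinearMap.mem_ker, Matrix.mulVecLin_apply, Matrix.mulVec_sub, hpqv, sub_self]
  let P : (Fin n → ℝ) →ₗ[ℝ] K :=
    LinearMap.codRestrict K (LinearMap.id - (Matrix.mulVecLin q).comp (Matrix.mulVecLin p)) hK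
  have hP : ∀ v, ((P v : K) : Fin n → ℝ) = v - q *ᵥ (p *ᵥ v) := fun v => rfl
  let b := Module.finBasis ℝ K
  let p' : Matrix (Fin (Module.finrank ℝ K)) (Fin n) ℝ :=
    LinearMap.toMatrix' (b.equivFun.toLinearMap.comp P)
  let q' : Matrix (Fin n) (Fin (Module.finrank ℝ K)) ℝ :=
    LinearMap.toMatrix' (K.subtype.comp b.equivFun.symm.toLinearMap)
  have hp' : ∀ v, p' *ᵥ v = b.equivFun (P v) := by
    intro v
    show (LinearMap.toMatrix' (b.equivFun.toLinearMap.comp P)) *ᵥ v = _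
    rw [LinearMap.toMatrix'_mulVec]
    rfl
  have hq' : ∀ w, q' *ᵥ w = ((b.equivFun.symm w : K) : Fin n → ℝ) := by
    intro w
    show (LinearMap.toMatrix' (K.subtype.comp b.equivFun.symm.toLinearMap)) *ᵥ w = _
    rw [LinearMap.toMatrix'_mulVec]
    rfl
  have hpk : ∀ x : K, p *ᵥ (x : Fin n → ℝ) = 0 := by
    intro x
    have := x.2
    rw [LinearMap.mem_ker, Matrix.mulVecLin_apply] at this
    exact this
  refine ⟨_, p', q', Split_ext fun v => ?_, Split_ext fun v => ?_, Split_ext fun v => ?_,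
    Split_ext fun v => ?_⟩
  · rw [← Matrix.mulVec_mulVec, hq', hpk, Matrix.zero_mulVec]
  · rw [← Matrix.mulVec_mulVec, hp', Matrix.zero_mulVec]
    have h1 : P (q *ᵥ v) = 0 := by
      apply Subtype.ext
      rw [hP, hpqv, sub_self]
      rfl
    rw [h1, map_zero]
  · rw [← Matrix.mulVec_mulVec, hp', hq', Matrix.one_mulVec]
    have h1 : P ((b.equivFun.symm v : K) : Fin n → ℝ) = b.equivFun.symm v := by
      apply Subtype.ext
      rw [hP, hpk, Matrix.mulVec_zero, sub_zero]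
    rw [h1, LinearEquiv.apply_symm_apply]
  · rw [Matrix.add_mulVec, ← Matrix.mulVec_mulVec, ← Matrix.mulVec_mulVec, hq', hp',
      LinearEquiv.symm_apply_apply, hP, Matrix.one_mulVec]
    abel

theorem exists_split {n : ℕ} {ι : Type} [Fintype ι] [DecidableEq ι] {Γ : Type} [Group Γ]
    (ρ : Γ →* Matrix (Fin n) (Fin n) ℝ) (p : Matrix ι (Fin n) ℝ) (q : Matrix (Fin n) ι ℝ)
    (τ : Γ → Matrix ι ι ℝ) (hpq : p * q = 1) (hp : ∀ γ, p * ρ γ = τ γ * p)
    (hq : ∀ γ, ρ γ * q = q * τ γ) :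
    ∃ (k' : ℕ) (e : ι ⊕ Fin k' ≃ Fin n) (g : Matrix (Fin n) (Fin n) ℝ)
      (Q : Γ → Matrix (Fin k') (Fin k') ℝ), g.det ≠ 0 ∧
      ∀ γ, g * ρ γ = Matrix.reindex e e (Matrix.fromBlocks (τ γ) 0 0 (Q γ)) * g := by
  obtain ⟨k', p', q', h1, h2, h3, h4⟩ := Split_compl p q hpq
  have hAB : Matrix.fromRows p p' * Matrix.fromCols q q' = 1 := by
    rw [Matrix.fromRows_mul_fromCols, hpq, h1, h2, h3, Matrix.fromBlocks_one]
  have hBA : Matrix.fromCols q q' * Matrix.fromRows p p' = 1 := by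
    rw [Matrix.fromCols_mul_fromRows, h4]
  have hcard : Fintype.card (ι ⊕ Fin k') = n := by
    have := Matrix.square_of_invertible _ _ hAB hBA
    simpa using this
  let e : ι ⊕ Fin k' ≃ Fin n := Fintype.equivFinOfCardEq hcard
  refine ⟨k', e, (Matrix.fromRows p p').submatrix e.symm id,
    fun γ => p' * ρ γ * q', ?_, fun γ => ?_⟩
  · intro hd
    have h5 : (Matrix.fromRows p p').submatrix e.symm id *
        (Matrix.fromCols q q').submatrix id e.symm = 1 := by
      have h50 := Matrix.submatrix_mul_equiv (Matrix.fromRows p p') (Matrix.fromCols q q')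
        e.symm (Equiv.refl (Fin n)) e.symm
      rw [hAB, Matrix.submatrix_one_equiv] at h50
      exact h50
    have h6 := congrArg Matrix.det h5
    rw [Matrix.det_mul, hd, zero_mul, Matrix.det_one] at h6
    exact zero_ne_one h6
  · have h7 : p' * ρ γ = p' * ρ γ * q' * p' := by
      have h8 : p' * ρ γ * (q * p + q' * p') = p' * ρ γ := by rw [h4, Matrix.mul_one]
      rw [Matrix.mul_add] at h8
      have h9 : p' * ρ γ * (q * p) = 0 := by
        rw [Matrix.mul_assoc, ← Matrix.mul_assoc (ρ γ), hq, ← Matrix.mul_assoc,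
          ← Matrix.mul_assoc, h2, Matrix.zero_mul, Matrix.zero_mul]
      rw [h9, zero_add, ← Matrix.mul_assoc] at h8
      exact h8.symm
    have h10 : Matrix.fromRows p p' * ρ γ =
        Matrix.fromBlocks (τ γ) 0 0 (p' * ρ γ * q') * Matrix.fromRows p p' := by
      rw [Matrix.fromRows_mul, Matrix.fromBlocks_mul_fromRows, Matrix.zero_mul, Matrix.zero_mul,
        add_zero, zero_add, hp, ← h7]
    rw [Matrix.reindex_apply, Matrix.submatrix_mul_equiv, ← h10]
    rfl

end Pool.Agent.ChN
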