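import Pool.Agent.ChN.Big
import Pool.Agent.ChN.Basis
import Pool.Agent.ChN.Split
import Pool.Agent.ChM.Chain
import Pool.Agent.ChM.Index
import Pool.Agent.ChM.Iter
import Pool.Agent.ChP.Restrict

/-!
# Natural bundles: final theorem
-/

namespace Pool.Agent.ChN

open Matrix Pool.Agent.ChP Pool.Agent.ChM

/-- The action `τ` of `G` on `ℝ^k` is natural with respect to the linear representations `φ i` of `G`
on `ℝ^(a i)`: it is isomorphic, up to scalars, to the action of `G` on a subspace `U` of a tensor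
product `⊗ l, ℝ^(a (c l))` which is invariant under all `(g i)`, `g i ∈ GL(a i, ℝ)`. -/
def IsNatural {G : Type} {r : ℕ} {a : Fin r → ℕ} (φ : G → ∀ i, Matrix (Fin (a i)) (Fin (a i)) ℝ)
    {k : ℕ} (τ : G → Matrix (Fin k) (Fin k) ℝ) : Prop :=
  ∃ (m : ℕ) (c : Fin m → Fin r) (U : Submodule ℝ (TIx a c → ℝ)) (f : (Fin k → ℝ) ≃ₗ[ℝ] U)
    (s : G → ℝ),
    (∀ g : ∀ i, Matrix (Fin (a i)) (Fin (a i)) ℝ, (∀ i, (g i).det ≠ 0) →
      ∀ t ∈ U, kron c g *ᵥ t ∈ U) ∧
    (∀ x, s x ≠ 0) ∧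
    ∀ x v, (f (τ x *ᵥ v) : TIx a c → ℝ) = s x • kron c (φ x) *ᵥ (f v : TIx a c → ℝ)

private theorem final_mat_ext {k m : Type} [Fintype k] [Fintype m] [DecidableEq k]
    {A B : Matrix m k ℝ} (h : ∀ v, A *ᵥ v = B *ᵥ v) : A = B := by
  apply Matrix.toLin'.injective
  refine LinearMap.ext fun v => ?_
  rw [Matrix.toLin'_apply, Matrix.toLin'_apply]
  exact h v

/-- the data of natural actions in orthonormal bases -/
private theorem final_data {G : Type} {r : ℕ} {a : Fin r → ℕ}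
    (φ : G → ∀ i, Matrix (Fin (a i)) (Fin (a i)) ℝ) {q : ℕ} {k : Fin q → ℕ}
    (τ : G → ∀ j, Matrix (Fin (k j)) (Fin (k j)) ℝ)
    (h : ∀ j, IsNatural φ fun x => τ x j) :
    ∃ (D : NatData a k) (X : ∀ j, Matrix (Fin (k j)) (Fin (k j)) ℝ) (s : G → Fin q → ℝ),
      (∀ j, (X j).det ≠ 0) ∧ (∀ x j, s x j ≠ 0) ∧
      ∀ x j, X j * τ x j = (s x j • rho D (φ x) j) * X j := by
  choose m c U f s hU hs hf using h
  choose B X hB hX hBX hinv using fun j => exists_basis (c j) (U j) (hU j) (f j)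
  refine ⟨⟨m, c, B, hB, hinv⟩, X, fun x j => s j x, hX, fun x j => hs j x, fun x j => ?_⟩
  apply final_mat_ext
  intro v
  have h1 := hf j x v
  rw [hBX j, hBX j] at h1
  have h2 : (B j)ᵀ *ᵥ (B j *ᵥ (X j *ᵥ (τ x j *ᵥ v))) =
      (B j)ᵀ *ᵥ (s j x • kron (c j) (φ x) *ᵥ (B j *ᵥ (X j *ᵥ v))) := by
    rw [h1]
  rw [Matrix.mulVec_mulVec, hB j, Matrix.one_mulVec, Matrix.mulVec_mulVec] at h2
  rw [h2]
  show _ = ((s j x • ((B j)ᵀ * kron (c j) (φ x) * B j)) * X j) *ᵥ v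
  simp only [Matrix.mulVec_mulVec, Matrix.smul_mul, Matrix.mul_assoc,
    Matrix.smul_mulVec, Matrix.mulVec_smul]

private theorem final_no {n : ℕ} {r : ℕ} {a : Fin r → ℕ} {q : ℕ} {k : Fin q → ℕ} {Γ : Type}
    [Group Γ] (ρ : Γ →* Matrix (Fin n) (Fin n) ℝ)
    (φ : ∀ i, Γ →* Matrix (Fin (a i)) (Fin (a i)) ℝ)
    (τ : Γ → ∀ j, Matrix (Fin (k j)) (Fin (k j)) ℝ)
    (h : ∀ j, IsNatural (fun (x : Γ) i => φ i x) fun x => τ x j)
    (hd : ∀ J : Finset (Fin r), (∀ i ∈ J, Even (a i)) → ∑ i ∈ J, a i ≠ ∑ j, k j)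
    (p : Matrix (Σ j, Fin (k j)) (Fin n) ℝ) (w : Matrix (Fin n) (Σ j, Fin (k j)) ℝ)
    (hpw : p * w = 1) (hp : ∀ γ, p * ρ γ = Matrix.blockDiagonal' (τ γ) * p)
    (hw : ∀ γ, ρ γ * w = w * Matrix.blockDiagonal' (τ γ)) : NoEul ρ := by
  obtain ⟨D, X, s, hX, hs, hτ⟩ := final_data (fun (x : Γ) i => φ i x) τ h
  obtain ⟨k', e, g, Q, hg, hgρ⟩ := exists_split ρ p w (fun γ => Matrix.blockDiagonal' (τ γ)) hpw
    hp hw
  -- change of basis in the blocks
  set Y : Matrix (Fin n) (Fin n) ℝ :=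
    Matrix.reindex e e (Matrix.fromBlocks (Matrix.blockDiagonal' X) 0 0 1) with hY
  have hmul : ∀ (A A' : Matrix (Σ j, Fin (k j)) (Σ j, Fin (k j)) ℝ)
      (B B' : Matrix (Fin k') (Fin k') ℝ),
      Matrix.reindex e e (Matrix.fromBlocks A 0 0 B) * Matrix.reindex e e
        (Matrix.fromBlocks A' 0 0 B') =
        Matrix.reindex e e (Matrix.fromBlocks (A * A') 0 0 (B * B')) := by
    intro A A' B B'
    rw [Matrix.reindex_apply, Matrix.reindex_apply, Matrix.reindex_apply,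
      Matrix.submatrix_mul_equiv, Matrix.fromBlocks_multiply]
    simp
  have hYdet : Y.det ≠ 0 := by
    intro h0
    have h1 : Y * Matrix.reindex e e (Matrix.fromBlocks
        (Matrix.blockDiagonal' fun j => (X j)⁻¹) 0 0 1) = 1 := by
      rw [hY, hmul, ← Matrix.blockDiagonal'_mul, Matrix.one_mul]
      have h2 : (fun j => X j * (X j)⁻¹) = fun j => (1 : Matrix (Fin (k j)) (Fin (k j)) ℝ) := by
        funext j
        exact Matrix.mul_nonsing_inv _ (isUnit_iff_ne_zero.2 (hX j))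
      have h3 : Matrix.blockDiagonal' (fun j => X j * (X j)⁻¹) =
          (1 : Matrix (Σ j, Fin (k j)) (Σ j, Fin (k j)) ℝ) := by
        rw [h2]
        exact Matrix.blockDiagonal'_one
      rw [h3, Matrix.fromBlocks_one, Matrix.reindex_apply, Matrix.submatrix_one_equiv]
    have h2 := congrArg Matrix.det h1
    rw [Matrix.det_mul, h0, zero_mul, Matrix.det_one] at h2
    exact zero_ne_one h2
  set G : Matrix (Fin n) (Fin n) ℝ := Y * g with hG
  have hGdet : G.det ≠ 0 := by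
    rw [hG, Matrix.det_mul]
    exact mul_ne_zero hYdet hg
  have hGu : IsUnit G.det := isUnit_iff_ne_zero.2 hGdet
  have hbig : ∀ γ, G * ρ γ = big D e (fun i => φ i γ) (s γ) (Q γ) * G := by
    intro γ
    rw [hG, Matrix.mul_assoc, hgρ γ, ← Matrix.mul_assoc, ← Matrix.mul_assoc, big, hY, hmul, hmul,
      Matrix.one_mul, Matrix.mul_one]
    congr 3
    rw [← Matrix.blockDiagonal'_mul, ← Matrix.blockDiagonal'_mul]
    congr 1
    funext j
    exact hτ γ j
  set ρ' : Γ →* Matrix (Fin n) (Fin n) ℝ :=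
    { toFun := fun γ => G * ρ γ * G⁻¹
      map_one' := by rw [map_one, Matrix.mul_one, Matrix.mul_nonsing_inv _ hGu]
      map_mul' := by
        intro x y
        rw [map_mul]
        have h2 : G * ρ x * G⁻¹ * (G * ρ y * G⁻¹) = G * ρ x * (G⁻¹ * G) * ρ y * G⁻¹ := by
          simp only [Matrix.mul_assoc]
        rw [h2, Matrix.nonsing_inv_mul _ hGu, Matrix.mul_one]
        simp only [Matrix.mul_assoc] } with hρ'
  have hρ'1 : ∀ γ, ρ' γ = big D e (fun i => φ i γ) (s γ) (Q γ) := by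
    intro γ
    show G * ρ γ * G⁻¹ = _
    rw [hbig γ, Matrix.mul_assoc, Matrix.mul_nonsing_inv _ hGu, Matrix.mul_one]
  have hρ'2 : ∀ γ, G * ρ γ = ρ' γ * G := by
    intro γ
    rw [hρ'1, hbig γ]
  refine noEul_conj ρ ρ' G hGdet hρ'2 ?_
  refine noEul_big D e hd ρ' (fun γ i => φ i γ) s Q (fun γ i => rep_det_ne_zero (φ i) γ) hs
    (fun γ hQ => ?_) hρ'1
  have h1 := rep_det_ne_zero ρ' γ
  rw [hρ'1, big, Matrix.det_reindex_self, Matrix.det_fromBlocks_zero₂₁, hQ, mul_zero] at h1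
  exact h1 rfl

theorem final {n : ℕ} (K : AffineTriangulation n) (hχ : K.eulerChar ≠ 0) (H : Subgroup K.Γ)
    (hH : H.FiniteIndex) (P : Pieces K H) {r : ℕ} {a : Fin r → ℕ}
    (φ : ∀ i, H →* Matrix (Fin (a i)) (Fin (a i)) ℝ)
    (hP : ∀ j, IsNatural (fun (γ : H) i => φ i γ) (fun γ : H => P.τ γ j)) :
    ∃ J : Finset (Fin r), (∀ i ∈ J, Even (a i)) ∧ ∑ i ∈ J, a i = ∑ j, P.k j := by
  by_contra hcon
  push Not at hcon
  apply hχ
  have hlin : ∀ (γ : H) (v : Fin n → ℝ), (K.restrict H).lin γ *ᵥ v =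
      (K.hol (γ : K.Γ)).linear v := by
    intro γ v
    have : (K.restrict H).lin γ =
        LinearMap.toMatrix' ((K.hol (γ : K.Γ)).linear : (Fin n → ℝ) →ₗ[ℝ] (Fin n → ℝ)) := rfl
    rw [this, ← Matrix.toLin'_apply, Matrix.toLin'_toMatrix']
    rfl
  obtain ⟨ρ₀, p, w, hpw, hp, hw, hlim⟩ := exists_chain (Γ := H) (K.restrict H).lin P.W
    (fun j => (Matrix.mulVecLin (P.π j)).comp (P.W j).subtype)
    (fun j x => by
      obtain ⟨v, hv, hx⟩ := P.surj j x
      exact ⟨⟨v, hv⟩, hx⟩)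
    (fun i j hij v hv => ⟨(P.chain i j hij v hv).1, (P.chain i j hij v hv).2⟩)
    (fun γ j => P.τ γ j) (by
      intro γ j v hv
      obtain ⟨h1, h2⟩ := P.act γ γ.2 j v hv
      have h3 : (K.restrict H).lin γ *ᵥ v = dhol K (γ : K.Γ) v := hlin γ v
      have h' : (K.restrict H).lin γ *ᵥ v ∈ P.W j := by
        rw [h3]
        exact h1
      refine ⟨h', ?_⟩
      show P.π j *ᵥ ((K.restrict H).lin γ *ᵥ v) = _
      rw [h3]
      exact h2)
  have hno : NoEul ρ₀ := final_no ρ₀ φ (fun γ j => P.τ γ j) hP hcon p w hpw hp hw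
  have hn : 0 < n := by
    rcases Nat.eq_zero_or_pos n with h0 | hn
    · subst h0
      exfalso
      apply hcon ∅ (by simp)
      rw [Finset.sum_empty]
      symm
      apply Finset.sum_eq_zero
      intro j _
      by_contra hk
      have hk' : 0 < P.k j := Nat.pos_of_ne_zero hk
      have h1 : (p * w) ⟨j, ⟨0, hk'⟩⟩ ⟨j, ⟨0, hk'⟩⟩ = 1 := by rw [hpw, Matrix.one_apply_eq]
      rw [Matrix.mul_apply] at h1
      simp at h1
    · exact hn
  have h1 := eulerChar_eq_zero_of_noEul (K.restrict H) hn 1 (fun γ => one_pos)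
    (scaleRep 1 (K.restrict H).lin) (fun γ => rfl) (hlim 1 (by
      have : scaleRep (1 : H →* ℝ) ρ₀ = ρ₀ := by
        ext γ : 1
        show (1 : ℝ) • ρ₀ γ = ρ₀ γ
        rw [one_smul]
      rw [this]
      exact hno))
  rw [K.restrict_eulerChar H] at h1
  rcases mul_eq_zero.1 h1 with h2 | h2
  · exfalso
    have := hH.index_ne_zero
    exact this (by exact_mod_cast h2)
  · exact h2

end Pool.Agent.ChN
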