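import Pool.Agent.ChN.Defs

/-!
# Normal form of antisymmetric matrices

`exists_normal_form`: induction on `a` (step `a → a + 2`).  The symmetric matrix `X * X` has an
eigenvector `v`, `|v| = 1`, `X X v = -c v` with `c = |X v|^2`.  If `X v = x w`, `x ≠ 0`, `|w| = 1`,
then `v, w` are orthonormal and span an invariant plane; if `X v = 0` choose another eigenvector
or any unit vector `w` in the kernel (the kernel has dimension `≥ 2` or `X` has an invariant
plane: e.g. choose `v` in the image of `X` if `X ≠ 0`).  Extend to an orthonormal basis and use the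
induction hypothesis on the complement.  Alternatively use the spectral theorem for the hermitian
matrix `i X`.  The determinant of `O` is made `1` by changing the sign of the last column of `O`:
if `a` is odd the last row and column of `tor x` vanish, if `a` is even (and positive) this
changes the sign of `x j`, `j = a / 2 - 1`.

`exists_weyl`: permutation matrices of permutations of the pairs (even permutations) and diagonal
matrices with entries `± 1`, on the last index if `a` is odd.
-/

namespace Pool.Agent.ChN

open Matrix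
open scoped InnerProductSpace

/-- value of the torus matrix in terms of natural numbers -/
private def nfTor (x : ℕ → ℝ) (p q : ℕ) : ℝ :=
  (if p % 2 = 0 ∧ q = p + 1 then x (p / 2) else 0) -
    (if q % 2 = 0 ∧ p = q + 1 then x (q / 2) else 0)

private theorem nf_tor_eq {a : ℕ} (x : ℕ → ℝ) (p q : Fin a) :
    tor (fun j : Fin (a / 2) => x j.1) p q = nfTor x p.1 q.1 := by
  unfold tor nfTor
  rw [Finset.sum_sub_distrib]
  congr 1
  · split_ifs with h
    · have hj : p.1 / 2 < a / 2 := by have := q.2; omega
      rw [Finset.sum_eq_single (⟨p.1 / 2, hj⟩ : Fin (a / 2))]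
      · rw [if_pos]
        constructor
        · apply Fin.ext; simp only [lo2]; omega
        · apply Fin.ext; simp only [hi2]; omega
      · intro j _ hne
        rw [if_neg]
        rintro ⟨h1, h2⟩
        apply hne
        apply Fin.ext
        have := congrArg Fin.val h1
        simp only [lo2] at this
        simp only
        omega
      · intro h; exact absurd (Finset.mem_univ _) h
    · apply Finset.sum_eq_zero
      intro j _
      rw [if_neg]
      rintro ⟨h1, h2⟩
      apply h
      have h3 := congrArg Fin.val h1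
      have h4 := congrArg Fin.val h2
      simp only [lo2, hi2] at h3 h4
      omega
  · split_ifs with h
    · have hj : q.1 / 2 < a / 2 := by have := p.2; omega
      rw [Finset.sum_eq_single (⟨q.1 / 2, hj⟩ : Fin (a / 2))]
      · rw [if_pos]
        constructor
        · apply Fin.ext; simp only [hi2]; omega
        · apply Fin.ext; simp only [lo2]; omega
      · intro j _ hne
        rw [if_neg]
        rintro ⟨h1, h2⟩
        apply hne
        apply Fin.ext
        have := congrArg Fin.val h2
        simp only [lo2] at this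
        simp only
        omega
      · intro h; exact absurd (Finset.mem_univ _) h
    · apply Finset.sum_eq_zero
      intro j _
      rw [if_neg]
      rintro ⟨h1, h2⟩
      apply h
      have h3 := congrArg Fin.val h1
      have h4 := congrArg Fin.val h2
      simp only [lo2, hi2] at h3 h4
      omega

private theorem nf_antisymm (x : ℕ → ℝ) (p q : ℕ) : nfTor x p q = - nfTor x q p := by
  unfold nfTor; ring

/-- the eigenplane -/
private theorem nf_plane {V : Type} [NormedAddCommGroup V] [InnerProductSpace ℝ V]
    [FiniteDimensional ℝ V] (T : V →ₗ[ℝ] V) (hT : ∀ u v, ⟪T u, v⟫_ℝ = - ⟪u, T v⟫_ℝ)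
    (h0 : T ≠ 0) :
    ∃ (v w : V) (x : ℝ), ‖v‖ = 1 ∧ ‖w‖ = 1 ∧ ⟪v, w⟫_ℝ = 0 ∧ T v = (-x) • w ∧ T w = x • v := by
  have hS : (T ∘ₗ T).IsSymmetric := by
    intro u v
    simp only [LinearMap.comp_apply]
    rw [hT, hT]; ring
  obtain ⟨i, hi⟩ : ∃ i, T (hS.eigenvectorBasis rfl i) ≠ 0 := by
    by_contra hcon
    push Not at hcon
    apply h0
    apply (hS.eigenvectorBasis rfl).toBasis.ext
    intro i
    rw [OrthonormalBasis.coe_toBasis, hcon i]
    simp
  set v := hS.eigenvectorBasis rfl i with hv
  have hvn : ‖v‖ = 1 := (hS.eigenvectorBasis rfl).orthonormal.1 i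
  have hev : T (T v) = (hS.eigenvalues rfl i) • v := by
    have := hS.apply_eigenvectorBasis rfl i
    rw [LinearMap.comp_apply] at this
    exact this
  have hvv : ⟪v, T v⟫_ℝ = 0 := by
    have h1 := hT v v
    rw [real_inner_comm] at h1
    linarith
  have hTv : ‖T v‖ ≠ 0 := norm_ne_zero_iff.2 hi
  have hlam : hS.eigenvalues rfl i = - ‖T v‖ ^ 2 := by
    have h1 : ⟪T (T v), v⟫_ℝ = - ⟪T v, T v⟫_ℝ := hT _ _
    rw [hev, inner_smul_left, real_inner_self_eq_norm_sq, real_inner_self_eq_norm_sq, hvn] at h1
    simpa using h1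
  refine ⟨v, (‖T v‖)⁻¹ • T v, - ‖T v‖, hvn, ?_, ?_, ?_, ?_⟩
  · rw [norm_smul, norm_inv, norm_norm, inv_mul_cancel₀ hTv]
  · rw [inner_smul_right, hvv, mul_zero]
  · rw [smul_smul, neg_neg, mul_inv_cancel₀ hTv, one_smul]
  · rw [map_smul, hev, hlam, smul_smul]
    congr 1
    field_simp

private theorem nf_main (m : ℕ) : ∀ {V : Type} [NormedAddCommGroup V] [InnerProductSpace ℝ V]
    [FiniteDimensional ℝ V] (_ : Module.finrank ℝ V = m) (T : V →ₗ[ℝ] V)
    (_ : ∀ u v, ⟪T u, v⟫_ℝ = - ⟪u, T v⟫_ℝ),
    ∃ (b : ℕ → V) (x : ℕ → ℝ), (∀ p < m, ∀ q < m, ⟪b p, b q⟫_ℝ = if p = q then 1 else 0) ∧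
      ∀ p < m, ∀ q < m, ⟪b p, T (b q)⟫_ℝ = nfTor x p q := by
  induction m using Nat.strong_induction_on with
  | _ m ih =>
  intro V _ _ _ hV T hT
  by_cases h0 : T = 0
  · subst hV
    refine ⟨fun p => if h : p < Module.finrank ℝ V then stdOrthonormalBasis ℝ V ⟨p, h⟩ else 0,
      0, ?_, ?_⟩
    · intro p hp q hq
      dsimp only
      rw [dif_pos hp, dif_pos hq]
      have := orthonormal_iff_ite.1 (stdOrthonormalBasis ℝ V).orthonormal ⟨p, hp⟩ ⟨q, hq⟩
      rw [this]
      simp [Fin.ext_iff]
    · intro p hp q hq
      rw [h0]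
      simp [nfTor]
  · obtain ⟨v, w, x, hv, hw, hvw, hTv, hTw⟩ := nf_plane T hT h0
    set P : Submodule ℝ V := Submodule.span ℝ (Set.range ![v, w]) with hP
    have hon : Orthonormal ℝ ![v, w] := by
      rw [orthonormal_iff_ite]
      intro i j
      have h1 : ⟪v, v⟫_ℝ = 1 := by rw [real_inner_self_eq_norm_sq, hv]; norm_num
      have h2 : ⟪w, w⟫_ℝ = 1 := by rw [real_inner_self_eq_norm_sq, hw]; norm_num
      have h3 : ⟪w, v⟫_ℝ = 0 := by rw [real_inner_comm]; exact hvw
      fin_cases i <;> fin_cases j <;> simp [hvw, h3, hv, hw]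
    have hfP : Module.finrank ℝ P = 2 := by
      rw [hP, finrank_span_eq_card hon.linearIndependent]; simp
    have hsum := P.finrank_add_finrank_orthogonal
    have hvP : v ∈ P := Submodule.subset_span ⟨0, rfl⟩
    have hwP : w ∈ P := Submodule.subset_span ⟨1, rfl⟩
    have hPo : ∀ u ∈ Pᗮ, ⟪v, u⟫_ℝ = 0 ∧ ⟪w, u⟫_ℝ = 0 := fun u hu =>
      ⟨(Submodule.mem_orthogonal _ _).1 hu v hvP, (Submodule.mem_orthogonal _ _).1 hu w hwP⟩
    have hinv : ∀ u ∈ Pᗮ, T u ∈ Pᗮ := by
      intro u hu
      obtain ⟨h1, h2⟩ := hPo u hu
      rw [Submodule.mem_orthogonal]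
      intro y hy
      rw [hP] at hy
      induction hy using Submodule.span_induction with
      | mem z hz =>
        obtain ⟨i, rfl⟩ := hz
        fin_cases i
        · have h3 := hT v u
          rw [hTv, inner_smul_left, h2, mul_zero] at h3
          simp only [Fin.zero_eta, Matrix.cons_val_zero]
          linarith
        · have h3 := hT w u
          rw [hTw, inner_smul_left, h1, mul_zero] at h3
          simp only [Fin.mk_one, Matrix.cons_val_one]
          simp only [Matrix.cons_val_fin_one]
          linarith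
      | zero => simp
      | add z y _ _ hz hy => rw [inner_add_left, hz, hy, add_zero]
      | smul c z _ hz => rw [inner_smul_left, hz, mul_zero]
    have hlt : Module.finrank ℝ Pᗮ < m := by omega
    obtain ⟨b', x', hb', hx'⟩ := ih _ hlt (V := Pᗮ) rfl (T.restrict hinv) (by
      intro u v
      simp only [Submodule.coe_inner, LinearMap.coe_restrict_apply]
      exact hT _ _)
    refine ⟨fun p => if p = 0 then v else if p = 1 then w else b' (p - 2),
      fun j => if j = 0 then x else x' (j - 1), ?_, ?_⟩
    · intro p hp q hq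
      have h1 : ⟪v, v⟫_ℝ = 1 := by rw [real_inner_self_eq_norm_sq, hv]; norm_num
      have h2 : ⟪w, w⟫_ℝ = 1 := by rw [real_inner_self_eq_norm_sq, hw]; norm_num
      have h3 : ⟪w, v⟫_ℝ = 0 := by rw [real_inner_comm]; exact hvw
      rcases p with _ | _ | p <;> rcases q with _ | _ | q
      · simp [hv]
      · simp [hvw]
      · simp [(hPo _ (b' q).2).1]
      · simp [h3]
      · simp [hw]
      · simp [(hPo _ (b' q).2).2]
      · have := (hPo _ (b' p).2).1
        rw [real_inner_comm] at this
        simp [this]
      · have := (hPo _ (b' p).2).2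
        rw [real_inner_comm] at this
        simp [this]
      · have := hb' p (by omega) q (by omega)
        simp only [Submodule.coe_inner] at this
        simp [this]
    · intro p hp q hq
      have h1 : ⟪v, v⟫_ℝ = 1 := by rw [real_inner_self_eq_norm_sq, hv]; norm_num
      have h2 : ⟪w, w⟫_ℝ = 1 := by rw [real_inner_self_eq_norm_sq, hw]; norm_num
      have h3 : ⟪w, v⟫_ℝ = 0 := by rw [real_inner_comm]; exact hvw
      rcases p with _ | _ | p <;> rcases q with _ | _ | q
      · simp [hTv, inner_smul_right, hvw, nfTor]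
      · simp [hTw, inner_smul_right, hv, nfTor]
      · have := (hPo _ (hinv _ (b' q).2)).1
        simp [this, nfTor]
      · simp [hTv, inner_smul_right, hw, nfTor]
      · simp [hTw, inner_smul_right, h3, nfTor]
      · have := (hPo _ (hinv _ (b' q).2)).2
        simp [this, nfTor]
      · have := (hPo _ (b' p).2).2
        rw [real_inner_comm] at this
        simp [hTv, inner_smul_right, this, nfTor]
      · have := (hPo _ (b' p).2).1
        rw [real_inner_comm] at this
        simp [hTw, inner_smul_right, this, nfTor]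
      · have := hx' p (by omega) q (by omega)
        simp only [Submodule.coe_inner, LinearMap.coe_restrict_apply] at this
        simp only [if_false,
          show p + 1 + 1 ≠ 0 by omega, show p + 1 + 1 ≠ 1 by omega,
          show q + 1 + 1 ≠ 0 by omega, show q + 1 + 1 ≠ 1 by omega,
          show p + 1 + 1 - 2 = p by omega, show q + 1 + 1 - 2 = q by omega]
        rw [this]
        unfold nfTor
        congr 1
        · by_cases h : p % 2 = 0 ∧ q = p + 1
          · rw [if_pos h, if_pos (by omega)]
            dsimp only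
            rw [if_neg (by omega)]
            congr 1; omega
          · rw [if_neg h, if_neg (by omega)]
        · by_cases h : q % 2 = 0 ∧ p = q + 1
          · rw [if_pos h, if_pos (by omega)]
            dsimp only
            rw [if_neg (by omega)]
            congr 1; omega
          · rw [if_neg h, if_neg (by omega)]

private theorem nf_diag {a : ℕ} (d : Fin a → ℝ) (x : Fin (a / 2) → ℝ) :
    diagonal d * tor x * diagonal d = tor fun j => d (lo2 j) * d (hi2 j) * x j := by
  ext p q
  rw [Matrix.mul_diagonal, Matrix.diagonal_mul]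
  unfold tor
  rw [Finset.mul_sum, Finset.sum_mul]
  apply Finset.sum_congr rfl
  intro j _
  rw [mul_sub, sub_mul]
  congr 1
  · split_ifs with h
    · rw [h.1, h.2]; ring
    · ring
  · split_ifs with h
    · rw [h.1, h.2]; ring
    · ring

theorem exists_normal_form {a : ℕ} (X : Matrix (Fin a) (Fin a) ℝ) (hX : Xᵀ = -X) :
    ∃ (O : Matrix (Fin a) (Fin a) ℝ) (x : Fin (a / 2) → ℝ),
      O * Oᵀ = 1 ∧ O.det = 1 ∧ X = O * tor x * Oᵀ := by
  have hXpq : ∀ p q, X q p = - X p q := fun p q => by
    have := congrFun (congrFun hX p) q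
    simpa using this
  obtain ⟨b, x, hb, hx⟩ := nf_main a (V := EuclideanSpace ℝ (Fin a)) (by simp)
    (Matrix.toEuclideanLin X) (by
      intro u v
      simp only [PiLp.inner_apply, Matrix.toLpLin_apply, Matrix.mulVec, dotProduct,
        RCLike.inner_apply, conj_trivial, Finset.mul_sum, Finset.sum_mul]
      rw [Finset.sum_comm, ← Finset.sum_neg_distrib]
      apply Finset.sum_congr rfl
      intro i _
      rw [← Finset.sum_neg_distrib]
      apply Finset.sum_congr rfl
      intro j _
      rw [hXpq i j]
      ring)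
  set O : Matrix (Fin a) (Fin a) ℝ := Matrix.of fun i p => b p.1 i with hO
  have h1 : Oᵀ * O = 1 := by
    ext p q
    have := hb p.1 p.2 q.1 q.2
    rw [Matrix.mul_apply, Matrix.one_apply]
    simp only [PiLp.inner_apply, RCLike.inner_apply, conj_trivial] at this
    simp only [hO, Matrix.transpose_apply, Matrix.of_apply]
    rw [show (if p = q then (1:ℝ) else 0) = if p.1 = q.1 then 1 else 0 by simp [Fin.ext_iff], ← this]
    exact Finset.sum_congr rfl fun i _ => mul_comm _ _
  have h2 : O * Oᵀ = 1 := mul_eq_one_comm.1 h1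
  have h3 : Oᵀ * X * O = tor (fun j : Fin (a / 2) => x j.1) := by
    ext p q
    have := hx p.1 p.2 q.1 q.2
    rw [nf_tor_eq, ← this, Matrix.mul_assoc, Matrix.mul_apply]
    simp only [PiLp.inner_apply, Matrix.toLpLin_apply, Matrix.mulVec, dotProduct,
        RCLike.inner_apply, conj_trivial]
    apply Finset.sum_congr rfl
    intro i _
    rw [Matrix.mul_apply, mul_comm]
    simp only [hO, Matrix.transpose_apply, Matrix.of_apply]
  have h4 : X = O * tor (fun j : Fin (a / 2) => x j.1) * Oᵀ := by
    rw [← h3]
    calc X = (O * Oᵀ) * X * (O * Oᵀ) := by rw [h2]; simp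
      _ = _ := by simp only [Matrix.mul_assoc]
  have hdet : O.det = 1 ∨ O.det = -1 := by
    have := congrArg Matrix.det h2
    rw [Matrix.det_mul, Matrix.det_transpose, Matrix.det_one] at this
    exact mul_self_eq_one_iff.1 this
  rcases hdet with hd | hd
  · exact ⟨O, _, h2, hd, h4⟩
  · have ha : 0 < a := by
      rcases Nat.eq_zero_or_pos a with h | h
      · subst h
        simp at hd
        norm_num at hd
      · exact h
    set d : Fin a → ℝ := fun p => if p = ⟨a - 1, by omega⟩ then -1 else 1 with hddef
    have hdd : ∀ p, d p * d p = 1 := by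
      intro p; simp only [hddef]; split_ifs <;> norm_num
    have hDD : diagonal d * diagonal d = 1 := by
      rw [Matrix.diagonal_mul_diagonal, ← Matrix.diagonal_one]
      congr 1
      ext p; exact hdd p
    refine ⟨O * diagonal d, fun j => d (lo2 j) * d (hi2 j) * x j.1, ?_, ?_, ?_⟩
    · rw [Matrix.transpose_mul, Matrix.diagonal_transpose]
      calc O * diagonal d * (diagonal d * Oᵀ) = O * (diagonal d * diagonal d) * Oᵀ := by
            simp only [Matrix.mul_assoc]
        _ = 1 := by rw [hDD, Matrix.mul_one, h2]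
    · rw [Matrix.det_mul, Matrix.det_diagonal, hd]
      have : ∏ i, d i = -1 := by
        simp only [hddef]
        rw [Finset.prod_ite_eq' Finset.univ (⟨a - 1, by omega⟩ : Fin a) (fun _ => (-1:ℝ))]
        simp
      rw [this]; norm_num
    · rw [← nf_diag d (fun j : Fin (a / 2) => x j.1), Matrix.transpose_mul,
        Matrix.diagonal_transpose]
      calc X = O * tor (fun j : Fin (a / 2) => x j.1) * Oᵀ := h4
        _ = O * (diagonal d * diagonal d) * tor (fun j : Fin (a / 2) => x j.1) *
            ((diagonal d * diagonal d) * Oᵀ) := by rw [hDD]; simp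
        _ = _ := by simp only [Matrix.mul_assoc]

private theorem nf_perm_det {a : ℕ} (d : Fin a → ℝ) (π : Equiv.Perm (Fin a)) :
    (diagonal d * (1 : Matrix (Fin a) (Fin a) ℝ).submatrix π id).det =
      (∏ p, d p) * ((Equiv.Perm.sign π : ℤ) : ℝ) := by
  rw [Matrix.det_mul, Matrix.det_diagonal, Matrix.det_permute]
  simp

theorem exists_weyl {a : ℕ} (w : Equiv.Perm (Fin (a / 2)) × (Fin (a / 2) → Bool)) (hw : w ∈ WF a) :
    ∃ O : Matrix (Fin a) (Fin a) ℝ, O * Oᵀ = 1 ∧ O.det = 1 ∧
      ∀ x : Fin (a / 2) → ℝ, O * tor x * Oᵀ = tor fun j => sg (w.2 j) * x (w.1 j) := by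
  classical
  have hw' : Even a → ∏ j, sg (w.2 j) = 1 := by
    unfold WF at hw
    simpa using hw
  obtain ⟨σ, s⟩ := w
  simp only at hw' ⊢
  have hcard : a / 2 * 2 + a % 2 = a := by omega
  let e : (Fin (a / 2) × Fin 2) ⊕ Fin (a % 2) ≃ Fin a :=
    (Equiv.sumCongr finProdFinEquiv (Equiv.refl _)).trans (finSumFinEquiv.trans (finCongr hcard))
  have he0 : ∀ j, e (Sum.inl (j, 0)) = lo2 j := by
    intro j
    apply Fin.ext
    simp [e, lo2]
  have he1 : ∀ j, e (Sum.inl (j, 1)) = hi2 j := by
    intro j
    apply Fin.ext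
    simp [e, hi2]
    ring
  have hsg : ∀ b, sg b * sg b = 1 := by intro b; unfold sg; split_ifs <;> norm_num
  set ε : ℝ := ∏ j, sg (s j) with hε
  have hεε : ε * ε = 1 := by
    rw [hε, ← Finset.prod_mul_distrib]
    exact Finset.prod_eq_one fun j _ => hsg _
  let D : (Fin (a / 2) × Fin 2) ⊕ Fin (a % 2) → ℝ := fun z =>
    match z with
    | Sum.inl (j, k) => if k = 0 then sg (s j) else 1
    | Sum.inr _ => ε
  let d : Fin a → ℝ := fun p => D (e.symm p)
  have hDD : ∀ z, D z * D z = 1 := by
    intro z
    rcases z with ⟨j, k⟩ | k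
    · simp only [D]; split_ifs
      · exact hsg _
      · norm_num
    · exact hεε
  have hdd : ∀ p, d p * d p = 1 := fun p => hDD _
  have hdlo : ∀ j, d (lo2 j) = sg (s j) := by
    intro j
    simp only [d]
    rw [← he0, Equiv.symm_apply_apply]
    simp [D]
  have hdhi : ∀ j, d (hi2 j) = 1 := by
    intro j
    simp only [d]
    rw [← he1, Equiv.symm_apply_apply]
    simp [D]
  have hdprod : ∏ p, d p = 1 := by
    rw [← Equiv.prod_comp e d]
    simp only [d, Equiv.symm_apply_apply]
    rw [Fintype.prod_sum_type]
    have h1 : ∏ z : Fin (a / 2) × Fin 2, D (Sum.inl z) = ε := by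
      rw [Fintype.prod_prod_type, hε]
      apply Finset.prod_congr rfl
      intro j _
      rw [Fin.prod_univ_two]
      simp [D]
    have h2 : ∏ z : Fin (a % 2), D (Sum.inr z) = ε ^ (a % 2) := by
      simp [D]
    rw [h1, h2]
    rcases Nat.mod_two_eq_zero_or_one a with h | h
    · rw [h, pow_zero, mul_one]
      exact hw' (Nat.even_iff.2 h)
    · rw [h, pow_one, hεε]
  let π : Equiv.Perm (Fin a) :=
    e.permCongr (Equiv.Perm.sumCongr (Equiv.prodCongrLeft fun _ => σ) 1)
  have hπlo : ∀ j, π (lo2 j) = lo2 (σ j) := by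
    intro j
    simp only [π]
    rw [← he0, ← he0, Equiv.permCongr_apply, Equiv.symm_apply_apply]
    simp
  have hπhi : ∀ j, π (hi2 j) = hi2 (σ j) := by
    intro j
    simp only [π]
    rw [← he1, ← he1, Equiv.permCongr_apply, Equiv.symm_apply_apply]
    simp
  have hπs : Equiv.Perm.sign π = 1 := by
    simp only [π]
    rw [Equiv.Perm.sign_permCongr, Equiv.Perm.sign_sumCongr, Equiv.Perm.sign_prodCongrLeft]
    simp
  set P : Matrix (Fin a) (Fin a) ℝ := (1 : Matrix (Fin a) (Fin a) ℝ).submatrix π id with hP
  have hPM : ∀ M : Matrix (Fin a) (Fin a) ℝ, P * M * Pᵀ = M.submatrix π π := by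
    intro M
    ext p q
    simp [hP, Matrix.mul_apply, Matrix.one_apply]
  have hPP : P * Pᵀ = 1 := by
    have := hPM 1
    rw [Matrix.mul_one] at this
    rw [this]
    simp
  have hdiag : diagonal d * diagonal d = 1 := by
    rw [Matrix.diagonal_mul_diagonal, ← Matrix.diagonal_one]
    congr 1
    ext p; exact hdd p
  refine ⟨diagonal d * P, ?_, ?_, ?_⟩
  · rw [Matrix.transpose_mul, Matrix.diagonal_transpose]
    calc diagonal d * P * (Pᵀ * diagonal d) = diagonal d * (P * Pᵀ) * diagonal d := by
          simp only [Matrix.mul_assoc]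
      _ = 1 := by rw [hPP, Matrix.mul_one, hdiag]
  · rw [hP, nf_perm_det, hdprod, hπs]
    simp
  · intro x
    rw [Matrix.transpose_mul, Matrix.diagonal_transpose]
    calc diagonal d * P * tor x * (Pᵀ * diagonal d)
        = diagonal d * (P * tor x * Pᵀ) * diagonal d := by simp only [Matrix.mul_assoc]
      _ = diagonal d * tor (fun j => x (σ j)) * diagonal d := by
          rw [hPM]
          congr 2
          ext p q
          simp only [Matrix.submatrix_apply, tor]
          rw [← Equiv.sum_comp σ]
          apply Finset.sum_congr rfl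
          intro j _
          rw [← hπlo, ← hπhi]
          simp only [EmbeddingLike.apply_eq_iff_eq]
      _ = _ := by
          rw [nf_diag]
          congr 1
          ext j
          rw [hdlo, hdhi, mul_one]

end Pool.Agent.ChN
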