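import Pool.Agent.ChN.Block
import Pool.Agent.ChN.NormalForm

/-!
# Invariant polynomials on products of spaces of antisymmetric matrices

`f x = F (tor x)` is a polynomial in the `x i j`, `j : Fin (a i / 2)`, invariant under the product of
the groups `WF (a i)` (`exists_weyl`).  Sum over this group: `N * f x = ∑ μ, f_μ ∏ i, osum (μ i) (x i)`
(`Finset.prod_univ_sum`).  Let `G_μ` be the polynomial of `exists_block` for `μ i`, in the
variables of the block `i`, and `F' = N⁻¹ ∑ μ, f_μ ∏ i, G_(μ i)`.  Then `F = F'` at all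
`(tor (x i))_i`, hence at all real antisymmetric `X` (`exists_normal_form` and invariance), so
`F (Z - Zᵀ) = F' (Z - Zᵀ)` as polynomials in `Z` (`MvPolynomial.funext`), so `F = F'` at all
antisymmetric matrices over commutative `ℝ`-algebras (`Z = P / 2`).  Expand
`∏ i, (c₀ i + c₁ i pf (P i))`.
-/

namespace Pool.Agent.ChN

open Matrix MvPolynomial

private theorem Inv_tor_transpose {a : ℕ} {R : Type*} [CommRing R] (x : Fin (a / 2) → R) :
    (tor x : Matrix (Fin a) (Fin a) R)ᵀ = -tor x := by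
  ext p q
  simp only [Matrix.transpose_apply, Matrix.neg_apply, tor]
  rw [← Finset.sum_neg_distrib]
  apply Finset.sum_congr rfl
  intro j _
  rw [neg_sub]
  congr 1
  · simp only [and_comm]
  · simp only [and_comm]

private theorem Inv_tor_map {a : ℕ} {R S : Type*} [CommRing R] [CommRing S] (g : R →+* S)
    (x : Fin (a / 2) → R) (p q : Fin a) :
    g ((tor x : Matrix (Fin a) (Fin a) R) p q) =
      (tor (fun j => g (x j)) : Matrix (Fin a) (Fin a) S) p q := by
  simp only [tor]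
  rw [map_sum]
  apply Finset.sum_congr rfl
  intro j _
  rw [map_sub, apply_ite g, apply_ite g, map_zero]

/-- two polynomials equal at all real antisymmetric matrices are equal at all antisymmetric
matrices over commutative real algebras -/
private theorem Inv_ext {I : Type} (a : I → ℕ)
    (F F' : MvPolynomial (Σ i, Fin (a i) × Fin (a i)) ℝ)
    (h : ∀ X : ∀ i, Matrix (Fin (a i)) (Fin (a i)) ℝ, (∀ i, (X i)ᵀ = -X i) →
      eval (fun p => X p.1 p.2.1 p.2.2) F = eval (fun p => X p.1 p.2.1 p.2.2) F')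
    (C : Type) [CommRing C] [Algebra ℝ C] (P : ∀ i, Matrix (Fin (a i)) (Fin (a i)) C)
    (hP : ∀ i, (P i)ᵀ = -P i) :
    aeval (fun p : Σ i, Fin (a i) × Fin (a i) => P p.1 p.2.1 p.2.2) F =
      aeval (fun p : Σ i, Fin (a i) × Fin (a i) => P p.1 p.2.1 p.2.2) F' := by
  let Z : (Σ i, Fin (a i) × Fin (a i)) → MvPolynomial (Σ i, Fin (a i) × Fin (a i)) ℝ :=
    fun p => X ⟨p.1, (p.2.1, p.2.2)⟩ - X ⟨p.1, (p.2.2, p.2.1)⟩
  have hZ : bind₁ Z F = bind₁ Z F' := by
    classical
    apply MvPolynomial.funext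
    intro z
    have key : ∀ H : MvPolynomial (Σ i, Fin (a i) × Fin (a i)) ℝ, eval z (bind₁ Z H) =
        eval (fun p : Σ i, Fin (a i) × Fin (a i) =>
          (fun i => (Matrix.of fun s t => z ⟨i, (s, t)⟩ - z ⟨i, (t, s)⟩ :
            Matrix (Fin (a i)) (Fin (a i)) ℝ)) p.1 p.2.1 p.2.2) H := by
      intro H
      rw [← MvPolynomial.coe_aeval_eq_eval, ← MvPolynomial.coe_aeval_eq_eval]
      change aeval z (bind₁ Z H) = aeval _ H
      rw [aeval_bind₁]
      congr 2
      funext p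
      simp only [Z, map_sub, aeval_X, Matrix.of_apply]
    rw [key F, key F']
    refine h (fun i => (Matrix.of fun s t => z ⟨i, (s, t)⟩ - z ⟨i, (t, s)⟩ :
      Matrix (Fin (a i)) (Fin (a i)) ℝ)) ?_
    intro i
    ext s t
    simp only [Matrix.transpose_apply, Matrix.neg_apply, Matrix.of_apply]
    ring
  have key : ∀ H : MvPolynomial (Σ i, Fin (a i) × Fin (a i)) ℝ,
      aeval (fun p : Σ i, Fin (a i) × Fin (a i) => P p.1 p.2.1 p.2.2) H =
        aeval (fun p : Σ i, Fin (a i) × Fin (a i) => (1 / 2 : ℝ) • P p.1 p.2.1 p.2.2)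
          (bind₁ Z H) := by
    intro H
    rw [aeval_bind₁]
    congr 2
    funext p
    simp only [Z, map_sub, aeval_X]
    have h1 : P p.1 p.2.2 p.2.1 = - P p.1 p.2.1 p.2.2 := by
      have := congrFun (congrFun (hP p.1) p.2.1) p.2.2
      simpa using this
    rw [h1, smul_neg, sub_neg_eq_add, ← add_smul]
    norm_num
  rw [key F, key F', hZ]

theorem exists_coeff {I : Type} [Fintype I] [DecidableEq I] (a : I → ℕ)
    (F : MvPolynomial (Σ i, Fin (a i) × Fin (a i)) ℝ)
    (hF : ∀ O X : ∀ i, Matrix (Fin (a i)) (Fin (a i)) ℝ, (∀ i, O i * (O i)ᵀ = 1) →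
      (∀ i, (O i).det = 1) → (∀ i, (X i)ᵀ = -X i) →
      eval (fun p => (O p.1 * X p.1 * (O p.1)ᵀ) p.2.1 p.2.2) F =
        eval (fun p => X p.1 p.2.1 p.2.2) F) :
    ∃ c : Finset I → ℝ, (∀ J, c J ≠ 0 → ∀ i ∈ J, Even (a i)) ∧
      ∀ (C : Type) [CommRing C] [Algebra ℝ C] (P : ∀ i, Matrix (Fin (a i)) (Fin (a i)) C),
        (∀ i, (P i)ᵀ = -P i) → (∀ i k, 0 < k → ((P i) ^ k).trace = 0) →
        aeval (fun p : Σ i, Fin (a i) × Fin (a i) => P p.1 p.2.1 p.2.2) F =
          ∑ J, c J • ∏ i ∈ J, pf (P i) := by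
  classical
  have hblock := fun (i : I) (μ : Fin (a i / 2) → ℕ) => exists_block μ
  choose G c₀ c₁ h1 h2 h3 h4 using hblock
  -- the polynomial `f`
  let f : MvPolynomial (Σ i, Fin (a i / 2)) ℝ :=
    bind₁ (fun p : Σ i, Fin (a i) × Fin (a i) =>
      (tor (fun j => (X ⟨p.1, j⟩ : MvPolynomial (Σ i, Fin (a i / 2)) ℝ)) :
        Matrix (Fin (a p.1)) (Fin (a p.1)) (MvPolynomial (Σ i, Fin (a i / 2)) ℝ)) p.2.1 p.2.2) F
  have hf : ∀ x : ∀ i, Fin (a i / 2) → ℝ, eval (fun p => x p.1 p.2) f =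
      eval (fun p : Σ i, Fin (a i) × Fin (a i) =>
        (tor (x p.1) : Matrix (Fin (a p.1)) (Fin (a p.1)) ℝ) p.2.1 p.2.2) F := by
    intro x
    simp only [f]
    rw [← MvPolynomial.coe_aeval_eq_eval, ← MvPolynomial.coe_aeval_eq_eval]
    change aeval _ (bind₁ _ F) = aeval _ F
    rw [aeval_bind₁]
    congr 2
    funext p
    have := Inv_tor_map (aeval (R := ℝ) (fun p : Σ i, Fin (a i / 2) => x p.1 p.2)).toRingHom
      (fun j => (X ⟨p.1, j⟩ : MvPolynomial (Σ i, Fin (a i / 2)) ℝ)) p.2.1 p.2.2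
    simpa using this
  have hf2 : ∀ x : ∀ i, Fin (a i / 2) → ℝ, eval (fun p => x p.1 p.2) f =
      ∑ m ∈ f.support, coeff m f * ∏ i, ∏ j, (x i j) ^ m ⟨i, j⟩ := by
    intro x
    rw [MvPolynomial.eval_eq']
    apply Finset.sum_congr rfl
    intro m _
    rw [Fintype.prod_sigma]
  -- invariance
  have hinv : ∀ (w : ∀ i, Equiv.Perm (Fin (a i / 2)) × (Fin (a i / 2) → Bool)),
      (∀ i, w i ∈ WF (a i)) → ∀ x : ∀ i, Fin (a i / 2) → ℝ,
      eval (fun p => x p.1 p.2) f =
        eval (fun p => (fun i j => sg ((w i).2 j) * x i ((w i).1 j)) p.1 p.2) f := by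
    intro w hw x
    rw [hf x, hf fun i j => sg ((w i).2 j) * x i ((w i).1 j)]
    have h5 := fun i => exists_weyl (w i) (hw i)
    choose O hO hdet hconj using h5
    rw [← hF O (fun i => tor (x i)) hO hdet (fun i => Inv_tor_transpose _)]
    congr 2
    funext p
    rw [hconj]
  -- the orbit sum
  let N : ℝ := ((Fintype.piFinset fun i => WF (a i)).card : ℝ)
  have hN : N ≠ 0 := by
    have h5 : (fun _ => (1, fun _ => true)) ∈ Fintype.piFinset fun i => WF (a i) := by
      rw [Fintype.mem_piFinset]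
      intro i
      simp [WF, sg]
    have h6 : 0 < (Fintype.piFinset fun i => WF (a i)).card := Finset.card_pos.2 ⟨_, h5⟩
    exact Nat.cast_ne_zero.2 h6.ne'
  have hsum : ∀ x : ∀ i, Fin (a i / 2) → ℝ, N * eval (fun p => x p.1 p.2) f =
      ∑ m ∈ f.support, coeff m f * ∏ i, osum (fun j => m ⟨i, j⟩) (x i) := by
    intro x
    have h5 : N * eval (fun p => x p.1 p.2) f =
        ∑ w ∈ Fintype.piFinset fun i => WF (a i),
          eval (fun p => (fun i j => sg ((w i).2 j) * x i ((w i).1 j)) p.1 p.2) f := by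
      rw [← Finset.sum_congr rfl fun w hw => hinv w (Fintype.mem_piFinset.1 hw) x,
        Finset.sum_const, nsmul_eq_mul]
    rw [h5, Finset.sum_congr rfl fun w _ =>
      hf2 fun i j => sg ((w i).2 j) * x i ((w i).1 j), Finset.sum_comm]
    apply Finset.sum_congr rfl
    intro m _
    rw [← Finset.mul_sum]
    congr 1
    simp only [osum]
    rw [Finset.prod_univ_sum]
  -- the polynomial `F'`
  let F' : MvPolynomial (Σ i, Fin (a i) × Fin (a i)) ℝ :=
    C N⁻¹ * ∑ m ∈ f.support, C (coeff m f) *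
      ∏ i, rename (fun p => (⟨i, p⟩ : Σ i, Fin (a i) × Fin (a i))) (G i fun j => m ⟨i, j⟩)
  have hFF' : ∀ X : ∀ i, Matrix (Fin (a i)) (Fin (a i)) ℝ, (∀ i, (X i)ᵀ = -X i) →
      eval (fun p => X p.1 p.2.1 p.2.2) F = eval (fun p => X p.1 p.2.1 p.2.2) F' := by
    intro X hX
    have h5 := fun i => exists_normal_form (X i) (hX i)
    choose O x hO hdet hX' using h5
    have h6 : eval (fun p => X p.1 p.2.1 p.2.2) F = eval (fun p => x p.1 p.2) f := by
      rw [hf, ← hF O (fun i => tor (x i)) hO hdet (fun i => Inv_tor_transpose _)]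
      congr 2
      funext p
      rw [← hX']
    have h7 : eval (fun p => X p.1 p.2.1 p.2.2) F' =
        N⁻¹ * ∑ m ∈ f.support, coeff m f * ∏ i, osum (fun j => m ⟨i, j⟩) (x i) := by
      simp only [F', map_mul, eval_C, map_sum, map_prod, eval_rename]
      congr 1
      apply Finset.sum_congr rfl
      intro m _
      congr 1
      apply Finset.prod_congr rfl
      intro i _
      rw [← h3 i _ (x i), ← h2 i _ (O i) (tor (x i)) (hO i) (hdet i), ← hX']
      rfl
    rw [h6, h7, ← hsum, ← mul_assoc, inv_mul_cancel₀ hN, one_mul]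
  refine ⟨fun J => N⁻¹ * ∑ m ∈ f.support, coeff m f *
    ((∏ i ∈ J, c₁ i fun j => m ⟨i, j⟩) * ∏ i ∈ Finset.univ \ J, c₀ i fun j => m ⟨i, j⟩), ?_, ?_⟩
  · intro J hJ i hi
    by_contra hev
    apply hJ
    dsimp only
    rw [Finset.sum_eq_zero, mul_zero]
    intro m _
    rw [Finset.prod_eq_zero hi (h1 i _ hev), zero_mul, mul_zero]
  · intro S _ _ P hP htr
    rw [Inv_ext a F F' hFF' S P hP]
    have h5 : aeval (fun p : Σ i, Fin (a i) × Fin (a i) => P p.1 p.2.1 p.2.2) F' =
        algebraMap ℝ S N⁻¹ * ∑ m ∈ f.support, algebraMap ℝ S (coeff m f) *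
          ∏ i, ((c₁ i fun j => m ⟨i, j⟩) • pf (P i) +
            algebraMap ℝ S (c₀ i fun j => m ⟨i, j⟩)) := by
      simp only [F', map_mul, aeval_C, map_sum, map_prod, aeval_rename]
      congr 1
      apply Finset.sum_congr rfl
      intro m _
      congr 1
      apply Finset.prod_congr rfl
      intro i _
      rw [add_comm, ← h4 i _ S (P i) (hP i) (htr i)]
      rfl
    rw [h5]
    simp only [Finset.prod_add, Finset.powerset_univ, Finset.mul_sum, Finset.sum_smul]
    rw [Finset.sum_comm]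
    apply Finset.sum_congr rfl
    intro J _
    apply Finset.sum_congr rfl
    intro m _
    simp only [Algebra.smul_def, Finset.prod_mul_distrib, map_mul, map_prod]
    ring

end Pool.Agent.ChN
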