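import Pool.Agent.ChN.Cfc
import Pool.Agent.ChP.Spec

/-!
# Tensor products of matrices

`kron_mul`: `Finset.prod_univ_sum` / `Fintype.piFinset`.  Spectral statements: write
`P i = U i * diagonal (l i) * (U i)ᵀ` (`exists_spec`, `posDef_iff_spec`, `cfc_conj_diagonal` of
`ChP/Spec.lean`), then `kron c P = kron c U * diagonal (fun I => ∏ l', l (c l') (I l')) * (kron c U)ᵀ`,
and use `cfc_intertwine` with `B = kron c U` (orthogonal) and a diagonal matrix (or
`cfc_conj_diagonal` style); the logarithm of the product of the eigenvalues is the sum of the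
logarithms, `dkron` of diagonal matrices.

`dkron_inv`: `kron c (1 + s A) = 1 + s dkron c A + s ^ 2 (...)` (a polynomial in `s`), divide by `s` and
let `s → 0`, or compare the coefficients.
-/

namespace Pool.Agent.ChN

open Matrix Pool.Agent.ChP

variable {r : ℕ} {a : Fin r → ℕ} {m : ℕ} (c : Fin m → Fin r)

/-- tensor product with a matrix for every position -/
private def kron_K (G : ∀ l : Fin m, Matrix (Fin (a (c l))) (Fin (a (c l))) ℝ) :
    Matrix (TIx a c) (TIx a c) ℝ := fun I J => ∏ l, G l (I l) (J l)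

private theorem kron_K_mul (G H : ∀ l : Fin m, Matrix (Fin (a (c l))) (Fin (a (c l))) ℝ) :
    kron_K c G * kron_K c H = kron_K c fun l => G l * H l := by
  ext I J
  rw [Matrix.mul_apply]
  simp only [kron_K, Matrix.mul_apply]
  rw [Finset.prod_univ_sum, Fintype.piFinset_univ]
  exact Finset.sum_congr rfl fun K _ => Finset.prod_mul_distrib.symm

private theorem kron_K_one :
    kron_K (a := a) c (fun _ => 1) = 1 := by
  ext I J
  simp only [kron_K]
  by_cases h : I = J
  · subst h
    simp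
  · rw [Matrix.one_apply_ne h]
    obtain ⟨l, hl⟩ := Function.ne_iff.1 h
    exact Finset.prod_eq_zero (Finset.mem_univ l) (Matrix.one_apply_ne hl)

private theorem kron_eq_K (g : ∀ i, Matrix (Fin (a i)) (Fin (a i)) ℝ) :
    kron c g = kron_K c fun l => g (c l) := rfl

private theorem dkron_eq_K (A : ∀ i, Matrix (Fin (a i)) (Fin (a i)) ℝ) :
    dkron c A = ∑ l, kron_K c (Function.update (fun l => 1) l (A (c l))) := by
  ext I J
  rw [Matrix.sum_apply]
  simp only [dkron, kron_K]
  refine Finset.sum_congr rfl fun l _ => ?_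
  rw [← Finset.mul_prod_erase _ _ (Finset.mem_univ l), Function.update_self]
  congr 1
  refine Finset.prod_congr rfl fun l' hl' => ?_
  rw [Function.update_of_ne (Finset.ne_of_mem_erase hl'), Matrix.one_apply]

theorem kron_one : kron c (fun i => (1 : Matrix (Fin (a i)) (Fin (a i)) ℝ)) = 1 :=
  kron_K_one c

theorem kron_mul (g h : ∀ i, Matrix (Fin (a i)) (Fin (a i)) ℝ) :
    kron c (fun i => g i * h i) = kron c g * kron c h := by
  rw [kron_eq_K, kron_eq_K, kron_eq_K, kron_K_mul]

theorem kron_transpose (g : ∀ i, Matrix (Fin (a i)) (Fin (a i)) ℝ) :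
    (kron c g)ᵀ = kron c fun i => (g i)ᵀ := rfl

private theorem kron_diagonal (d : ∀ i, Fin (a i) → ℝ) :
    kron c (fun i => diagonal (d i)) = diagonal fun I : TIx a c => ∏ l, d (c l) (I l) := by
  ext I J
  simp only [kron]
  by_cases h : I = J
  · subst h
    simp
  · rw [Matrix.diagonal_apply_ne _ h]
    obtain ⟨l, hl⟩ := Function.ne_iff.1 h
    exact Finset.prod_eq_zero (Finset.mem_univ l) (Matrix.diagonal_apply_ne _ hl)

private theorem dkron_diagonal (d : ∀ i, Fin (a i) → ℝ) :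
    dkron c (fun i => diagonal (d i)) = diagonal fun I : TIx a c => ∑ l, d (c l) (I l) := by
  ext I J
  simp only [dkron]
  by_cases h : I = J
  · subst h
    simp
  · rw [Matrix.diagonal_apply_ne _ h]
    obtain ⟨l, hl⟩ := Function.ne_iff.1 h
    refine Finset.sum_eq_zero fun l' _ => ?_
    by_cases hl' : l' = l
    · subst hl'
      rw [Matrix.diagonal_apply_ne _ hl, zero_mul]
    · rw [Finset.prod_eq_zero (i := l), mul_zero]
      · exact Finset.mem_erase.2 ⟨fun h' => hl' h'.symm, Finset.mem_univ l⟩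
      · rw [if_neg hl]

private theorem kron_cfc_diagonal {ι : Type} [Fintype ι] [DecidableEq ι] (Λ : ι → ℝ) (f : ℝ → ℝ) :
    cfc f (diagonal Λ) = diagonal fun i => f (Λ i) := by
  ext i j
  have h1 : (diagonal Λ : Matrix ι ι ℝ) * (Matrix.of fun (x : ι) (_ : Fin 1) => if x = j then (1 : ℝ) else 0) =
      (Matrix.of fun (x : ι) (_ : Fin 1) => if x = j then (1 : ℝ) else 0) *
        algebraMap ℝ (Matrix (Fin 1) (Fin 1) ℝ) (Λ j) := by
    ext x y
    rw [Matrix.diagonal_mul, Matrix.algebraMap_eq_diagonal, Matrix.mul_diagonal]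
    by_cases hx : x = j
    · subst hx
      simp
    · simp [hx]
  have h2 := cfc_intertwine (diagonal Λ) (algebraMap ℝ (Matrix (Fin 1) (Fin 1) ℝ) (Λ j))
    (Matrix.diagonal_transpose _) (by rw [Matrix.algebraMap_eq_diagonal, Matrix.diagonal_transpose])
    _ h1 f
  rw [cfc_algebraMap] at h2
  have h3 := congrFun (congrFun h2 i) 0
  rw [Matrix.mul_apply, Matrix.algebraMap_eq_diagonal, Matrix.mul_diagonal] at h3
  simp only [Matrix.of_apply, mul_ite, mul_one, mul_zero, Finset.sum_ite_eq', Finset.mem_univ,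
    if_true] at h3
  rw [h3]
  by_cases hx : i = j
  · subst hx
    simp
  · rw [if_neg hx, zero_mul, Matrix.diagonal_apply_ne _ hx]

private theorem kron_spec (P : ∀ i, Matrix (Fin (a i)) (Fin (a i)) ℝ) (hP : ∀ i, (P i).PosDef) :
    ∃ (U : ∀ i, Matrix (Fin (a i)) (Fin (a i)) ℝ) (l : ∀ i, Fin (a i) → ℝ),
      (∀ i, U i * (U i)ᵀ = 1) ∧ (∀ i, (U i)ᵀ * U i = 1) ∧
      (∀ i, P i = U i * diagonal (l i) * (U i)ᵀ) ∧ ∀ i x, 0 < l i x := by
  have h : ∀ i, ∃ (U : Matrix (Fin (a i)) (Fin (a i)) ℝ) (l : Fin (a i) → ℝ),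
      U * Uᵀ = 1 ∧ Uᵀ * U = 1 ∧ P i = U * diagonal l * Uᵀ := fun i => by
    refine exists_spec (P i) ?_
    have := (hP i).1
    rwa [Matrix.IsHermitian, conjTranspose_eq_transpose_of_trivial] at this
  choose U l h1 h2 h3 using h
  exact ⟨U, l, h1, h2, h3, fun i => (posDef_iff_spec (h2 i) (h3 i)).1 (hP i)⟩

private theorem kron_orth (U : ∀ i, Matrix (Fin (a i)) (Fin (a i)) ℝ)
    (h : ∀ i, U i * (U i)ᵀ = 1) : kron c U * (kron c U)ᵀ = 1 := by
  rw [kron_transpose, ← kron_mul]
  simp only [h]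
  exact kron_one c

private theorem kron_conj (U : ∀ i, Matrix (Fin (a i)) (Fin (a i)) ℝ) (l : ∀ i, Fin (a i) → ℝ)
    (P : ∀ i, Matrix (Fin (a i)) (Fin (a i)) ℝ)
    (h : ∀ i, P i = U i * diagonal (l i) * (U i)ᵀ) :
    kron c P = kron c U * diagonal (fun I : TIx a c => ∏ l', l (c l') (I l')) * (kron c U)ᵀ := by
  rw [← kron_diagonal, kron_transpose, ← kron_mul, ← kron_mul]
  congr 1
  funext i
  exact h i

private theorem kron_cfc (U : ∀ i, Matrix (Fin (a i)) (Fin (a i)) ℝ) (l : ∀ i, Fin (a i) → ℝ)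
    (P : ∀ i, Matrix (Fin (a i)) (Fin (a i)) ℝ) (hU : ∀ i, U i * (U i)ᵀ = 1)
    (h : ∀ i, P i = U i * diagonal (l i) * (U i)ᵀ) (f : ℝ → ℝ) :
    cfc f (kron c P) =
      kron c U * diagonal (fun I : TIx a c => f (∏ l', l (c l') (I l'))) * (kron c U)ᵀ := by
  have h1 := kron_orth c U hU
  have h2 : (kron c U)ᵀ * kron c U = 1 := mul_eq_one_comm.1 h1
  have h3 := kron_conj c U l P h
  have h4 : (kron c P)ᵀ = kron c P := by
    rw [h3, transpose_mul, transpose_mul, transpose_transpose, diagonal_transpose, ← mul_assoc]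
  have h5 : kron c P * kron c U =
      kron c U * diagonal (fun I : TIx a c => ∏ l', l (c l') (I l')) := by
    rw [h3, mul_assoc, h2, mul_one]
  have h6 := cfc_intertwine _ _ h4 (diagonal_transpose _) _ h5 f
  rw [kron_cfc_diagonal] at h6
  rw [← h6, mul_assoc, h1, mul_one]

theorem kron_posDef (P : ∀ i, Matrix (Fin (a i)) (Fin (a i)) ℝ) (hP : ∀ i, (P i).PosDef) :
    (kron c P).PosDef := by
  obtain ⟨U, l, h1, h2, h3, h4⟩ := kron_spec P hP
  rw [kron_conj c U l P h3]
  have hu : IsUnit (kron c U) := IsUnit.of_mul_eq_one (kron c U)ᵀ (kron_orth c U h1)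
  have := hu.posDef_star_right_conjugate_iff
    (x := diagonal (fun I : TIx a c => ∏ l', l (c l') (I l')))
  rw [star_eq_conjTranspose, conjTranspose_eq_transpose_of_trivial] at this
  rw [this, posDef_diagonal_iff]
  exact fun I => Finset.prod_pos fun l' _ => h4 _ _

theorem kron_rpow (P : ∀ i, Matrix (Fin (a i)) (Fin (a i)) ℝ) (hP : ∀ i, (P i).PosDef) (t : ℝ) :
    cfc (fun x : ℝ => x ^ t) (kron c P) = kron c fun i => cfc (fun x : ℝ => x ^ t) (P i) := by
  obtain ⟨U, l, h1, h2, h3, h4⟩ := kron_spec P hP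
  rw [kron_cfc c U l P h1 h3,
    kron_conj c U (fun i x => (l i x) ^ t) (fun i => cfc (fun x : ℝ => x ^ t) (P i))
      (fun i => cfc_conj_diagonal (h2 i) (h3 i) _)]
  congr 3
  funext I
  exact (Real.finsetProd_rpow _ _ (fun l' _ => (h4 _ _).le) t).symm

theorem kron_dkron (O A : ∀ i, Matrix (Fin (a i)) (Fin (a i)) ℝ) (hO : ∀ i, O i * (O i)ᵀ = 1) :
    kron c O * dkron c A * (kron c O)ᵀ = dkron c fun i => O i * A i * (O i)ᵀ := by
  rw [dkron_eq_K, dkron_eq_K, kron_transpose, kron_eq_K, kron_eq_K, Finset.mul_sum,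
    Finset.sum_mul]
  refine Finset.sum_congr rfl fun l _ => ?_
  rw [kron_K_mul, kron_K_mul]
  congr 1
  funext l'
  by_cases h : l' = l
  · subst h
    rw [Function.update_self, Function.update_self]
  · rw [Function.update_of_ne h, Function.update_of_ne h, mul_one, hO]

theorem kron_log (P : ∀ i, Matrix (Fin (a i)) (Fin (a i)) ℝ) (hP : ∀ i, (P i).PosDef) :
    cfc Real.log (kron c P) = dkron c fun i => lg (P i) := by
  obtain ⟨U, l, h1, h2, h3, h4⟩ := kron_spec P hP
  rw [kron_cfc c U l P h1 h3]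
  have h5 : (fun i => lg (P i)) =
      fun i => U i * (diagonal fun x => Real.log (l i x)) * (U i)ᵀ := by
    funext i
    exact cfc_conj_diagonal (h2 i) (h3 i) _
  rw [h5, ← kron_dkron c U _ h1, dkron_diagonal]
  congr 3
  funext I
  exact Real.log_prod fun l' _ => (h4 _ _).ne'

theorem dkron_add (A A' : ∀ i, Matrix (Fin (a i)) (Fin (a i)) ℝ) :
    dkron c (A + A') = dkron c A + dkron c A' := by
  ext I J
  rw [Matrix.add_apply]
  simp only [dkron]
  rw [← Finset.sum_add_distrib]
  refine Finset.sum_congr rfl fun l _ => ?_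
  rw [Pi.add_apply, Matrix.add_apply, add_mul]

theorem dkron_smul (t : ℝ) (A : ∀ i, Matrix (Fin (a i)) (Fin (a i)) ℝ) :
    dkron c (t • A) = t • dkron c A := by
  ext I J
  rw [Matrix.smul_apply]
  simp only [dkron]
  rw [Finset.smul_sum]
  refine Finset.sum_congr rfl fun l _ => ?_
  rw [Pi.smul_apply, Matrix.smul_apply, smul_mul_assoc]

theorem dkron_transpose (A : ∀ i, Matrix (Fin (a i)) (Fin (a i)) ℝ) :
    (dkron c A)ᵀ = dkron c fun i => (A i)ᵀ := by
  ext I J
  rw [Matrix.transpose_apply]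
  simp only [dkron, Matrix.transpose_apply]
  refine Finset.sum_congr rfl fun l _ => ?_
  congr 1
  refine Finset.prod_congr rfl fun l' _ => ?_
  by_cases h : I l' = J l'
  · rw [if_pos h, if_pos h.symm]
  · rw [if_neg h, if_neg fun h' => h h'.symm]

theorem dkron_bracket (A A' : ∀ i, Matrix (Fin (a i)) (Fin (a i)) ℝ) :
    dkron c A * dkron c A' - dkron c A' * dkron c A =
      dkron c fun i => A i * A' i - A' i * A i := by
  have hsub : (dkron c fun i => A i * A' i - A' i * A i) =
      (dkron c fun i => A i * A' i) - dkron c fun i => A' i * A i := by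
    ext I J
    rw [Matrix.sub_apply]
    simp only [dkron]
    rw [← Finset.sum_sub_distrib]
    refine Finset.sum_congr rfl fun l _ => ?_
    rw [Matrix.sub_apply, sub_mul]
  have key : ∀ B B' : ∀ i, Matrix (Fin (a i)) (Fin (a i)) ℝ,
      dkron c B * dkron c B' = (dkron c fun i => B i * B' i) +
        ∑ l, ∑ l' ∈ Finset.univ.erase l, kron_K c (Function.update
          (Function.update (fun l => 1) l (B (c l))) l' (B' (c l'))) := by
    intro B B'
    rw [dkron_eq_K, dkron_eq_K, dkron_eq_K, Finset.sum_mul, ← Finset.sum_add_distrib]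
    refine Finset.sum_congr rfl fun l _ => ?_
    rw [Finset.mul_sum, ← Finset.add_sum_erase _ _ (Finset.mem_univ l)]
    congr 1
    · rw [kron_K_mul]
      congr 1
      funext x
      by_cases h : x = l
      · subst h
        rw [Function.update_self, Function.update_self, Function.update_self]
      · rw [Function.update_of_ne h, Function.update_of_ne h, Function.update_of_ne h, mul_one]
    · refine Finset.sum_congr rfl fun l' hl' => ?_
      have hne := Finset.ne_of_mem_erase hl'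
      rw [kron_K_mul]
      congr 1
      funext x
      by_cases h : x = l'
      · subst h
        rw [Function.update_self, Function.update_self, Function.update_of_ne hne, one_mul]
      · rw [Function.update_of_ne h, Function.update_of_ne h, mul_one]
  rw [key A A', key A' A, hsub]
  have hsw : (∑ l, ∑ l' ∈ Finset.univ.erase l, kron_K c (Function.update
          (Function.update (fun l => 1) l (A (c l))) l' (A' (c l')))) =
      ∑ l, ∑ l' ∈ Finset.univ.erase l, kron_K c (Function.update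
          (Function.update (fun l => 1) l (A' (c l))) l' (A (c l'))) := by
    have e : ∀ F : Fin m → Fin m → Matrix (TIx a c) (TIx a c) ℝ,
        (∑ l, ∑ l' ∈ Finset.univ.erase l, F l l') = ∑ l', ∑ l ∈ Finset.univ.erase l', F l l' := by
      intro F
      refine Finset.sum_comm' fun x y => ?_
      simp only [Finset.mem_univ, Finset.mem_erase, true_and, and_true]
      exact ⟨fun h h' => h h'.symm, fun h h' => h h'.symm⟩
    rw [e]
    refine Finset.sum_congr rfl fun l' _ => Finset.sum_congr rfl fun l hl => ?_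
    rw [Function.update_comm (Finset.ne_of_mem_erase hl)]
  rw [hsw]
  abel

private theorem kron_deriv (A : ∀ i, Matrix (Fin (a i)) (Fin (a i)) ℝ) (I J : TIx a c) :
    HasDerivAt (fun s : ℝ => kron c (fun i => 1 + s • A i) I J) (dkron c A I J) 0 := by
  have h1 : ∀ l ∈ (Finset.univ : Finset (Fin m)), HasDerivAt
      (fun s : ℝ => (1 + s • A (c l) : Matrix (Fin (a (c l))) (Fin (a (c l))) ℝ) (I l) (J l))
      (A (c l) (I l) (J l)) 0 := by
    intro l _
    have h2 : (fun s : ℝ =>
        (1 + s • A (c l) : Matrix (Fin (a (c l))) (Fin (a (c l))) ℝ) (I l) (J l)) =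
        fun s : ℝ => (1 : Matrix (Fin (a (c l))) (Fin (a (c l))) ℝ) (I l) (J l) +
          s * A (c l) (I l) (J l) := by
      funext s
      rw [Matrix.add_apply, Matrix.smul_apply, smul_eq_mul]
    rw [h2]
    have h3 := ((hasDerivAt_id (0 : ℝ)).mul_const (A (c l) (I l) (J l))).const_add
      ((1 : Matrix (Fin (a (c l))) (Fin (a (c l))) ℝ) (I l) (J l))
    rw [one_mul] at h3
    exact h3
  have h4 := HasDerivAt.fun_finsetProd h1
  refine h4.congr_deriv ?_
  simp only [dkron]
  refine Finset.sum_congr rfl fun l _ => ?_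
  rw [smul_eq_mul, mul_comm]
  congr 1
  refine Finset.prod_congr rfl fun l' _ => ?_
  rw [zero_smul, add_zero, Matrix.one_apply]

private theorem dkron_inv_aux {k : ℕ} (Q : Matrix (TIx a c) (TIx a c) ℝ)
    (B : Matrix (TIx a c) (Fin k) ℝ)
    (hz : ∀ (g : ∀ i, Matrix (Fin (a i)) (Fin (a i)) ℝ) i j,
      ∑ J, (∑ I, Q i I * kron c g I J) * B J j = 0)
    (A : ∀ i, Matrix (Fin (a i)) (Fin (a i)) ℝ) (i : TIx a c) (j : Fin k) :
    ∑ J, (∑ I, Q i I * dkron c A I J) * B J j = 0 := by
  have h5 : HasDerivAt (fun s : ℝ =>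
      ∑ J, (∑ I, Q i I * kron c (fun i => 1 + s • A i) I J) * B J j)
      (∑ J, (∑ I, Q i I * dkron c A I J) * B J j) 0 := by
    refine HasDerivAt.fun_sum fun J _ => ?_
    refine HasDerivAt.mul_const ?_ _
    refine HasDerivAt.fun_sum fun I _ => ?_
    exact (kron_deriv c A I J).const_mul _
  have h6 : (fun s : ℝ => ∑ J, (∑ I, Q i I * kron c (fun i => 1 + s • A i) I J) * B J j) =
      fun _ => (0 : ℝ) := by
    funext s
    exact hz _ i j
  rw [h6] at h5
  exact h5.unique (hasDerivAt_const (0 : ℝ) (0 : ℝ))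

private theorem dkron_inv_mat {k : ℕ} (B : Matrix (TIx a c) (Fin k) ℝ)
    (h : ∀ g : ∀ i, Matrix (Fin (a i)) (Fin (a i)) ℝ, (kron c g * B : Matrix (TIx a c) (Fin k) ℝ) =
      (B * (Bᵀ * kron c g * B : Matrix (Fin k) (Fin k) ℝ) : Matrix (TIx a c) (Fin k) ℝ))
    (A : ∀ i, Matrix (Fin (a i)) (Fin (a i)) ℝ) :
    (dkron c A * B : Matrix (TIx a c) (Fin k) ℝ) =
      (B * (Bᵀ * dkron c A * B : Matrix (Fin k) (Fin k) ℝ) : Matrix (TIx a c) (Fin k) ℝ) := by
  obtain ⟨Q, hQ⟩ : ∃ Q : Matrix (TIx a c) (TIx a c) ℝ,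
      Q = 1 - (B * Bᵀ : Matrix (TIx a c) (TIx a c) ℝ) := ⟨_, rfl⟩
  have hz : ∀ g : ∀ i, Matrix (Fin (a i)) (Fin (a i)) ℝ,
      (Q * kron c g * B : Matrix (TIx a c) (Fin k) ℝ) = 0 := by
    intro g
    have e : (B * Bᵀ * (kron c g * B) : Matrix (TIx a c) (Fin k) ℝ) = kron c g * B := by
      conv_rhs => rw [h g]
      simp only [Matrix.mul_assoc]
    rw [Matrix.mul_assoc, hQ, Matrix.sub_mul, Matrix.one_mul, e, sub_self]
  have hz' : (Q * dkron c A * B : Matrix (TIx a c) (Fin k) ℝ) = 0 := by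
    ext i j
    exact dkron_inv_aux c Q B (fun g i j => congrFun (congrFun (hz g) i) j) A i j
  rw [Matrix.mul_assoc, hQ, Matrix.sub_mul, Matrix.one_mul, sub_eq_zero] at hz'
  rw [Matrix.mul_assoc Bᵀ, ← Matrix.mul_assoc B]
  exact hz'

theorem dkron_inv {k : ℕ} (B : Matrix (TIx a c) (Fin k) ℝ) (hB : Bᵀ * B = 1)
    (h : ∀ g, kron c g * B = B * (Bᵀ * kron c g * B))
    (A : ∀ i, Matrix (Fin (a i)) (Fin (a i)) ℝ) :
    dkron c A * B = B * (Bᵀ * dkron c A * B) :=
  dkron_inv_mat c B h A

end Pool.Agent.ChN
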