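import Pool.Agent.ChN.Defs

/-!
# Pfaffians

`pf_conj`: expand the product of the entries of `M X Mᵀ`,
`∑ σ, sign σ * ∏ j, ∑ k l, M (σ lo) k * X k l * M (σ hi) l`; since `a` is even every index of
`Fin a` is `lo2 j` or `hi2 j` for exactly one `j`, so this is a sum over all functions
`f : Fin a → Fin a` of `(∏ j, X (f lo) (f hi)) * det (fun p q => M p (f q))` (up to transpose),
zero unless `f` is a permutation, as in the proof of `Matrix.det_mul`.

`pf_tor`: a permutation `σ` contributes only if it maps every pair `{lo2 j, hi2 j}` onto a pair; it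
is then the product of a permutation of the pairs (an even permutation) and of the transpositions
of the pairs in some set; every such permutation contributes `∏ j, x j`, and there are
`2^m m!` of them.  (Alternatively: `tor x = D * tor 1 * Dᵀ` with `D` diagonal, then count.)
-/

namespace Pool.Agent.ChN

open Matrix

theorem pf_map {a : ℕ} {R S : Type*} [CommRing R] [CommRing S] (f : R →+* S)
    (X : Matrix (Fin a) (Fin a) R) : pf (X.map f) = f (pf X) := by
  unfold pf
  rw [map_sum]
  refine Finset.sum_congr rfl fun σ _ => ?_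
  rw [map_mul, map_intCast, map_prod]
  rfl

theorem pf_smul {a : ℕ} {R : Type*} [CommRing R] (c : R) (X : Matrix (Fin a) (Fin a) R) :
    pf (c • X) = c ^ (a / 2) * pf X := by
  unfold pf
  rw [Finset.mul_sum]
  refine Finset.sum_congr rfl fun σ _ => ?_
  simp only [Matrix.smul_apply, smul_eq_mul, Finset.prod_mul_distrib, Finset.prod_const,
    Finset.card_univ, Fintype.card_fin]
  ring

/-- pairs and positions in the pairs -/
private def pfE {a : ℕ} (ha : Even a) : Fin (a / 2) × Fin 2 ≃ Fin a :=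
  finProdFinEquiv.trans (finCongr (Nat.div_mul_cancel ha.two_dvd))

private theorem pfE_zero {a : ℕ} (ha : Even a) (j : Fin (a / 2)) : pfE ha (j, 0) = lo2 j := by
  apply Fin.ext
  simp [pfE, lo2]

private theorem pfE_one {a : ℕ} (ha : Even a) (j : Fin (a / 2)) : pfE ha (j, 1) = hi2 j := by
  apply Fin.ext
  simp [pfE, hi2]
  omega

private theorem pf_prod {a : ℕ} (ha : Even a) {R : Type*} [CommRing R] (g : Fin a → R) :
    ∏ p, g p = ∏ j : Fin (a / 2), g (lo2 j) * g (hi2 j) := by
  rw [← (pfE ha).prod_comp, Fintype.prod_prod_type]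
  refine Finset.prod_congr rfl fun j _ => ?_
  rw [Fin.prod_univ_two, pfE_zero, pfE_one]

/-- functions on `Fin a` as families of pairs -/
private def pfA {a : ℕ} (ha : Even a) (α : Type*) : (Fin a → α) ≃ (Fin (a / 2) → α × α) :=
  ((Equiv.arrowCongr (pfE ha).symm (Equiv.refl α)).trans (Equiv.curry _ _ _)).trans
    (Equiv.piCongrRight fun _ => finTwoArrowEquiv α)

private theorem pfA_apply {a : ℕ} (ha : Even a) {α : Type*} (f : Fin a → α) (j : Fin (a / 2)) :
    pfA ha α f j = (f (lo2 j), f (hi2 j)) := by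
  simp [pfA, finTwoArrowEquiv, Equiv.arrowCongr, Function.curry, pfE_zero, pfE_one]

theorem pf_conj {a : ℕ} (ha : Even a) {R : Type*} [CommRing R] (M X : Matrix (Fin a) (Fin a) R) :
    pf (M * X * Mᵀ) = M.det * pf X := by
  classical
  have h1 : ∀ p q, (M * X * Mᵀ) p q = ∑ kl : Fin a × Fin a, M p kl.1 * X kl.1 kl.2 * M q kl.2 := by
    intro p q
    rw [Fintype.sum_prod_type_right]
    simp only [Matrix.mul_apply, Matrix.transpose_apply]
    refine Finset.sum_congr rfl fun l _ => ?_
    rw [Finset.sum_mul]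
  have h2 : ∀ σ : Equiv.Perm (Fin a), ∏ j : Fin (a / 2), (M * X * Mᵀ) (σ (lo2 j)) (σ (hi2 j)) =
      ∑ f : Fin a → Fin a, (∏ j : Fin (a / 2), X (f (lo2 j)) (f (hi2 j))) * ∏ p, M (σ p) (f p) := by
    intro σ
    simp only [h1]
    rw [Finset.prod_univ_sum, Fintype.piFinset_univ, ← (pfA ha (Fin a)).sum_comp]
    refine Finset.sum_congr rfl fun f _ => ?_
    rw [pf_prod ha (fun p => M (σ p) (f p)), ← Finset.prod_mul_distrib]
    refine Finset.prod_congr rfl fun j _ => ?_
    rw [pfA_apply]
    ring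
  unfold pf
  simp only [h2]
  simp only [Finset.mul_sum]
  rw [Finset.sum_comm]
  have h3 : ∀ f : Fin a → Fin a, ∑ σ : Equiv.Perm (Fin a), ((Equiv.Perm.sign σ : ℤ) : R) *
      ((∏ j : Fin (a / 2), X (f (lo2 j)) (f (hi2 j))) * ∏ p, M (σ p) (f p)) =
      (∏ j : Fin (a / 2), X (f (lo2 j)) (f (hi2 j))) * (M.submatrix id f).det := by
    intro f
    rw [Matrix.det_apply', Finset.mul_sum]
    refine Finset.sum_congr rfl fun σ _ => ?_
    simp only [Matrix.submatrix_apply, id]
    ring
  simp only [h3]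
  symm
  refine Fintype.sum_of_injective (fun σ : Equiv.Perm (Fin a) => (σ : Fin a → Fin a))
    DFunLike.coe_injective _ _ ?_ ?_
  · intro f hf
    have hninj : ¬ Function.Injective f := by
      intro hinj
      exact hf ⟨Equiv.ofBijective f (Finite.injective_iff_bijective.mp hinj), rfl⟩
    unfold Function.Injective at hninj
    push Not at hninj
    obtain ⟨p, q, hpq, hne⟩ := hninj
    rw [Matrix.det_zero_of_column_eq hne (by intro i; simp [hpq]), mul_zero]
  · intro σ
    rw [Matrix.det_permute']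
    ring

/-- the sign of an element of the group of the pairs -/
private theorem pf_count (m : ℕ) (J : Fin m × Fin 2 → Fin m × Fin 2 → ℤ)
    (h0 : ∀ j, J (j, 0) (j, 1) = 1) (h1 : ∀ j, J (j, 1) (j, 0) = -1)
    (h2 : ∀ p q, p.1 ≠ q.1 → J p q = 0) :
    ∑ σ : Equiv.Perm (Fin m × Fin 2), (Equiv.Perm.sign σ : ℤ) * ∏ j : Fin m, J (σ (j, 0)) (σ (j, 1)) =
      ((2 ^ m * m.factorial : ℕ) : ℤ) := by
  classical
  let Φ : Equiv.Perm (Fin m) × (Fin m → Equiv.Perm (Fin 2)) → Equiv.Perm (Fin m × Fin 2) :=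
    fun x => (Equiv.prodCongrLeft (fun _ : Fin 2 => x.1) : Equiv.Perm (Fin m × Fin 2)) *
      (Equiv.prodCongrRight x.2 : Equiv.Perm (Fin m × Fin 2))
  have hΦ : ∀ x j b, Φ x (j, b) = (x.1 j, x.2 j b) := fun x j b => rfl
  have hinj : Function.Injective Φ := by
    intro x y hxy
    have h : ∀ j b, x.1 j = y.1 j ∧ x.2 j b = y.2 j b := by
      intro j b
      have := congrArg (fun σ => σ (j, b)) hxy
      simp only [hΦ, Prod.mk.injEq] at this
      exact this
    refine Prod.ext (Equiv.ext fun j => (h j 0).1) (funext fun j => Equiv.ext fun b => (h j b).2)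
  have hsum := Fintype.sum_of_injective Φ hinj (fun _ => (1 : ℤ))
    (fun σ => (Equiv.Perm.sign σ : ℤ) * ∏ j : Fin m, J (σ (j, 0)) (σ (j, 1))) ?_ ?_
  · rw [← hsum]
    simp only [Finset.sum_const, Finset.card_univ, Fintype.card_prod, Fintype.card_perm,
      Fintype.card_fin, Fintype.card_pi, Finset.prod_const, nsmul_eq_mul, mul_one]
    have : Nat.factorial 2 = 2 := rfl
    rw [this, mul_comm]
  · intro σ hσ
    rw [mul_eq_zero]
    right
    by_contra hne
    apply hσ
    have hf : ∀ j, (σ (j, 0)).1 = (σ (j, 1)).1 := by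
      intro j
      by_contra hcon
      exact hne (Finset.prod_eq_zero (Finset.mem_univ j) (h2 _ _ hcon))
    have hf' : ∀ j b, (σ (j, b)).1 = (σ (j, 0)).1 := by
      intro j b
      fin_cases b
      · rfl
      · exact (hf j).symm
    have hsnd : ∀ j, Function.Injective fun b => (σ (j, b)).2 := by
      intro j b c hbc
      have : σ (j, b) = σ (j, c) := Prod.ext ((hf' j b).trans (hf' j c).symm) hbc
      have := σ.injective this
      exact congrArg Prod.snd this
    have hfst : Function.Injective fun j => (σ (j, 0)).1 := by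
      intro j k hjk
      obtain ⟨b, hb⟩ := (Finite.injective_iff_surjective.mp (hsnd k)) (σ (j, 0)).2
      have : σ (k, b) = σ (j, 0) := Prod.ext ((hf' k b).trans hjk.symm) hb
      have := σ.injective this
      exact (congrArg Prod.fst this).symm
    refine ⟨(Equiv.ofBijective _ (Finite.injective_iff_bijective.mp hfst),
      fun j => Equiv.ofBijective _ (Finite.injective_iff_bijective.mp (hsnd j))), ?_⟩
    ext1 ⟨j, b⟩
    rw [hΦ]
    exact Prod.ext (hf' j b).symm rfl
  · intro x
    have hs : (Equiv.Perm.sign (Φ x) : ℤ) = ∏ j, (Equiv.Perm.sign (x.2 j) : ℤ) := by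
      simp only [Φ]
      rw [Equiv.Perm.sign_mul, Equiv.Perm.sign_prodCongrLeft, Equiv.Perm.sign_prodCongrRight]
      simp
    have hJ : ∀ (k : Fin m) (τ : Equiv.Perm (Fin 2)),
        J (k, τ 0) (k, τ 1) = (Equiv.Perm.sign τ : ℤ) := by
      intro k τ
      have : τ = 1 ∨ τ = Equiv.swap 0 1 := by
        revert τ
        decide
      rcases this with rfl | rfl
      · simp [h0]
      · simp [h1]
    simp only [hΦ, hJ, hs]
    rw [← Finset.prod_mul_distrib]
    symm
    apply Finset.prod_eq_one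
    intro j _
    rw [← Units.val_mul, Int.units_mul_self]
    rfl

private theorem tor_lohi {a : ℕ} {R : Type*} [CommRing R] (x : Fin (a / 2) → R)
    (j : Fin (a / 2)) : (tor x : Matrix (Fin a) (Fin a) R) (lo2 j) (hi2 j) = x j := by
  unfold tor
  rw [Finset.sum_eq_single j]
  · have : ¬ ((lo2 j : Fin a) = hi2 j ∧ (hi2 j : Fin a) = lo2 j) := by
      simp [lo2, hi2]
    simp [this]
  · intro i _ hij
    have h1 : ¬ ((lo2 j : Fin a) = lo2 i ∧ (hi2 j : Fin a) = hi2 i) := by
      intro h
      have := congrArg Fin.val h.1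
      simp only [lo2] at this
      exact hij (Fin.ext (by omega))
    have h2 : ¬ ((lo2 j : Fin a) = hi2 i ∧ (hi2 j : Fin a) = lo2 i) := by
      intro h
      have := congrArg Fin.val h.1
      simp only [lo2, hi2] at this
      omega
    simp [h1, h2]
  · intro h
    exact absurd (Finset.mem_univ j) h

private theorem tor_hilo {a : ℕ} {R : Type*} [CommRing R] (x : Fin (a / 2) → R)
    (j : Fin (a / 2)) : (tor x : Matrix (Fin a) (Fin a) R) (hi2 j) (lo2 j) = -x j := by
  unfold tor
  rw [Finset.sum_eq_single j]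
  · have : ¬ ((hi2 j : Fin a) = lo2 j ∧ (lo2 j : Fin a) = hi2 j) := by
      simp [lo2, hi2]
    simp [this]
  · intro i _ hij
    have h1 : ¬ ((hi2 j : Fin a) = hi2 i ∧ (lo2 j : Fin a) = lo2 i) := by
      intro h
      have := congrArg Fin.val h.2
      simp only [lo2] at this
      exact hij (Fin.ext (by omega))
    have h2 : ¬ ((hi2 j : Fin a) = lo2 i ∧ (lo2 j : Fin a) = hi2 i) := by
      intro h
      have := congrArg Fin.val h.1
      simp only [lo2, hi2] at this
      omega
    simp [h1, h2]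
  · intro h
    exact absurd (Finset.mem_univ j) h

private theorem tor_diag {a : ℕ} {R : Type*} [CommRing R] (x : Fin (a / 2) → R)
    (p : Fin a) : (tor x : Matrix (Fin a) (Fin a) R) p p = 0 := by
  unfold tor
  apply Finset.sum_eq_zero
  intro i _
  have h0 : (lo2 i : Fin a) ≠ hi2 i := by simp [lo2, hi2]
  have h1 : ¬ (p = lo2 i ∧ p = hi2 i) := by
    rintro ⟨h, h'⟩
    exact h0 (h.symm.trans h')
  have h2 : ¬ (p = hi2 i ∧ p = lo2 i) := by
    rintro ⟨h, h'⟩
    exact h0 (h'.symm.trans h)
  simp [h1, h2]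

private theorem tor_ne {a : ℕ} (ha : Even a) {R : Type*} [CommRing R] (x : Fin (a / 2) → R)
    (p q : Fin (a / 2) × Fin 2) (h : p.1 ≠ q.1) :
    (tor x : Matrix (Fin a) (Fin a) R) (pfE ha p) (pfE ha q) = 0 := by
  unfold tor
  apply Finset.sum_eq_zero
  intro i _
  have h1 : ¬ (pfE ha p = lo2 i ∧ pfE ha q = hi2 i) := by
    rw [← pfE_zero ha, ← pfE_one ha]
    intro hh
    apply h
    rw [(pfE ha).injective hh.1, (pfE ha).injective hh.2]
  have h2 : ¬ (pfE ha p = hi2 i ∧ pfE ha q = lo2 i) := by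
    rw [← pfE_zero ha, ← pfE_one ha]
    intro hh
    apply h
    rw [(pfE ha).injective hh.1, (pfE ha).injective hh.2]
  simp [h1, h2]

private theorem pf_tor_one {a : ℕ} (ha : Even a) :
    pf (tor (fun _ => (1 : ℤ)) : Matrix (Fin a) (Fin a) ℤ) =
      ((2 ^ (a / 2) * (a / 2).factorial : ℕ) : ℤ) := by
  classical
  rw [← pf_count (a / 2) (fun p q => (tor (fun _ => (1 : ℤ)) : Matrix (Fin a) (Fin a) ℤ)
    (pfE ha p) (pfE ha q))]
  · unfold pf
    rw [← (pfE ha).permCongr.sum_comp]
    refine Finset.sum_congr rfl fun σ _ => ?_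
    rw [Equiv.Perm.sign_permCongr]
    simp only [Int.cast_id]
    congr 1
    refine Finset.prod_congr rfl fun j _ => ?_
    rw [← pfE_zero ha, ← pfE_one ha]
    simp [Equiv.permCongr_apply]
  · intro j
    show tor _ (pfE ha (j, 0)) (pfE ha (j, 1)) = 1
    rw [pfE_zero, pfE_one, tor_lohi]
  · intro j
    show tor _ (pfE ha (j, 1)) (pfE ha (j, 0)) = -1
    rw [pfE_zero, pfE_one, tor_hilo]
  · intro p q h
    exact tor_ne ha _ p q h

theorem pf_tor {a : ℕ} (ha : Even a) {R : Type*} [CommRing R] (x : Fin (a / 2) → R) :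
    pf (tor x : Matrix (Fin a) (Fin a) R) = ((2 ^ (a / 2) * (a / 2).factorial : ℕ) : R) * ∏ j, x j := by
  classical
  let D : Fin a → R := fun p => if ((pfE ha).symm p).2 = 0 then x ((pfE ha).symm p).1 else 1
  have hD : tor x = Matrix.diagonal D * ((tor (fun _ => (1 : ℤ)) : Matrix (Fin a) (Fin a) ℤ).map
      (Int.castRingHom R)) * (Matrix.diagonal D)ᵀ := by
    ext p q
    rw [Matrix.diagonal_transpose, Matrix.mul_diagonal, Matrix.diagonal_mul, Matrix.map_apply]
    obtain ⟨⟨j, b⟩, rfl⟩ := (pfE ha).surjective p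
    obtain ⟨⟨k, c⟩, rfl⟩ := (pfE ha).surjective q
    by_cases hjk : j = k
    · subst hjk
      simp only [D, Equiv.symm_apply_apply]
      fin_cases b <;> fin_cases c
      · simp [tor_diag]
      · simp [pfE_zero, pfE_one, tor_lohi]
      · simp [pfE_zero, pfE_one, tor_hilo]
      · simp [tor_diag]
    · rw [tor_ne ha _ _ _ hjk, tor_ne ha _ _ _ hjk]
      simp
  rw [hD, pf_conj ha, pf_map, pf_tor_one ha, Matrix.det_diagonal, pf_prod ha]
  have : ∀ j, D (lo2 j) * D (hi2 j) = x j := by
    intro j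
    simp only [D]
    rw [← pfE_zero ha, ← pfE_one ha]
    simp
  simp only [this]
  rw [mul_comm]
  simp

end Pool.Agent.ChN
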