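import Pool.Agent.ChN.Kron
import Pool.Agent.ChN.DetOne

/-!
# Natural representations

All statements follow from the corresponding statements for `kron`, `dkron` and from
`kron c g * B = B * (Bᵀ * kron c g * B)` (`NatData.inv`) and its analogue `dkron_inv`;
`rho_rpow`, `rho_log` from `cfc_compress`.
-/

set_option linter.all false

namespace Pool.Agent.ChN

open Matrix Pool.Agent.ChP

/-- Orthonormal bases (the columns of `B j`) of invariant subspaces of tensor powers. -/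
structure NatData {r : ℕ} (a : Fin r → ℕ) {q : ℕ} (k : Fin q → ℕ) where
  m : Fin q → ℕ
  c : ∀ j, Fin (m j) → Fin r
  B : ∀ j, Matrix (TIx a (c j)) (Fin (k j)) ℝ
  iso : ∀ j, (B j)ᵀ * B j = 1
  inv : ∀ j g, kron (c j) g * B j = B j * ((B j)ᵀ * kron (c j) g * B j)

variable {r : ℕ} {a : Fin r → ℕ} {q : ℕ} {k : Fin q → ℕ} (D : NatData a k)

/-- the representation on the subspace spanned by the columns of `B j` -/
noncomputable def rho (g : ∀ i, Matrix (Fin (a i)) (Fin (a i)) ℝ) (j : Fin q) :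
    Matrix (Fin (k j)) (Fin (k j)) ℝ :=
  (D.B j)ᵀ * kron (D.c j) g * D.B j

/-- its derivative -/
noncomputable def drho (A : ∀ i, Matrix (Fin (a i)) (Fin (a i)) ℝ) (j : Fin q) :
    Matrix (Fin (k j)) (Fin (k j)) ℝ :=
  (D.B j)ᵀ * dkron (D.c j) A * D.B j

private theorem Rho_comp {ι κ : Type*} [Fintype ι] [Fintype κ] [DecidableEq ι] [DecidableEq κ]
    (B : Matrix ι κ ℝ) (M N : Matrix ι ι ℝ) (h : N * B = B * (Bᵀ * N * B)) :
    Bᵀ * M * B * (Bᵀ * N * B) = Bᵀ * (M * N) * B := by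
  rw [Matrix.mul_assoc (Bᵀ * M) B, ← h]
  simp only [Matrix.mul_assoc]

theorem rho_one (j : Fin q) : rho D 1 j = 1 := by
  have h : kron (D.c j) (1 : ∀ i, Matrix (Fin (a i)) (Fin (a i)) ℝ) = 1 := kron_one _
  rw [rho, h, Matrix.mul_one, D.iso]

theorem rho_mul (g h : ∀ i, Matrix (Fin (a i)) (Fin (a i)) ℝ) (j : Fin q) :
    rho D (g * h) j = rho D g j * rho D h j := by
  have h1 : kron (D.c j) (g * h) = kron (D.c j) g * kron (D.c j) h := kron_mul _ g h
  rw [rho, rho, rho, Rho_comp (D.B j) _ _ (D.inv j h), h1]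

theorem rho_transpose (g : ∀ i, Matrix (Fin (a i)) (Fin (a i)) ℝ) (j : Fin q) :
    (rho D g j)ᵀ = rho D (fun i => (g i)ᵀ) j := by
  rw [rho, rho, Matrix.transpose_mul, Matrix.transpose_mul, Matrix.transpose_transpose,
    kron_transpose, Matrix.mul_assoc]

private theorem Rho_pd {ι κ : Type*} [Fintype ι] [Fintype κ] [DecidableEq ι] [DecidableEq κ]
    (B : Matrix ι κ ℝ) (M : Matrix ι ι ℝ) (hB : Bᵀ * B = 1) (hM : M.PosDef) :
    (Bᵀ * M * B).PosDef := by
  have h := hM.conjTranspose_mul_mul_same (B := B) (by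
    intro x y hxy
    have h1 : Bᵀ *ᵥ (B *ᵥ x) = Bᵀ *ᵥ (B *ᵥ y) := congrArg _ hxy
    rwa [Matrix.mulVec_mulVec, Matrix.mulVec_mulVec, hB, Matrix.one_mulVec,
      Matrix.one_mulVec] at h1)
  rwa [conjTranspose_eq_transpose_of_trivial] at h

theorem rho_posDef (P : ∀ i, Matrix (Fin (a i)) (Fin (a i)) ℝ) (hP : ∀ i, (P i).PosDef)
    (j : Fin q) : (rho D P j).PosDef :=
  Rho_pd (D.B j) _ (D.iso j) (kron_posDef (D.c j) P hP)

private theorem Rho_symm (P : ∀ i, Matrix (Fin (a i)) (Fin (a i)) ℝ) (hP : ∀ i, (P i).PosDef)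
    (j : Fin q) : (kron (D.c j) P)ᵀ = kron (D.c j) P := by
  have h := (kron_posDef (D.c j) P hP).1
  rwa [Matrix.IsHermitian, conjTranspose_eq_transpose_of_trivial] at h

theorem rho_rpow (P : ∀ i, Matrix (Fin (a i)) (Fin (a i)) ℝ) (hP : ∀ i, (P i).PosDef) (t : ℝ)
    (j : Fin q) : cfc (fun x : ℝ => x ^ t) (rho D P j) =
      rho D (fun i => cfc (fun x : ℝ => x ^ t) (P i)) j := by
  rw [rho, rho, cfc_compress (kron (D.c j) P) (Rho_symm D P hP j) (D.B j) (D.iso j) (D.inv j P),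
    kron_rpow (D.c j) P hP]

theorem rho_log (P : ∀ i, Matrix (Fin (a i)) (Fin (a i)) ℝ) (hP : ∀ i, (P i).PosDef)
    (j : Fin q) : cfc Real.log (rho D P j) = drho D (fun i => lg (P i)) j := by
  rw [rho, drho, cfc_compress (kron (D.c j) P) (Rho_symm D P hP j) (D.B j) (D.iso j) (D.inv j P),
    kron_log (D.c j) P hP]

/-- the derivative as a linear map -/
noncomputable def drhoL (j : Fin q) :
    (∀ i, Matrix (Fin (a i)) (Fin (a i)) ℝ) →ₗ[ℝ] Matrix (Fin (k j)) (Fin (k j)) ℝ where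
  toFun A := drho D A j
  map_add' A A' := by
    rw [drho, drho, drho, dkron_add, Matrix.mul_add, Matrix.add_mul]
  map_smul' t A := by
    rw [drho, drho, dkron_smul, Matrix.mul_smul, Matrix.smul_mul, RingHom.id_apply]

theorem drho_transpose (A : ∀ i, Matrix (Fin (a i)) (Fin (a i)) ℝ) (j : Fin q) :
    (drho D A j)ᵀ = drho D (fun i => (A i)ᵀ) j := by
  rw [drho, drho, Matrix.transpose_mul, Matrix.transpose_mul, Matrix.transpose_transpose,
    dkron_transpose, Matrix.mul_assoc]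

private theorem Rho_dinv (A : ∀ i, Matrix (Fin (a i)) (Fin (a i)) ℝ) (j : Fin q) :
    dkron (D.c j) A * D.B j = D.B j * ((D.B j)ᵀ * dkron (D.c j) A * D.B j) :=
  dkron_inv (D.c j) (D.B j) (D.iso j) (D.inv j) A

theorem drho_bracket (A A' : ∀ i, Matrix (Fin (a i)) (Fin (a i)) ℝ) (j : Fin q) :
    drho D A j * drho D A' j - drho D A' j * drho D A j =
      drho D (fun i => A i * A' i - A' i * A i) j := by
  rw [drho, drho, drho, Rho_comp (D.B j) _ _ (Rho_dinv D A' j),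
    Rho_comp (D.B j) _ _ (Rho_dinv D A j), ← dkron_bracket, Matrix.mul_sub, Matrix.sub_mul]

theorem rho_drho (O A : ∀ i, Matrix (Fin (a i)) (Fin (a i)) ℝ) (hO : ∀ i, O i * (O i)ᵀ = 1)
    (j : Fin q) : rho D O j * drho D A j * (rho D O j)ᵀ =
      drho D (fun i => O i * A i * (O i)ᵀ) j := by
  rw [rho_transpose, rho, rho, drho, drho, Rho_comp (D.B j) _ _ (Rho_dinv D A j),
    Rho_comp (D.B j) _ _ (D.inv j _), ← kron_dkron (D.c j) O A hO, kron_transpose]

theorem rho_det (O : ∀ i, Matrix (Fin (a i)) (Fin (a i)) ℝ) (hO : ∀ i, O i * (O i)ᵀ = 1)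
    (hd : ∀ i, (O i).det = 1) (j : Fin q) : (rho D O j).det = 1 :=
  mult_eq_one (fun g => (rho D g j).det) (by
    show (rho D 1 j).det = 1
    rw [rho_one, Matrix.det_one]) (fun g h => by
    show (rho D (g * h) j).det = (rho D g j).det * (rho D h j).det
    rw [rho_mul, Matrix.det_mul]) O hO hd

theorem rho_det_ne_zero (g : ∀ i, Matrix (Fin (a i)) (Fin (a i)) ℝ) (hg : ∀ i, (g i).det ≠ 0)
    (j : Fin q) : (rho D g j).det ≠ 0 := by
  have h1 : g * (fun i => (g i)⁻¹) = 1 := by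
    funext i
    rw [Pi.mul_apply, Pi.one_apply]
    exact Matrix.mul_nonsing_inv _ (isUnit_iff_ne_zero.2 (hg i))
  have h2 := rho_mul D g (fun i => (g i)⁻¹) j
  rw [h1, rho_one] at h2
  have h3 := congrArg Matrix.det h2
  rw [Matrix.det_one, Matrix.det_mul] at h3
  intro h
  rw [h, zero_mul] at h3
  exact one_ne_zero h3

end Pool.Agent.ChN
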